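import Pool.Agent.H19.NN.Defs

/-!
# [H19 NN BOX] Boxes with bounded sides in a dense subset of `[-X, X]^k`

PROOF. STEP (pigeonhole): let `R ⊆ Bx k X`, `c X^k ≤ #R`, `L` natural with `c L ≥ 2 * 5^k`, `L ≤ X`, `X ≥ 1`, `i : Fin k`. The `L` sets
`R - t e_i` (`0 ≤ t < L`, `e_i = Pi.single i 1`) are contained in `Bx k (2X)`, which has `(4X+1)^k ≤ (5X)^k` elements. Bonferroni:
`#Bx k (2X) ≥ #∪ ≥ ∑_t #R - ∑_{t<t'} #((R - t e_i) ∩ (R - t' e_i))` (or: let `N(x)` be the number of `t` with `x + t e_i ∈ R`; for all `x`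
`N(x) ≤ 1 + N(x)(N(x)-1)/2 = 1 + #{t < t' : ...}`). `L #R ≥ 2 (5X)^k`, so the sum over the pairs is `≥ L #R - (5X)^k ≥ (5X)^k`; some pair
`t < t'` has at least `(5X)^k / L^2 ≥ X^k / L^2` elements. With `d = t' - t`, `1 ≤ d ≤ L`, the set `R₁ = {r ∈ R : r + d e_i ∈ R}` has at least
`X^k / L^2` elements (translate by `t e_i`).
INDUCTION over finite sets `J` of coordinates (`Finset.induction_on`): for all `c > 0` there are `c' > 0`, `D`, `X₀` such that for `X ≥ X₀`,
`R ⊆ Bx k X`, `c X^k ≤ #R` there are `d` with `1 ≤ d i ≤ D` for all `i` and `R' ⊆ R`, `c' X^k ≤ #R'` with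
`r + ∑_{i ∈ ω} d i e_i ∈ R` for all `r ∈ R'`, `ω ⊆ J`. `J = ∅`: `R' = R`, `d = 1`. `insert i J`: `R'`, `d` for `J`; the STEP for `R'` and `i` gives
`d'`, `R''`; replace `d i` by `d'` (`Function.update`; for `ω ⊆ J` nothing changes as `i ∉ J`); for `ω = insert i ω'`:
`r + d' e_i ∈ R'`, then add `ω'`. Finally `J = univ`: `R'` is nonempty for `X ≥ 1`; take `r ∈ R'`
(`r + ∑_{i∈ω} d i e_i = fun i => r i + if i ∈ ω then d i else 0`).
It may be convenient to state the induction directly with `fun i => r i + if i ∈ ω then d i else 0`.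
-/

set_option autoImplicit false

open Finset Filter Topology Pool.Agent.H68.OF

namespace Pool.H19.NN

/-- translation by `t` in the direction `i` -/
def shf {k : ℕ} (i : Fin k) (x : Fin k → ℤ) (t : ℤ) : Fin k → ℤ := fun j => x j + if j = i then t else 0

theorem shf_shf {k : ℕ} (i : Fin k) (x : Fin k → ℤ) (s t : ℤ) : shf i (shf i x s) t = shf i x (s + t) := by
  funext j
  unfold shf
  by_cases h : j = i
  · simp only [h, if_true]
    ring
  · simp only [h, if_false]
    ring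

theorem shf_zero {k : ℕ} (i : Fin k) (x : Fin k → ℤ) : shf i x 0 = x := by
  funext j
  unfold shf
  by_cases h : j = i
  · simp only [h, if_true]
    ring
  · simp only [h, if_false]
    ring

theorem shf_inj {k : ℕ} (i : Fin k) (t : ℤ) : Function.Injective (fun x : Fin k → ℤ => shf i x t) := by
  intro x y h
  have h1 := congrArg (fun z => shf i z (-t)) h
  simp only [shf_shf, add_neg_cancel, shf_zero] at h1
  exact h1

theorem card_Bx_two_le (k X : ℕ) (hX : 1 ≤ X) : (Bx k (2 * X)).card ≤ (5 * X) ^ k := by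
  unfold Bx
  rw [Fintype.card_piFinset]
  simp only [Int.card_Icc, Finset.prod_const, Finset.card_univ, Fintype.card_fin]
  refine Nat.pow_le_pow_left ?_ k
  push_cast
  omega

theorem box_pig (k L X : ℕ) (hX : 1 ≤ X) (hLX : L ≤ X) (R : Finset (Fin k → ℤ)) (hR : R ⊆ Bx k X) (i : Fin k) (M : ℕ)
    (hM : ∀ d : ℕ, 1 ≤ d → d ≤ L → (R.filter (fun r => shf i r d ∈ R)).card ≤ M) :
    L * R.card ≤ (5 * X) ^ k + L * L * M := by
  classical
  set B : Finset (Fin k → ℤ) := Bx k (2 * X) with hB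
  set T : (Fin k → ℤ) → Finset ℕ := fun x => (range L).filter (fun t => shf i x t ∈ R) with hT
  set P : Finset (ℕ × ℕ) := (range L ×ˢ range L).filter (fun p => p.1 < p.2) with hP
  have h1 : L * R.card ≤ ∑ x ∈ B, (T x).card := by
    have h2 : ∀ x ∈ B, (T x).card = ∑ t ∈ range L, if shf i x t ∈ R then 1 else 0 := by
      intro x _
      rw [hT, Finset.card_filter]
    rw [Finset.sum_congr rfl h2, Finset.sum_comm]
    have h3 : ∀ t ∈ range L, R.card ≤ ∑ x ∈ B, if shf i x t ∈ R then 1 else 0 := by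
      intro t ht
      rw [← Finset.card_filter]
      refine Finset.card_le_card_of_injOn (fun r => shf i r (-(t : ℤ))) ?_ ((shf_inj i _).injOn)
      intro r hr
      have hr' := hR hr
      unfold Bx at hr'
      rw [Fintype.mem_piFinset] at hr'
      refine Finset.mem_coe.mpr (Finset.mem_filter.mpr ⟨?_, ?_⟩)
      · rw [hB]
        unfold Bx
        rw [Fintype.mem_piFinset]
        intro j
        have h4 := Finset.mem_Icc.mp (hr' j)
        have h5 : (t : ℤ) ≤ X := by
          have := Finset.mem_range.mp ht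
          exact_mod_cast (this.le.trans hLX)
        have h6 : (0 : ℤ) ≤ t := Int.natCast_nonneg t
        rw [Finset.mem_Icc]
        show -((2 * X : ℕ) : ℤ) ≤ r j + (if j = i then -(t : ℤ) else 0) ∧ r j + (if j = i then -(t : ℤ) else 0) ≤ ((2 * X : ℕ) : ℤ)
        push_cast
        split_ifs
        · constructor <;> linarith
        · constructor <;> linarith
      · show shf i (shf i r (-(t : ℤ))) t ∈ R
        rw [shf_shf, neg_add_cancel, shf_zero]
        exact hr
    calc L * R.card = ∑ t ∈ range L, R.card := by rw [Finset.sum_const, Finset.card_range, smul_eq_mul]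
      _ ≤ _ := Finset.sum_le_sum h3
  have h2 : ∀ x ∈ B, (T x).card ≤ 1 + ∑ p ∈ P, if shf i x p.1 ∈ R ∧ shf i x p.2 ∈ R then 1 else 0 := by
    intro x _
    rw [← Finset.card_filter]
    rcases (T x).eq_empty_or_nonempty with h0 | h0
    · rw [h0]
      simp
    · set t0 := (T x).min' h0 with ht0
      have ht0m : t0 ∈ T x := Finset.min'_mem _ _
      have h3 : ((T x).erase t0).card ≤ (P.filter (fun p => shf i x p.1 ∈ R ∧ shf i x p.2 ∈ R)).card := by
        refine Finset.card_le_card_of_injOn (fun t => (t0, t)) ?_ ?_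
        · intro t ht
          have ht' := Finset.mem_erase.mp (Finset.mem_coe.mp ht)
          have h4 : t0 ≤ t := Finset.min'_le _ _ ht'.2
          have h5 : t0 < t := lt_of_le_of_ne h4 (Ne.symm ht'.1)
          have h6 := Finset.mem_filter.mp ht'.2
          have h7 := Finset.mem_filter.mp ht0m
          exact Finset.mem_coe.mpr (Finset.mem_filter.mpr ⟨Finset.mem_filter.mpr ⟨Finset.mem_product.mpr ⟨h7.1, h6.1⟩, h5⟩, h7.2, h6.2⟩)
        · intro a _ b _ hab
          exact (Prod.mk.inj hab).2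
      rw [Finset.card_erase_of_mem ht0m] at h3
      omega
  have h3 : ∑ x ∈ B, (1 + ∑ p ∈ P, if shf i x p.1 ∈ R ∧ shf i x p.2 ∈ R then 1 else 0) ≤ (5 * X) ^ k + L * L * M := by
    rw [Finset.sum_add_distrib, Finset.sum_comm]
    refine Nat.add_le_add ?_ ?_
    · rw [Finset.sum_const, smul_eq_mul, mul_one]
      exact card_Bx_two_le k X hX
    · have h4 : ∀ p ∈ P, (∑ x ∈ B, if shf i x p.1 ∈ R ∧ shf i x p.2 ∈ R then 1 else 0) ≤ M := by
        intro p hp
        have hp' := Finset.mem_filter.mp hp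
        have hp2 := Finset.mem_product.mp hp'.1
        have h5 := Finset.mem_range.mp hp2.2
        rw [← Finset.card_filter]
        refine le_trans ?_ (hM (p.2 - p.1) (by omega) (by omega))
        refine Finset.card_le_card_of_injOn (fun x => shf i x p.1) ?_ ((shf_inj i _).injOn)
        intro x hx
        have hx' := Finset.mem_filter.mp (Finset.mem_coe.mp hx)
        refine Finset.mem_coe.mpr (Finset.mem_filter.mpr ⟨hx'.2.1, ?_⟩)
        show shf i (shf i x p.1) ((p.2 - p.1 : ℕ) : ℤ) ∈ R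
        rw [shf_shf]
        have h6 : (p.1 : ℤ) + ((p.2 - p.1 : ℕ) : ℤ) = p.2 := by
          have := hp'.2
          omega
        rw [h6]
        exact hx'.2.2
      calc ∑ p ∈ P, (∑ x ∈ B, if shf i x p.1 ∈ R ∧ shf i x p.2 ∈ R then 1 else 0) ≤ ∑ p ∈ P, M := Finset.sum_le_sum h4
        _ = P.card * M := by rw [Finset.sum_const, smul_eq_mul]
        _ ≤ L * L * M := by
          refine Nat.mul_le_mul_right _ ?_
          refine (Finset.card_filter_le _ _).trans ?_
          rw [Finset.card_product, Finset.card_range]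
  exact h1.trans ((Finset.sum_le_sum h2).trans h3)

theorem box_step (k : ℕ) (c : ℝ) (hc : 0 < c) : ∃ c' : ℝ, 0 < c' ∧ ∃ L : ℕ, 1 ≤ L ∧ ∀ X : ℕ, L ≤ X → ∀ R : Finset (Fin k → ℤ),
    R ⊆ Bx k X → c * (X : ℝ) ^ k ≤ R.card → ∀ i : Fin k, ∃ d : ℕ, 1 ≤ d ∧ d ≤ L ∧
      c' * (X : ℝ) ^ k ≤ (R.filter (fun r => shf i r d ∈ R)).card := by
  set L : ℕ := ⌈2 * 5 ^ k / c⌉₊ + 1 with hL
  have hL1 : 1 ≤ L := by omega
  have hL2 : 2 * 5 ^ k ≤ (L : ℝ) * c := by
    have h1 : 2 * 5 ^ k / c ≤ (L : ℝ) := by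
      rw [hL]
      push_cast
      have := Nat.le_ceil (2 * 5 ^ k / c)
      linarith
    rwa [div_le_iff₀ hc] at h1
  have hL0 : (0 : ℝ) < L := by exact_mod_cast hL1
  refine ⟨1 / (2 * L ^ 2), by positivity, L, hL1, ?_⟩
  intro X hX R hR hRc i
  by_contra hcon
  push Not at hcon
  have hX1 : 1 ≤ X := hL1.trans hX
  have hX0 : (0 : ℝ) < (X : ℝ) ^ k := by
    have : (0 : ℝ) < X := by exact_mod_cast hX1
    positivity
  set M : ℕ := ⌊1 / (2 * (L : ℝ) ^ 2) * (X : ℝ) ^ k⌋₊ with hM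
  have h1 := box_pig k L X hX1 hX R hR i M (by
    intro d hd1 hd2
    exact Nat.le_floor (hcon d hd1 hd2).le)
  have h2 : (M : ℝ) ≤ 1 / (2 * (L : ℝ) ^ 2) * (X : ℝ) ^ k := Nat.floor_le (by positivity)
  have h3 : (L : ℝ) * R.card ≤ (5 * X) ^ k + L * L * M := by exact_mod_cast h1
  have h4 : (L : ℝ) * L * M ≤ 1 / 2 * (X : ℝ) ^ k := by
    calc (L : ℝ) * L * M ≤ L * L * (1 / (2 * (L : ℝ) ^ 2) * (X : ℝ) ^ k) := by
          refine mul_le_mul_of_nonneg_left h2 (by positivity)
      _ = 1 / 2 * (X : ℝ) ^ k := by field_simp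
  have h5 : (L : ℝ) * (c * (X : ℝ) ^ k) ≤ (L : ℝ) * R.card := mul_le_mul_of_nonneg_left hRc hL0.le
  have h6 : 2 * 5 ^ k * (X : ℝ) ^ k ≤ (L : ℝ) * c * (X : ℝ) ^ k := mul_le_mul_of_nonneg_right hL2 hX0.le
  have h7 : (5 * (X : ℝ)) ^ k = 5 ^ k * (X : ℝ) ^ k := mul_pow _ _ _
  have h8 : (X : ℝ) ^ k ≤ 5 ^ k * (X : ℝ) ^ k := by
    have : (1 : ℝ) ≤ 5 ^ k := one_le_pow₀ (by norm_num)
    nlinarith
  rw [h7] at h3
  nlinarith

theorem box_ind (k : ℕ) (J : Finset (Fin k)) : ∀ c : ℝ, 0 < c → ∃ c' : ℝ, 0 < c' ∧ ∃ D X₀ : ℕ, ∀ X : ℕ, X₀ ≤ X →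
    ∀ R : Finset (Fin k → ℤ), R ⊆ Bx k X → c * (X : ℝ) ^ k ≤ R.card → ∃ d : Fin k → ℤ, (∀ i, 1 ≤ d i ∧ d i ≤ D) ∧
      ∃ R' : Finset (Fin k → ℤ), R' ⊆ R ∧ c' * (X : ℝ) ^ k ≤ R'.card ∧
        ∀ r ∈ R', ∀ ω : Finset (Fin k), ω ⊆ J → (fun i => r i + if i ∈ ω then d i else 0) ∈ R := by
  classical
  induction J using Finset.induction_on with
  | empty =>
    intro c hc
    refine ⟨c, hc, 1, 0, ?_⟩
    intro X _ R hR hRc
    refine ⟨fun _ => 1, fun _ => ⟨le_rfl, by norm_num⟩, R, Finset.Subset.refl R, hRc, ?_⟩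
    intro r hr ω hω
    rw [Finset.subset_empty.mp hω]
    simpa using hr
  | insert i J hi ih =>
    intro c hc
    obtain ⟨c₁, hc₁, D, X₀, h⟩ := ih c hc
    obtain ⟨c₂, hc₂, L, hL, hs⟩ := box_step k c₁ hc₁
    refine ⟨c₂, hc₂, max D L, max X₀ L, ?_⟩
    intro X hX R hR hRc
    obtain ⟨d, hd, R₁, hR₁, hR₁c, hR₁m⟩ := h X ((le_max_left _ _).trans hX) R hR hRc
    obtain ⟨d', hd1, hd2, hd3⟩ := hs X ((le_max_right _ _).trans hX) R₁ (hR₁.trans hR) hR₁c i
    refine ⟨Function.update d i (d' : ℤ), ?_, R₁.filter (fun r => shf i r d' ∈ R₁), (Finset.filter_subset _ _).trans hR₁, hd3, ?_⟩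
    · intro j
      by_cases hj : j = i
      · subst hj
        rw [Function.update_self]
        refine ⟨by exact_mod_cast hd1, ?_⟩
        have : (d' : ℤ) ≤ L := by exact_mod_cast hd2
        refine this.trans ?_
        exact_mod_cast le_max_right D L
      · rw [Function.update_of_ne hj]
        refine ⟨(hd j).1, (hd j).2.trans ?_⟩
        exact_mod_cast le_max_left D L
    · intro r hr ω hω
      have hr' := Finset.mem_filter.mp hr
      by_cases hiω : i ∈ ω
      · have h1 := hR₁m (shf i r d') hr'.2 (ω.erase i) (by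
          intro j hj
          have hj' := Finset.mem_erase.mp hj
          exact (Finset.mem_insert.mp (hω hj'.2)).resolve_left hj'.1)
        have h2 : (fun j => r j + if j ∈ ω then Function.update d i (d' : ℤ) j else 0)
            = (fun j => shf i r (d' : ℤ) j + if j ∈ ω.erase i then d j else 0) := by
          funext j
          unfold shf
          by_cases hj : j = i
          · subst hj
            simp [hiω]
          · simp [hj]
        rw [h2]
        exact h1
      · have h1 := hR₁m r hr'.1 ω (by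
          intro j hj
          refine (Finset.mem_insert.mp (hω hj)).resolve_left ?_
          rintro rfl
          exact hiω hj)
        have h2 : (fun j => r j + if j ∈ ω then Function.update d i (d' : ℤ) j else 0)
            = (fun j => r j + if j ∈ ω then d j else 0) := by
          funext j
          by_cases hj : j = i
          · subst hj
            simp [hiω]
          · simp [hj]
        rw [h2]
        exact h1

theorem box_lemma (k : ℕ) (c : ℝ) (hc : 0 < c) : ∃ D X₀ : ℕ, ∀ X : ℕ, X₀ ≤ X → ∀ R : Finset (Fin k → ℤ), R ⊆ Bx k X →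
    c * (X : ℝ) ^ k ≤ R.card → ∃ r d : Fin k → ℤ, (∀ i, 1 ≤ d i ∧ d i ≤ D) ∧
      ∀ ω : Finset (Fin k), (fun i => r i + if i ∈ ω then d i else 0) ∈ R := by
  obtain ⟨c', hc', D, X₀, h⟩ := box_ind k Finset.univ c hc
  refine ⟨D, max X₀ 1, ?_⟩
  intro X hX R hR hRc
  obtain ⟨d, hd, R', hR', hR'c, hm⟩ := h X ((le_max_left _ _).trans hX) R hR hRc
  have hX1 : 1 ≤ X := (le_max_right _ _).trans hX
  have h1 : (0 : ℝ) < R'.card := by
    refine lt_of_lt_of_le ?_ hR'c
    have : (0 : ℝ) < X := by exact_mod_cast hX1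
    positivity
  have h2 : 0 < R'.card := by exact_mod_cast h1
  obtain ⟨r, hr⟩ := Finset.card_pos.mp h2
  exact ⟨r, d, hd, fun ω => hm r hr ω (Finset.subset_univ ω)⟩

end Pool.H19.NN
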