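import Pool.Agent.H19.NN.Defs

/-!
# [H19 NN CAL] Calculus of probabilities and mean distances

PROOF. Everything follows from `E_mono`, `E_const`, `E_sum`, `E_sub`, `M.add'`, `E_tr` (MeanA), with `Bdd` lemmas. Indicator functions
are bounded (`Bdd.ite (Bdd.const 1) (Bdd.const 0)`). `Pb_or`: indicator of the union `≤` sum of the indicators. `Pb_ex`: induction on
`J` with `Pb_or`. `Ed_div`: `u v̄ - a b̄ = (u - a) v̄ + a (v̄ - b̄)`, `‖v̄ - b̄‖ = ‖v - b‖`.
`Pb_markov`: `c * indicator ≤ f`.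
-/

set_option autoImplicit false

open Finset Filter Topology Pool.Agent.H68.OF

namespace Pool.H19.NN

variable (M : Mn)

open Classical in
private theorem Cal_bd (A : Om → Prop) : Bdd (fun w => if A w then (1 : ℝ) else 0) :=
  Bdd.ite (Bdd.const 1) (Bdd.const 0)

private theorem Cal_bu {u : Om → ℂ} (hu : ∀ w, ‖u w‖ ≤ 1) (a : ℂ) : Bdd (fun w => ‖u w - a‖) :=
  ⟨1 + ‖a‖, fun w => by
    rw [abs_norm]
    exact (norm_sub_le _ _).trans (by linarith [hu w])⟩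

theorem Pb_nonneg (A : Om → Prop) : 0 ≤ Pb M A := by
  unfold Pb
  refine M.nonneg' _ (Cal_bd A) (fun w => ?_)
  split_ifs <;> norm_num

theorem Pb_mono {A B : Om → Prop} (h : ∀ w, A w → B w) : Pb M A ≤ Pb M B := by
  unfold Pb
  refine E_mono M (Cal_bd A) (Cal_bd B) (fun w => ?_)
  by_cases hA : A w
  · rw [if_pos hA, if_pos (h w hA)]
  · rw [if_neg hA]
    split_ifs <;> norm_num

theorem Pb_false : Pb M (fun _ => False) = 0 := by
  unfold Pb
  simp only [if_false]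
  exact E_const M 0

theorem Pb_or (A B : Om → Prop) : Pb M (fun w => A w ∨ B w) ≤ Pb M A + Pb M B := by
  unfold Pb
  rw [← M.add' _ _ (Cal_bd A) (Cal_bd B)]
  refine E_mono M (Cal_bd (fun w => A w ∨ B w)) ((Cal_bd A).add (Cal_bd B)) (fun w => ?_)
  by_cases hA : A w <;> by_cases hB : B w <;> simp [hA, hB]

theorem Pb_ex (J : ℕ) (A : ℕ → Om → Prop) : Pb M (fun w => ∃ j < J, A j w) ≤ ∑ j ∈ range J, Pb M (A j) := by
  induction J with
  | zero =>
    rw [Finset.sum_range_zero, ← Pb_false M]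
    refine Pb_mono M (fun w h => ?_)
    obtain ⟨j, hj, -⟩ := h
    exact absurd hj (Nat.not_lt_zero j)
  | succ J ih =>
    rw [Finset.sum_range_succ]
    refine le_trans (Pb_mono M (B := fun w => (∃ j < J, A j w) ∨ A J w) (fun w h => ?_))
      ((Pb_or M _ _).trans (add_le_add ih le_rfl))
    obtain ⟨j, hj, hA⟩ := h
    rcases Nat.lt_succ_iff_lt_or_eq.1 hj with h | h
    · exact Or.inl ⟨j, h, hA⟩
    · rw [h] at hA
      exact Or.inr hA

theorem Pb_tr (A : Om → Prop) (v : ℤ) : Pb M (fun w => A (tr v w)) = Pb M A := by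
  unfold Pb
  exact E_tr M (Cal_bd A) v

theorem Pb_markov {f : Om → ℝ} (hf : Bdd f) (h0 : ∀ w, 0 ≤ f w) {c : ℝ} (hc : 0 < c) :
    Pb M (fun w => c ≤ f w) ≤ M.E f / c := by
  rw [le_div_iff₀ hc, mul_comm]
  unfold Pb
  rw [← M.smul' c _ (Cal_bd _)]
  refine E_mono M ((Bdd.const c).mul (Cal_bd _)) hf (fun w => ?_)
  by_cases h : c ≤ f w
  · rw [if_pos h, mul_one]
    exact h
  · rw [if_neg h, mul_zero]
    exact h0 w

theorem Ed_nonneg {u : Om → ℂ} (hu : ∀ w, ‖u w‖ ≤ 1) (a : ℂ) : 0 ≤ Ed M u a := by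
  unfold Ed
  exact M.nonneg' _ (Cal_bu hu a) (fun w => norm_nonneg _)

theorem Ed_tr {u : Om → ℂ} (hu : ∀ w, ‖u w‖ ≤ 1) (a : ℂ) (v : ℤ) : Ed M (fun w => u (tr v w)) a = Ed M u a := by
  unfold Ed
  exact E_tr M (Cal_bu hu a) v

theorem Ed_div {u v : Om → ℂ} (hu : ∀ w, ‖u w‖ ≤ 1) (hv : ∀ w, ‖v w‖ ≤ 1) {a b : ℂ} (ha : ‖a‖ ≤ 1) (hb : ‖b‖ ≤ 1) :
    Ed M (fun w => u w * (starRingEnd ℂ) (v w)) (a * (starRingEnd ℂ) b) ≤ Ed M u a + Ed M v b := by
  unfold Ed
  rw [← M.add' _ _ (Cal_bu hu a) (Cal_bu hv b)]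
  refine E_mono M (Cal_bu (fun w => ?_) _) ((Cal_bu hu a).add (Cal_bu hv b)) (fun w => ?_)
  · rw [norm_mul, RCLike.norm_conj]
    exact mul_le_one₀ (hu w) (norm_nonneg _) (hv w)
  · have h1 : u w * (starRingEnd ℂ) (v w) - a * (starRingEnd ℂ) b =
        (u w - a) * (starRingEnd ℂ) (v w) + a * (starRingEnd ℂ) (v w - b) := by
      rw [map_sub]
      ring
    rw [h1]
    refine (norm_add_le _ _).trans (add_le_add ?_ ?_)
    · rw [norm_mul, RCLike.norm_conj]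
      exact mul_le_of_le_one_right (norm_nonneg _) (hv w)
    · rw [norm_mul, RCLike.norm_conj]
      exact mul_le_of_le_one_left (norm_nonneg _) ha

end Pool.H19.NN
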