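import Pool.Agent.H19.NN.Defs

/-!
# [H19 NN CBS] Counting cubes

PROOF. `mem_cs_succ`: a subset of `Fin (k+1)` is the image under `castSucc` of a subset `ω` of `Fin k`, or this image with `Fin.last k`
inserted; so `x ∈ cs (k+1) A r` iff `x ∈ cs k A r'` and `x + r_last ∈ cs k A r'`, `r' = r ∘ castSucc`. (`x ∈ cs k A r` implies `x ∈ A`: `ω = ∅`.)
`SS_succ`: `Bx (k+1) X` is in bijection with `Bx k X × [-X, X]` (`Fin.snoc`/`Fin.init`); for fixed `r'` and `S = cs k A r' ⊆ A` the sum over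
`s ∈ [-X, X]` of `#{x ∈ S : x + s ∈ S}` is the number of pairs `(x, y) ∈ S × S` (`s = y - x`, `|s| ≤ X` by `hA`).
`SS_zero`: `Bx 0 X` has one element and `cs 0 A r = A`.
`SS_step`: Cauchy-Schwarz over `Bx k X`, which has `(2X+1)^k ≤ (3X)^k` elements (`Fintype.card_piFinset`, `Int.card_Icc`).
`SS_cauchy`: Cauchy-Schwarz over the `r` with `cs k A r` nonempty (the other terms vanish; `x ∈ cs k A r ↔ Cub k A r x` as `Cub` implies
`x ∈ A`). `SS_monoA`: `cs k A r ⊆ cs k B r`.
-/

set_option autoImplicit false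

open Finset Filter Topology Pool.Agent.H68.OF

namespace Pool.H19.NN

theorem mem_cs (k : ℕ) (A : Finset ℤ) (r : Fin k → ℤ) (x : ℤ) : x ∈ cs k A r ↔ Cub k A r x := by
  classical
  constructor
  · intro h
    exact (Finset.mem_filter.mp h).2
  · intro h
    refine Finset.mem_filter.mpr ⟨?_, h⟩
    have := h ∅
    simpa using this

theorem cbs_sum (k : ℕ) (r : Fin (k + 1) → ℤ) (ω : Finset (Fin (k + 1))) :
    ∑ i ∈ ω, r i = ∑ i ∈ univ.filter (fun i : Fin k => i.castSucc ∈ ω), r i.castSucc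
      + if Fin.last k ∈ ω then r (Fin.last k) else 0 := by
  have h1 : ∑ i ∈ ω, r i = ∑ i, if i ∈ ω then r i else 0 := by
    rw [Finset.sum_ite_mem, Finset.univ_inter]
  rw [h1, Fin.sum_univ_castSucc, Finset.sum_filter]

theorem mem_cs_succ (k : ℕ) (A : Finset ℤ) (r : Fin (k + 1) → ℤ) (x : ℤ) : x ∈ cs (k + 1) A r ↔
    x ∈ cs k A (fun i => r i.castSucc) ∧ x + r (Fin.last k) ∈ cs k A (fun i => r i.castSucc) := by
  rw [mem_cs, mem_cs, mem_cs]
  constructor
  · intro h
    refine ⟨fun ω => ?_, fun ω => ?_⟩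
    · have h1 := h (ω.map Fin.castSuccEmb)
      rw [Finset.sum_map] at h1
      simpa using h1
    · have h1 := h (insert (Fin.last k) (ω.map Fin.castSuccEmb))
      rw [Finset.sum_insert, Finset.sum_map] at h1
      · rw [add_assoc]
        simpa using h1
      · intro h2
        rw [Finset.mem_map] at h2
        obtain ⟨a, -, ha⟩ := h2
        exact (Fin.castSucc_lt_last a).ne ha
  · rintro ⟨h1, h2⟩ ω
    rw [cbs_sum]
    by_cases h3 : Fin.last k ∈ ω
    · rw [if_pos h3]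
      have h4 := h2 (univ.filter (fun i : Fin k => i.castSucc ∈ ω))
      rw [show x + (∑ i ∈ univ.filter (fun i : Fin k => i.castSucc ∈ ω), r i.castSucc + r (Fin.last k))
        = x + r (Fin.last k) + ∑ i ∈ univ.filter (fun i : Fin k => i.castSucc ∈ ω), r i.castSucc by ring]
      exact h4
    · rw [if_neg h3, add_zero]
      exact h1 _

theorem SS_zero (X : ℕ) (A : Finset ℤ) : SS 0 X A = A.card := by
  have h1 : ∀ r : Fin 0 → ℤ, cs 0 A r = A := by
    intro r
    ext x
    rw [mem_cs]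
    constructor
    · intro h
      have := h ∅
      simpa using this
    · intro h ω
      have : ω = ∅ := by
        ext i
        exact i.elim0
      rw [this]
      simpa using h
  have h2 : (Bx 0 X).card = 1 := by
    unfold Bx
    rw [Fintype.card_piFinset]
    simp
  unfold SS
  rw [Finset.sum_congr rfl (fun r _ => by rw [h1 r]), Finset.sum_const, h2, smul_eq_mul, one_mul]

theorem sum_Bx_succ (k X : ℕ) (f : (Fin (k + 1) → ℤ) → ℕ) :
    ∑ r ∈ Bx (k + 1) X, f r = ∑ r ∈ Bx k X, ∑ s ∈ Icc (-(X : ℤ)) X, f (Fin.snoc (α := fun _ => ℤ) r s) := by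
  rw [← Finset.sum_product']
  refine Finset.sum_nbij' (fun r => ((fun i => r i.castSucc), r (Fin.last k)))
    (fun p => Fin.snoc (α := fun _ => ℤ) p.1 p.2) ?_ ?_ ?_ ?_ ?_
  · intro r hr
    unfold Bx at hr
    rw [Fintype.mem_piFinset] at hr
    rw [Finset.mem_product]
    refine ⟨?_, hr _⟩
    unfold Bx
    rw [Fintype.mem_piFinset]
    intro i
    exact hr _
  · intro p hp
    rw [Finset.mem_product] at hp
    unfold Bx at hp ⊢
    rw [Fintype.mem_piFinset] at hp ⊢
    intro i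
    refine Fin.lastCases ?_ (fun j => ?_) i
    · rw [Fin.snoc_last]
      exact hp.2
    · rw [Fin.snoc_castSucc]
      exact hp.1 j
  · intro r hr
    funext i
    refine Fin.lastCases ?_ (fun j => ?_) i
    · rw [Fin.snoc_last]
    · rw [Fin.snoc_castSucc]
  · intro p hp
    ext i
    · simp
    · simp
  · intro r hr
    congr 1
    funext i
    refine Fin.lastCases ?_ (fun j => ?_) i
    · rw [Fin.snoc_last]
    · rw [Fin.snoc_castSucc]

theorem SS_succ (k X : ℕ) (A : Finset ℤ) (hA : ∀ x ∈ A, ∀ y ∈ A, |x - y| ≤ (X : ℤ)) :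
    SS (k + 1) X A = ∑ r ∈ Bx k X, (cs k A r).card ^ 2 := by
  unfold SS
  rw [sum_Bx_succ]
  refine Finset.sum_congr rfl (fun r _ => ?_)
  have h1 : ∀ s : ℤ, cs (k + 1) A (Fin.snoc (α := fun _ => ℤ) r s) = (cs k A r).filter (fun x => x + s ∈ cs k A r) := by
    intro s
    ext x
    rw [mem_cs_succ, Finset.mem_filter]
    have h2 : (fun i : Fin k => (Fin.snoc (α := fun _ => ℤ) r s : Fin (k + 1) → ℤ) i.castSucc) = r := by
      funext i
      rw [Fin.snoc_castSucc]
    rw [h2, Fin.snoc_last]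
  have hsub : ∀ x ∈ cs k A r, x ∈ A := by
    intro x hx
    classical
    exact (Finset.mem_filter.mp hx).1
  rw [Finset.sum_congr rfl (fun s _ => by rw [h1 s, Finset.card_filter]), Finset.sum_comm]
  have h3 : ∀ x ∈ cs k A r, (∑ s ∈ Icc (-(X : ℤ)) X, if x + s ∈ cs k A r then 1 else 0) = (cs k A r).card := by
    intro x hx
    rw [← Finset.card_filter]
    refine Finset.card_nbij' (fun s => x + s) (fun y => y - x) ?_ ?_ ?_ ?_
    · intro s hs
      exact (Finset.mem_filter.mp hs).2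
    · intro y hy
      have h4 := hA y (hsub y hy) x (hsub x hx)
      rw [abs_le] at h4
      refine Finset.mem_filter.mpr ⟨Finset.mem_Icc.mpr h4, ?_⟩
      rw [add_sub_cancel]
      exact hy
    · intro s hs
      exact add_sub_cancel_left x s
    · intro y hy
      exact add_sub_cancel x y
  rw [Finset.sum_congr rfl h3, Finset.sum_const, smul_eq_mul, pow_two]

theorem card_Bx_le (k X : ℕ) (hX : 1 ≤ X) : (Bx k X).card ≤ (3 * X) ^ k := by
  unfold Bx
  rw [Fintype.card_piFinset]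
  simp only [Int.card_Icc, Finset.prod_const, Finset.card_univ, Fintype.card_fin]
  refine Nat.pow_le_pow_left ?_ k
  omega

theorem SS_step (k X : ℕ) (hX : 1 ≤ X) (A : Finset ℤ) (hA : ∀ x ∈ A, ∀ y ∈ A, |x - y| ≤ (X : ℤ)) :
    SS k X A ^ 2 ≤ (3 * X) ^ k * SS (k + 1) X A := by
  rw [SS_succ k X A hA]
  have h1 : (∑ r ∈ Bx k X, (cs k A r).card) ^ 2 ≤ (Bx k X).card * ∑ r ∈ Bx k X, (cs k A r).card ^ 2 :=
    sq_sum_le_card_mul_sum_sq
  exact h1.trans (Nat.mul_le_mul_right _ (card_Bx_le k X hX))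

open Classical in
theorem SS_cauchy (k X : ℕ) (A : Finset ℤ) (hA : ∀ x ∈ A, ∀ y ∈ A, |x - y| ≤ (X : ℤ)) :
    SS k X A ^ 2 ≤ ((Bx k X).filter (fun r => ∃ x, Cub k A r x)).card * SS (k + 1) X A := by
  rw [SS_succ k X A hA]
  have h0 : ∀ r ∈ Bx k X, (cs k A r).card ≠ 0 → ∃ x, Cub k A r x := by
    intro r _ hr
    obtain ⟨x, hx⟩ := Finset.card_ne_zero.mp hr
    exact ⟨x, (mem_cs k A r x).mp hx⟩
  have h1 : SS k X A = ∑ r ∈ (Bx k X).filter (fun r => ∃ x, Cub k A r x), (cs k A r).card := by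
    unfold SS
    rw [Finset.sum_filter_of_ne h0]
  have h2 : (∑ r ∈ (Bx k X).filter (fun r => ∃ x, Cub k A r x), (cs k A r).card) ^ 2
      ≤ ((Bx k X).filter (fun r => ∃ x, Cub k A r x)).card
        * ∑ r ∈ (Bx k X).filter (fun r => ∃ x, Cub k A r x), (cs k A r).card ^ 2 :=
    sq_sum_le_card_mul_sum_sq
  rw [h1]
  refine h2.trans (Nat.mul_le_mul_left _ ?_)
  exact Finset.sum_le_sum_of_subset (Finset.filter_subset _ _)

theorem SS_monoA (k X : ℕ) {A B : Finset ℤ} (h : A ⊆ B) : SS k X A ≤ SS k X B := by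
  unfold SS
  refine Finset.sum_le_sum (fun r _ => Finset.card_le_card ?_)
  intro x hx
  rw [mem_cs] at hx ⊢
  exact fun ω => h (hx ω)

end Pool.H19.NN
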