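import Pool.Agent.H19.NN.Defs

/-!
# [H19 NN DDL] Algebra of the iterated difference operator

PROOF. `Dv_un`: norms of products. `DD_un`, `DD_mul`, `DD_conj`, `DD_tr`: induction on `k` generalizing `u` (and `u'`): the inner
function is `Dv v u`, and `Dv v (u u') = Dv v u * Dv v u'`, `Dv v ū = conj (Dv v u)`, `Dv v (u ∘ tr a) = (Dv v u) ∘ tr a`
(`tr_tr`, `add_comm`; use `funext` and rewrite the function inside).
`Dv_div`: `Dv a u w * conj (Dv b u w) = |u w|^2 * u (tr b w) * conj (u (tr a w))` and `tr (a - b) (tr b w) = tr a w`.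
`DD_div`: by `DD_conj`, `DD_mul`, `Dv_div`, `DD_tr`. `DD_pow`: induction; `conj` commutes with powers.
-/

set_option autoImplicit false

open Finset Filter Topology Pool.Agent.H68.OF

namespace Pool.H19.NN

theorem Dv_un {u : Om → ℂ} (hu : Un u) (v : ℤ) : Un (Dv v u) := by
  intro w
  unfold Dv
  rw [norm_mul, RCLike.norm_conj, hu w, hu (tr v w), mul_one]

theorem DD_un (k : ℕ) (v : Fin k → ℤ) {u : Om → ℂ} (hu : Un u) : Un (DD k v u) := by
  induction k generalizing u with
  | zero => exact hu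
  | succ k ih => exact ih (fun i => v i.castSucc) (Dv_un hu _)

theorem DD_mul (k : ℕ) (v : Fin k → ℤ) (u u' : Om → ℂ) (w : Om) :
    DD k v (fun w => u w * u' w) w = DD k v u w * DD k v u' w := by
  induction k generalizing u u' with
  | zero => rfl
  | succ k ih =>
    have h1 : Dv (v (Fin.last k)) (fun w => u w * u' w) =
        fun w => Dv (v (Fin.last k)) u w * Dv (v (Fin.last k)) u' w := by
      funext w
      unfold Dv
      rw [map_mul]
      ring
    change DD k (fun i => v i.castSucc) (Dv (v (Fin.last k)) (fun w => u w * u' w)) w = _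
    rw [h1, ih]
    rfl

theorem DD_conj (k : ℕ) (v : Fin k → ℤ) (u : Om → ℂ) (w : Om) :
    DD k v (fun w => (starRingEnd ℂ) (u w)) w = (starRingEnd ℂ) (DD k v u w) := by
  induction k generalizing u with
  | zero => rfl
  | succ k ih =>
    have h1 : Dv (v (Fin.last k)) (fun w => (starRingEnd ℂ) (u w)) =
        fun w => (starRingEnd ℂ) (Dv (v (Fin.last k)) u w) := by
      funext w
      unfold Dv
      rw [map_mul]
    change DD k (fun i => v i.castSucc) (Dv (v (Fin.last k)) (fun w => (starRingEnd ℂ) (u w))) w = _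
    rw [h1, ih]
    rfl

theorem DD_tr (k : ℕ) (v : Fin k → ℤ) (u : Om → ℂ) (a : ℤ) (w : Om) :
    DD k v (fun w => u (tr a w)) w = DD k v u (tr a w) := by
  induction k generalizing u with
  | zero => rfl
  | succ k ih =>
    have h1 : Dv (v (Fin.last k)) (fun w => u (tr a w)) =
        fun w => Dv (v (Fin.last k)) u (tr a w) := by
      funext w
      unfold Dv
      beta_reduce
      rw [tr_tr, tr_tr, add_comm]
    change DD k (fun i => v i.castSucc) (Dv (v (Fin.last k)) (fun w => u (tr a w))) w = _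
    rw [h1, ih]
    rfl

theorem Dv_div {u : Om → ℂ} (hu : Un u) (a b : ℤ) (w : Om) :
    Dv a u w * (starRingEnd ℂ) (Dv b u w) = Dv (a - b) u (tr b w) := by
  unfold Dv
  rw [tr_tr, add_sub_cancel, map_mul, Complex.conj_conj]
  have h1 : u w * (starRingEnd ℂ) (u w) = 1 := by
    rw [Complex.mul_conj, Complex.normSq_eq_norm_sq, hu w]
    norm_num
  linear_combination (u (tr b w) * (starRingEnd ℂ) (u (tr a w))) * h1

theorem DD_div (k : ℕ) (v : Fin k → ℤ) {u : Om → ℂ} (hu : Un u) (a b : ℤ) (w : Om) :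
    DD k v (Dv a u) w * (starRingEnd ℂ) (DD k v (Dv b u) w) = DD k v (Dv (a - b) u) (tr b w) := by
  rw [← DD_conj, ← DD_mul, ← DD_tr]
  congr 1
  funext w
  exact Dv_div hu a b w

theorem DD_pow (q k : ℕ) (v : Fin k → ℤ) {u : Om → ℂ} (hu : ∀ w, u w ^ q = 1) (w : Om) : DD k v u w ^ q = 1 := by
  induction k generalizing u with
  | zero => exact hu w
  | succ k ih =>
    refine ih (fun i => v i.castSucc) (u := Dv (v (Fin.last k)) u) (fun w => ?_)
    unfold Dv
    rw [mul_pow, hu, ← map_pow, hu, map_one, mul_one]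

theorem un_of_pow {q : ℕ} (hq : 0 < q) {u : Om → ℂ} (hu : ∀ w, u w ^ q = 1) : Un u := by
  intro w
  have h1 : ‖u w‖ ^ q = 1 := by rw [← norm_pow, hu w, norm_one]
  exact (pow_eq_one_iff_of_nonneg (norm_nonneg _) hq.ne').1 h1

end Pool.H19.NN
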