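import Pool.Agent.H19.NN.Cal
import Pool.Agent.H19.NN.Ddl

/-!
# [H19 NN CMB] From `2^k` long steps to short steps

PROOF. Induction on `k`, generalizing `u`, `ε`. `k = 0`: take `ω = ∅`. `k + 1`: for each `e ∈ {0, 1}` apply the induction hypothesis to
the unimodular function `U_e = Dv ((r_last + e d_last) b_last) u` (`Dv_un`) and the vectors restricted by `castSucc`: the hypothesis for
`ω ⊆ Fin k` is the given one for `ω.map castSucc` (`e = 0`), respectively `insert (last k) (ω.map castSucc)` (`e = 1`). This gives `a_e`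
with `Ed (DD k (d b) U_e) a_e ≤ 2^k ε`. By `Ed_div` and `DD_div` (with `a = (r+d) b`, `b = r b`, difference `d b`):
`Ed (fun w => DD k (d b) (Dv (d_last b_last) u) (tr (r_last b_last) w)) (a_1 * conj a_0) ≤ 2 * 2^k ε`, and `Ed_tr` removes the translation.
-/

set_option autoImplicit false

open Finset Filter Topology Pool.Agent.H68.OF

namespace Pool.H19.NN

theorem comb (M : Mn) : ∀ (k : ℕ) (b r d : Fin k → ℤ) (u : Om → ℂ), Un u → ∀ ε : ℝ,
    (∀ ω : Finset (Fin k), ∃ a : ℂ, ‖a‖ ≤ 1 ∧
      Ed M (DD k (fun i => (r i + if i ∈ ω then d i else 0) * b i) u) a ≤ ε) →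
    ∃ a : ℂ, ‖a‖ ≤ 1 ∧ Ed M (DD k (fun i => d i * b i) u) a ≤ 2 ^ k * ε := by
  intro k
  induction k with
  | zero =>
    intro b r d u hu ε h
    obtain ⟨a, ha, h1⟩ := h ∅
    refine ⟨a, ha, ?_⟩
    rw [pow_zero, one_mul]
    exact h1
  | succ k ih =>
    intro b r d u hu ε h
    have hmem : ∀ (ω : Finset (Fin k)) (i : Fin k), i.castSucc ∈ ω.map Fin.castSuccEmb ↔ i ∈ ω := by
      intro ω i
      rw [Finset.mem_map]
      constructor
      · rintro ⟨j, hj, hji⟩
        have : j = i := Fin.castSucc_injective k hji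
        rwa [this] at hj
      · intro hi
        exact ⟨i, hi, rfl⟩
    have hlast : ∀ ω : Finset (Fin k), Fin.last k ∉ ω.map Fin.castSuccEmb := by
      intro ω hω
      obtain ⟨j, -, hj⟩ := Finset.mem_map.1 hω
      exact (Fin.castSucc_lt_last j).ne hj
    -- e = 0
    obtain ⟨a₀, ha₀, h₀⟩ := ih (fun i => b i.castSucc) (fun i => r i.castSucc) (fun i => d i.castSucc)
      (Dv (r (Fin.last k) * b (Fin.last k)) u) (Dv_un hu _) ε (fun ω => by
        obtain ⟨a, ha, h1⟩ := h (ω.map Fin.castSuccEmb)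
        refine ⟨a, ha, le_of_eq_of_le ?_ h1⟩
        change _ = Ed M (DD k _ (Dv _ u)) a
        simp only [hmem, if_neg (hlast ω), add_zero])
    obtain ⟨a₁, ha₁, h₁⟩ := ih (fun i => b i.castSucc) (fun i => r i.castSucc) (fun i => d i.castSucc)
      (Dv ((r (Fin.last k) + d (Fin.last k)) * b (Fin.last k)) u) (Dv_un hu _) ε (fun ω => by
        obtain ⟨a, ha, h1⟩ := h (insert (Fin.last k) (ω.map Fin.castSuccEmb))
        refine ⟨a, ha, le_of_eq_of_le ?_ h1⟩
        change _ = Ed M (DD k _ (Dv _ u)) a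
        have h2 : ∀ i : Fin k, i.castSucc ∈ insert (Fin.last k) (ω.map Fin.castSuccEmb) ↔ i ∈ ω := by
          intro i
          rw [Finset.mem_insert, hmem]
          constructor
          · rintro (h | h)
            · exact absurd h (Fin.castSucc_lt_last i).ne
            · exact h
          · exact Or.inr
        simp only [h2, if_pos (Finset.mem_insert_self _ _)])
    have hu1 : ∀ (e : ℤ) (v : Fin k → ℤ) (w : Om), ‖DD k v (Dv e u) w‖ ≤ 1 :=
      fun e v w => (DD_un k v (Dv_un hu e) w).le
    refine ⟨a₁ * (starRingEnd ℂ) a₀, ?_, ?_⟩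
    · rw [norm_mul, RCLike.norm_conj]
      exact mul_le_one₀ ha₁ (norm_nonneg _) ha₀
    · have h3 := Ed_div M (hu1 ((r (Fin.last k) + d (Fin.last k)) * b (Fin.last k))
        (fun i => d i.castSucc * b i.castSucc)) (hu1 (r (Fin.last k) * b (Fin.last k))
        (fun i => d i.castSucc * b i.castSucc)) ha₁ ha₀
      have h4 : (fun w => DD k (fun i => d i.castSucc * b i.castSucc)
          (Dv ((r (Fin.last k) + d (Fin.last k)) * b (Fin.last k)) u) w *
          (starRingEnd ℂ) (DD k (fun i => d i.castSucc * b i.castSucc)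
          (Dv (r (Fin.last k) * b (Fin.last k)) u) w)) =
          fun w => DD k (fun i => d i.castSucc * b i.castSucc)
            (Dv (d (Fin.last k) * b (Fin.last k)) u) (tr (r (Fin.last k) * b (Fin.last k)) w) := by
        funext w
        rw [DD_div k _ hu]
        congr 2
        ring
      rw [h4, Ed_tr M (hu1 _ _)] at h3
      change Ed M (DD k (fun i => d i.castSucc * b i.castSucc)
        (Dv (d (Fin.last k) * b (Fin.last k)) u)) _ ≤ _
      rw [pow_succ]
      linarith

end Pool.H19.NN
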