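import Pool.Agent.H19.NN.Defs

/-!
# [H19 NN CNT] Counting in a box with respect to a periodic function

PROOF. `bx_succ`: the map `y ↦ (y 0, y ∘ succ)` is a bijection from `bx (n+1) a M` onto `Ico (a 0) (a 0 + M) × bx n (a ∘ succ) M`
(`Fin.consEquiv`, `Fin.cons_zero`, `Fin.cons_succ`; or `Finset.sum_bij'`).
ONE VARIABLE: `f ≥ 0` with `f (t + Q) = f t`: an interval of `M` consecutive integers contains `⌊M/Q⌋` disjoint blocks of `Q` consecutive
integers and is contained in `⌊M/Q⌋ + 1` of them, each block has sum `Σ = ∑_{t ∈ Ico 0 Q} f t` (`per_sum` in OF/Per, with `range`), so the sum lies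
between `(M/Q - 1) Σ` and `(M/Q + 1) Σ`.
INDUCTION on `n` (all `f ≥ 0` and periodic): `(M/Q - 1)^n Σ_n ≤ ∑_{bx n a M} F ≤ (M/Q + 1)^n Σ_n`, `Σ_n = ∑_{bx n 0 Q} F`, `M/Q ≥ 1`: write the sum with
`bx_succ`, apply the induction hypothesis to `y' ↦ F (cons t y')` for each `t`, then the one variable case to
`t ↦ ∑_{y' ∈ bx n 0 Q} F (cons t y')`.
FINALLY with `t = M/Q ≥ 1`: `(t+1)^n - t^n ≤ (2^n - 1) t^(n-1)` and `t^n - (t-1)^n ≤ (2^n - 1) t^(n-1)` for `n ≥ 1` (induction on `n`); for `n = 0` both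
sides are equal.
-/

set_option autoImplicit false

open Finset Filter Topology Pool.Agent.H68.OF

namespace Pool.H19.NN

theorem cnt_ico (a : ℤ) (M : ℕ) (g : ℤ → ℝ) :
    ∑ t ∈ Ico a (a + M), g t = ∑ i ∈ range M, g (a + i) := by
  refine Finset.sum_nbij' (fun t => (t - a).toNat) (fun i => a + i) ?_ ?_ ?_ ?_ ?_
  · intro t ht
    rw [Finset.mem_Ico] at ht
    rw [Finset.mem_range]
    omega
  · intro i hi
    rw [Finset.mem_range] at hi
    rw [Finset.mem_Ico]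
    omega
  · intro t ht
    rw [Finset.mem_Ico] at ht
    omega
  · intro i _
    omega
  · intro t ht
    rw [Finset.mem_Ico] at ht
    congr 1
    omega

theorem cnt_mul (Q : ℕ) (f : ℤ → ℝ) (hf : ∀ n, f (n + Q) = f n) (a : ℤ) (d : ℕ) :
    ∑ i ∈ range (Q * d), f (a + i) = d * ∑ i ∈ range Q, f i := by
  induction d with
  | zero => simp
  | succ d ih =>
    rw [Nat.mul_succ, Finset.sum_range_add, ih]
    have h1 := per_sum Q f hf (a + (Q * d : ℕ))
    have h2 : ∑ x ∈ range Q, f (a + ((Q * d + x : ℕ) : ℤ)) =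
        ∑ i ∈ range Q, f (a + ((Q * d : ℕ) : ℤ) + i) := by
      refine Finset.sum_congr rfl fun i _ => ?_
      congr 1
      push_cast
      ring
    rw [h2, h1]
    push_cast
    ring

theorem cnt_one (M Q : ℕ) (hQ : 0 < Q) (f : ℤ → ℝ) (h0 : ∀ n, 0 ≤ f n)
    (hf : ∀ n, f (n + Q) = f n) (a : ℤ) :
    ((M : ℝ) / Q - 1) * ∑ i ∈ range Q, f i ≤ ∑ t ∈ Ico a (a + M), f t ∧
    ∑ t ∈ Ico a (a + M), f t ≤ ((M : ℝ) / Q + 1) * ∑ i ∈ range Q, f i := by
  rw [cnt_ico]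
  have hQr : (0 : ℝ) < Q := by exact_mod_cast hQ
  have hS : 0 ≤ ∑ i ∈ range Q, f i := Finset.sum_nonneg fun i _ => h0 _
  have hdm : Q * (M / Q) + M % Q = M := Nat.div_add_mod M Q
  have hmod : M % Q < Q := Nat.mod_lt M hQ
  have h1 : Q * (M / Q) ≤ M := by omega
  have h2 : M ≤ Q * (M / Q + 1) := by
    rw [Nat.mul_succ]
    omega
  have h3 : (M : ℝ) / Q ≤ ((M / Q : ℕ) : ℝ) + 1 := by
    rw [div_le_iff₀ hQr]
    have : (M : ℝ) ≤ ((Q * (M / Q + 1) : ℕ) : ℝ) := by exact_mod_cast h2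
    push_cast at this
    linarith
  have h4 : ((M / Q : ℕ) : ℝ) ≤ (M : ℝ) / Q := by
    rw [le_div_iff₀ hQr]
    have : ((Q * (M / Q) : ℕ) : ℝ) ≤ (M : ℝ) := by exact_mod_cast h1
    push_cast at this
    linarith
  constructor
  · calc ((M : ℝ) / Q - 1) * ∑ i ∈ range Q, f i ≤ ((M / Q : ℕ) : ℝ) * ∑ i ∈ range Q, f i :=
          mul_le_mul_of_nonneg_right (by linarith) hS
      _ = ∑ i ∈ range (Q * (M / Q)), f (a + i) := (cnt_mul Q f hf a (M / Q)).symm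
      _ ≤ ∑ i ∈ range M, f (a + i) := by
          refine Finset.sum_le_sum_of_subset_of_nonneg ?_ (fun i _ _ => h0 _)
          exact Finset.range_mono h1
  · calc ∑ i ∈ range M, f (a + i) ≤ ∑ i ∈ range (Q * (M / Q + 1)), f (a + i) := by
          refine Finset.sum_le_sum_of_subset_of_nonneg ?_ (fun i _ _ => h0 _)
          exact Finset.range_mono h2
      _ = ((M / Q + 1 : ℕ) : ℝ) * ∑ i ∈ range Q, f i := cnt_mul Q f hf a (M / Q + 1)
      _ ≤ ((M : ℝ) / Q + 1) * ∑ i ∈ range Q, f i := by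
          apply mul_le_mul_of_nonneg_right _ hS
          push_cast
          linarith

theorem bx_succ (n : ℕ) (a : Fin (n + 1) → ℤ) (M : ℕ) (G : (Fin (n + 1) → ℤ) → ℝ) :
    ∑ y ∈ bx (n + 1) a M, G y =
      ∑ t ∈ Ico (a 0) (a 0 + M), ∑ y ∈ bx n (fun i => a i.succ) M, G (Fin.cons t y) := by
  rw [← Finset.sum_product']
  refine Finset.sum_nbij' (fun y => (y 0, fun i => y i.succ))
    (fun p => (Fin.cons p.1 p.2 : Fin (n + 1) → ℤ)) ?_ ?_ ?_ ?_ ?_
  · intro y hy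
    unfold bx at hy
    rw [Fintype.mem_piFinset] at hy
    rw [Finset.mem_product]
    refine ⟨hy 0, ?_⟩
    unfold bx
    rw [Fintype.mem_piFinset]
    intro i
    exact hy i.succ
  · intro p hp
    rw [Finset.mem_product] at hp
    unfold bx at hp ⊢
    rw [Fintype.mem_piFinset] at hp ⊢
    intro i
    refine Fin.cases ?_ (fun j => ?_) i
    · rw [Fin.cons_zero]
      exact hp.1
    · rw [Fin.cons_succ]
      exact hp.2 j
  · intro y _
    exact Fin.cons_self_tail y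
  · intro p _
    rfl
  · intro y _
    congr 1
    exact (Fin.cons_self_tail y).symm

theorem cnt_bd (n : ℕ) : ∀ (a : Fin n → ℤ) (M Q : ℕ) (_ : 0 < Q) (_ : Q ≤ M)
    (F : (Fin n → ℤ) → ℝ) (_ : ∀ y, 0 ≤ F y)
    (_ : ∀ y y' : Fin n → ℤ, (∀ i, (Q : ℤ) ∣ y i - y' i) → F y = F y'),
    ((M : ℝ) / Q - 1) ^ n * ∑ y ∈ bx n (fun _ => 0) Q, F y ≤ ∑ y ∈ bx n a M, F y ∧
    ∑ y ∈ bx n a M, F y ≤ ((M : ℝ) / Q + 1) ^ n * ∑ y ∈ bx n (fun _ => 0) Q, F y := by
  induction n with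
  | zero =>
    intro a M Q hQ hQM F h0 hF
    have h1 : bx 0 a M = bx 0 (fun _ => 0) Q := by
      ext y
      unfold bx
      rw [Fintype.mem_piFinset, Fintype.mem_piFinset]
      exact ⟨fun _ i => i.elim0, fun _ i => i.elim0⟩
    rw [h1, pow_zero, pow_zero, one_mul]
    exact ⟨le_rfl, le_rfl⟩
  | succ n ih =>
    intro a M Q hQ hQM F h0 hF
    have hQr : (0 : ℝ) < Q := by exact_mod_cast hQ
    have ht1 : (1 : ℝ) ≤ (M : ℝ) / Q := by
      rw [one_le_div hQr]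
      exact_mod_cast hQM
    obtain ⟨g, hg⟩ : ∃ g : ℤ → ℝ, g = fun t => ∑ y ∈ bx n (fun _ => 0) Q, F (Fin.cons t y) :=
      ⟨_, rfl⟩
    have hg0 : ∀ t, 0 ≤ g t := by
      intro t
      rw [hg]
      exact Finset.sum_nonneg fun y _ => h0 _
    have hgp : ∀ t, g (t + Q) = g t := by
      intro t
      rw [hg]
      refine Finset.sum_congr rfl fun y _ => ?_
      apply hF
      intro i
      refine Fin.cases ?_ (fun j => ?_) i
      · rw [Fin.cons_zero, Fin.cons_zero, add_sub_cancel_left]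
      · rw [Fin.cons_succ, Fin.cons_succ, sub_self]
        exact dvd_zero _
    have hS : ∑ y ∈ bx (n + 1) (fun _ => 0) Q, F y = ∑ i ∈ range Q, g i := by
      rw [bx_succ, hg]
      have h1 := cnt_ico 0 Q (fun t => ∑ y ∈ bx n (fun _ => 0) Q, F (Fin.cons t y))
      rw [h1]
      refine Finset.sum_congr rfl fun i _ => ?_
      rw [zero_add]
    have hstep : ∀ t : ℤ,
        ((M : ℝ) / Q - 1) ^ n * g t ≤ ∑ y ∈ bx n (fun i => a i.succ) M, F (Fin.cons t y) ∧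
        ∑ y ∈ bx n (fun i => a i.succ) M, F (Fin.cons t y) ≤ ((M : ℝ) / Q + 1) ^ n * g t := by
      intro t
      have h1 := ih (fun i => a i.succ) M Q hQ hQM (fun y => F (Fin.cons t y))
        (fun y => h0 _) (fun y y' h => by
          apply hF
          intro i
          refine Fin.cases ?_ (fun j => ?_) i
          · rw [Fin.cons_zero, Fin.cons_zero, sub_self]
            exact dvd_zero _
          · rw [Fin.cons_succ, Fin.cons_succ]
            exact h j)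
      rw [hg]
      exact h1
    obtain ⟨hlo, hhi⟩ := cnt_one M Q hQ g hg0 hgp (a 0)
    rw [hS, bx_succ]
    constructor
    · calc ((M : ℝ) / Q - 1) ^ (n + 1) * ∑ i ∈ range Q, g i
          = ((M : ℝ) / Q - 1) ^ n * (((M : ℝ) / Q - 1) * ∑ i ∈ range Q, g i) := by ring
        _ ≤ ((M : ℝ) / Q - 1) ^ n * ∑ t ∈ Ico (a 0) (a 0 + M), g t :=
            mul_le_mul_of_nonneg_left hlo (pow_nonneg (by linarith) n)
        _ = ∑ t ∈ Ico (a 0) (a 0 + M), ((M : ℝ) / Q - 1) ^ n * g t := Finset.mul_sum _ _ _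
        _ ≤ _ := Finset.sum_le_sum fun t _ => (hstep t).1
    · calc ∑ t ∈ Ico (a 0) (a 0 + M), ∑ y ∈ bx n (fun i => a i.succ) M, F (Fin.cons t y)
          ≤ ∑ t ∈ Ico (a 0) (a 0 + M), ((M : ℝ) / Q + 1) ^ n * g t :=
            Finset.sum_le_sum fun t _ => (hstep t).2
        _ = ((M : ℝ) / Q + 1) ^ n * ∑ t ∈ Ico (a 0) (a 0 + M), g t :=
            (Finset.mul_sum _ _ _).symm
        _ ≤ ((M : ℝ) / Q + 1) ^ n * (((M : ℝ) / Q + 1) * ∑ i ∈ range Q, g i) :=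
            mul_le_mul_of_nonneg_left hhi (pow_nonneg (by linarith) n)
        _ = _ := by ring

theorem cnt_num (t : ℝ) (ht : 1 ≤ t) (n : ℕ) :
    (t + 1) ^ (n + 1) ≤ t ^ (n + 1) + (2 ^ (n + 1) - 1) * t ^ n ∧
    t ^ (n + 1) - (2 ^ (n + 1) - 1) * t ^ n ≤ (t - 1) ^ (n + 1) := by
  induction n with
  | zero =>
    constructor
    · norm_num
    · norm_num
  | succ n ih =>
    obtain ⟨h1, h2⟩ := ih
    have h3 : (0 : ℝ) ≤ 2 ^ (n + 1) - 1 := by
      have : (1 : ℝ) ≤ 2 ^ (n + 1) := one_le_pow₀ (by norm_num)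
      linarith
    have h4 : t ^ n ≤ t ^ (n + 1) := pow_le_pow_right₀ ht (Nat.le_succ n)
    have h5 : 0 ≤ t ^ n := by positivity
    constructor
    · calc (t + 1) ^ (n + 1 + 1) = (t + 1) * (t + 1) ^ (n + 1) := by ring
        _ ≤ (t + 1) * (t ^ (n + 1) + (2 ^ (n + 1) - 1) * t ^ n) :=
            mul_le_mul_of_nonneg_left h1 (by linarith)
        _ = t ^ (n + 1 + 1) + 2 ^ (n + 1) * t ^ (n + 1) + (2 ^ (n + 1) - 1) * t ^ n := by ring
        _ ≤ t ^ (n + 1 + 1) + 2 ^ (n + 1) * t ^ (n + 1) + (2 ^ (n + 1) - 1) * t ^ (n + 1) := by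
            have := mul_le_mul_of_nonneg_left h4 h3
            linarith
        _ = _ := by ring
    · calc t ^ (n + 1 + 1) - (2 ^ (n + 1 + 1) - 1) * t ^ (n + 1)
          ≤ t ^ (n + 1 + 1) - 2 ^ (n + 1) * t ^ (n + 1) + (2 ^ (n + 1) - 1) * t ^ n := by
            have h6 := mul_nonneg h3 h5
            have h7 : (2 : ℝ) ^ (n + 1 + 1) = 2 * 2 ^ (n + 1) := by ring
            have h8 : (0 : ℝ) ≤ (2 ^ (n + 1) - 1) * t ^ (n + 1) := mul_nonneg h3 (by positivity)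
            rw [h7]
            nlinarith
        _ = (t - 1) * (t ^ (n + 1) - (2 ^ (n + 1) - 1) * t ^ n) := by ring
        _ ≤ (t - 1) * (t - 1) ^ (n + 1) := mul_le_mul_of_nonneg_left h2 (by linarith)
        _ = _ := by ring

theorem cntn (n : ℕ) (a : Fin n → ℤ) (M Q : ℕ) (hQ : 0 < Q) (hQM : Q ≤ M) (F : (Fin n → ℤ) → ℝ) (h0 : ∀ y, 0 ≤ F y)
    (hF : ∀ y y' : Fin n → ℤ, (∀ i, (Q : ℤ) ∣ y i - y' i) → F y = F y') :
    |∑ y ∈ bx n a M, F y - ((M : ℝ) / Q) ^ n * ∑ y ∈ bx n (fun _ => 0) Q, F y| ≤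
      2 ^ n * ((M : ℝ) / Q) ^ (n - 1) * ∑ y ∈ bx n (fun _ => 0) Q, F y := by
  obtain ⟨h1, h2⟩ := cnt_bd n a M Q hQ hQM F h0 hF
  have hQr : (0 : ℝ) < Q := by exact_mod_cast hQ
  have ht1 : (1 : ℝ) ≤ (M : ℝ) / Q := by
    rw [one_le_div hQr]
    exact_mod_cast hQM
  have hS : 0 ≤ ∑ y ∈ bx n (fun _ => 0) Q, F y := Finset.sum_nonneg fun y _ => h0 y
  obtain ⟨S, hSe⟩ : ∃ S, S = ∑ y ∈ bx n (fun _ => 0) Q, F y := ⟨_, rfl⟩
  rw [← hSe] at h1 h2 hS ⊢
  obtain ⟨t, ht⟩ : ∃ t, t = (M : ℝ) / Q := ⟨_, rfl⟩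
  rw [← ht] at h1 h2 ht1 ⊢
  cases n with
  | zero =>
    rw [pow_zero, one_mul] at h1 h2
    have h3 : ∑ y ∈ bx 0 a M, F y = S := le_antisymm h2 h1
    rw [h3]
    simp only [pow_zero, one_mul, sub_self, abs_zero]
    simpa using hS
  | succ n =>
    obtain ⟨h3, h4⟩ := cnt_num t ht1 n
    have h5 : (0 : ℝ) ≤ t ^ n := by positivity
    have h6 := mul_le_mul_of_nonneg_right h3 hS
    have h7 := mul_le_mul_of_nonneg_right h4 hS
    have h8 : 0 ≤ t ^ n * S := mul_nonneg h5 hS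
    rw [Nat.add_sub_cancel, abs_le]
    constructor <;> nlinarith

end Pool.H19.NN
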