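import Pool.Agent.H19.NN.Cnt
import Pool.Agent.H68.OF.Crt

/-!
# [H19 NN CRT] Chinese remainder theorem in several variables

PROOF. Induction on `n`, for all `F` (real valued, no sign condition). `n = 0`: both boxes have one element (`Fintype.piFinset` over `Fin 0`),
both sides are `∏ p ∈ s, F p default`. `n + 1`: by `bx_succ` the left side is
`∑_{t ∈ Ico 0 Q} ∑_{y ∈ bx n 0 Q} ∏ F p (cons t y) = ∑_{t ∈ Ico 0 Q} ∏_p F' p t` with `F' p t = ∑_{y ∈ bx n 0 p} F p (cons t y)` (induction hypothesis for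
`y ↦ F p (cons t y)`); `F' p` is periodic mod `p`, so `crt_prod` (OF/Crt; it uses `∑ n ∈ range Q, f (n : ℤ)`, convert
`Ico (0:ℤ) Q` to the image of `range Q`) gives `∏_p ∑_{t ∈ Ico 0 p} F' p t`, which is the right side by `bx_succ`.
-/

set_option autoImplicit false

open Finset Filter Topology Pool.Agent.H68.OF

namespace Pool.H19.NN

theorem crtn (n : ℕ) (s : Finset ℕ) (hs : ∀ p ∈ s, p.Prime) (F : ℕ → (Fin n → ℤ) → ℝ)
    (hF : ∀ p ∈ s, ∀ y y' : Fin n → ℤ, (∀ i, (p : ℤ) ∣ y i - y' i) → F p y = F p y') :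
    ∑ y ∈ bx n (fun _ => 0) (∏ p ∈ s, p), ∏ p ∈ s, F p y = ∏ p ∈ s, ∑ y ∈ bx n (fun _ => 0) p, F p y := by
  induction n with
  | zero =>
    have h1 : ∀ Q : ℕ, bx 0 (fun _ => 0) Q = {fun i => i.elim0} := by
      intro Q
      ext y
      unfold bx
      rw [Fintype.mem_piFinset, Finset.mem_singleton]
      exact ⟨fun _ => funext fun i => i.elim0, fun _ i => i.elim0⟩
    rw [h1, Finset.sum_singleton]
    refine Finset.prod_congr rfl fun p _ => ?_
    rw [h1, Finset.sum_singleton]
  | succ n ih =>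
    have hico : ∀ (Q : ℕ) (g : ℤ → ℝ), ∑ t ∈ Ico (0 : ℤ) (0 + Q), g t = ∑ i ∈ range Q, g i := by
      intro Q g
      rw [cnt_ico]
      exact Finset.sum_congr rfl fun i _ => by rw [zero_add]
    rw [bx_succ]
    have h1 : ∀ t : ℤ, ∑ y ∈ bx n (fun _ => 0) (∏ p ∈ s, p), ∏ p ∈ s, F p (Fin.cons t y) =
        ∏ p ∈ s, ∑ y ∈ bx n (fun _ => 0) p, F p (Fin.cons t y) := by
      intro t
      refine ih (fun p y => F p (Fin.cons t y)) (fun p hp y y' h => ?_)
      apply hF p hp
      intro i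
      refine Fin.cases ?_ (fun j => ?_) i
      · rw [Fin.cons_zero, Fin.cons_zero, sub_self]
        exact dvd_zero _
      · rw [Fin.cons_succ, Fin.cons_succ]
        exact h j
    rw [Finset.sum_congr rfl (fun t _ => h1 t), hico]
    rw [crt_prod s hs (fun p t => ∑ y ∈ bx n (fun _ => 0) p, F p (Fin.cons t y))]
    · refine Finset.prod_congr rfl fun p _ => ?_
      rw [bx_succ, hico]
    · intro p hp t
      refine Finset.sum_congr rfl fun y _ => ?_
      apply hF p hp
      intro i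
      refine Fin.cases ?_ (fun j => ?_) i
      · rw [Fin.cons_zero, Fin.cons_zero, add_sub_cancel_left]
      · rw [Fin.cons_succ, Fin.cons_succ, sub_self]
        exact dvd_zero _

end Pool.H19.NN
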