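import Pool.Agent.H19.NN.Nrm
import Pool.Agent.H68.OF.Per

/-!
# [H19 NN CTR] Contradiction

PROOF. Let `f = fG G 0`, `1_K w = 1` if `w.2 ≡ 1 mod K`, else `0`. (1) `M.E 1_K = 1/K` (`E_per` in OF/Per: exactly one residue). (2) Limit of `hmr`
along `U` (`hS.lim` for the bounded function `1_K w * ‖∑_{j<H} f (tr (j K) w)‖`; for `n ≥ 1` `f (tr (jK) (i, n)) = G i 0 (n + jK)` and
`(n : ℤ) ≡ 1 mod K` iff `n % K = 1 % K`): `M.E (1_K ‖∑_j f (tr (jK) w)‖) ≤ H / (2K)` (the hypothesis holds for all `i`; `X i > 0` eventually).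
(3) `‖∑_{j<H} f (tr (jK) w)‖ ≥ H ‖f w‖ - ∑_{j<H} ‖f (tr (jK) w) - f w‖`, and `E ‖f (tr (jK) w) - f w‖ = 0` for all `j` (induction on `j`, triangle
inequality, `E_tr`), and `E (1 - ‖f‖) = 0` (`nrm`). So `M.E (1_K ‖∑‖) ≥ H E(1_K) - 0 = H/K`. Contradiction with (2) as `H > 0`.
-/

set_option autoImplicit false

open Finset Filter Topology Pool.Agent.H68.OF

namespace Pool.H19.NN

private theorem ctr_ind (M : Mn) (K : ℕ) (hK : 0 < K) :
    M.E (fun w => if (K : ℤ) ∣ w.2 - 1 then (1 : ℝ) else 0) = 1 / K := by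
  have h1 := E_per M K hK (fun n : ℤ => if (K : ℤ) ∣ n - 1 then (1 : ℝ) else 0) (by
    intro n
    have h2 : (K : ℤ) ∣ n + K - 1 ↔ (K : ℤ) ∣ n - 1 := by
      rw [show n + (K : ℤ) - 1 = (n - 1) + K by ring]
      exact dvd_add_self_right
    by_cases h3 : (K : ℤ) ∣ n - 1
    · rw [if_pos h3, if_pos (h2.2 h3)]
    · rw [if_neg h3, if_neg (fun h => h3 (h2.1 h))])
  rw [h1]
  have h2 : ∑ n ∈ range K, (if (K : ℤ) ∣ ((n : ℕ) : ℤ) - 1 then (1 : ℝ) else 0) = 1 := by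
    rw [sum_eq_single (1 % K)]
    · rw [if_pos]
      push_cast
      exact ⟨-(1 / (K : ℤ)), by have := Int.emod_add_mul_ediv 1 (K : ℤ); linarith⟩
    · intro n hn hne
      rw [if_neg]
      intro h3
      apply hne
      have h4 : ((n : ℕ) : ℤ) ≡ ((1 : ℕ) : ℤ) [ZMOD K] := (Int.modEq_iff_dvd.2 (by
        rw [← dvd_neg]
        push_cast
        rw [neg_sub]
        exact h3))
      have h5 : n ≡ 1 [MOD K] := Int.natCast_modEq_iff.1 h4
      unfold Nat.ModEq at h5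
      rw [Nat.mod_eq_of_lt (mem_range.1 hn)] at h5
      exact h5
    · intro hn
      exact absurd (mem_range.2 (Nat.mod_lt _ hK)) hn
  rw [h2, mul_one]

theorem ctr {k : ℕ} {h : Fin (k + 1) → ℕ} {X : ℕ → ℕ} {G : ℕ → Fin (k + 1) → ArithmeticFunction ℂ}
    {U : Ultrafilter ℕ} {M : Mn} (hS : Sq k h X G U M) (K H : ℕ) (hK : 0 < K) (hH : 0 < H)
    (hper : M.E (fun w => ‖fG G 0 (tr (K : ℤ) w) - fG G 0 w‖) = 0)
    (hmr : ∀ i : ℕ, ∑ n ∈ (Icc 1 (X i)).filter (fun n => n % K = 1 % K), ‖∑ j ∈ range H, G i 0 (n + j * K)‖ ≤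
      1 / (2 * (K : ℝ)) * H * X i) : False := by
  have hKR : (0 : ℝ) < K := by exact_mod_cast hK
  have hHR : (0 : ℝ) < H := by exact_mod_cast hH
  obtain ⟨f, hf⟩ : ∃ f : Om → ℂ, f = fG G 0 := ⟨_, rfl⟩
  have hf1 : ∀ w, ‖f w‖ ≤ 1 := by
    intro w
    rw [hf]
    exact hS.bd _ _ _
  have hfB : BddC f := ⟨1, hf1⟩
  obtain ⟨J, hJ⟩ : ∃ J : Om → ℝ, J = fun w => if (K : ℤ) ∣ w.2 - 1 then (1 : ℝ) else 0 := ⟨_, rfl⟩
  have hJ0 : ∀ w, 0 ≤ J w ∧ J w ≤ 1 := by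
    intro w
    rw [hJ]
    dsimp only
    split_ifs <;> norm_num
  have hJB : Bdd J := ⟨1, fun w => by rw [abs_of_nonneg (hJ0 w).1]; exact (hJ0 w).2⟩
  have hEJ : M.E J = 1 / K := by rw [hJ]; exact ctr_ind M K hK
  -- differences
  have hdB : ∀ a : ℤ, Bdd (fun w => ‖f (tr a w) - f w‖) := fun a => ((hfB.tr a).sub hfB).norm
  have hd : ∀ j : ℕ, M.E (fun w => ‖f (tr ((j : ℤ) * K) w) - f w‖) = 0 := by
    intro j
    induction j with
    | zero =>
      have h1 : (fun w => ‖f (tr (((0 : ℕ) : ℤ) * K) w) - f w‖) = fun _ => (0 : ℝ) := by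
        funext w
        simp
      rw [h1, E_const]
    | succ j ih =>
      have h1 : M.E (fun w => ‖f (tr ((((j + 1 : ℕ) : ℤ)) * K) w) - f w‖) ≤
          M.E (fun w => ‖f (tr (K : ℤ) (tr ((j : ℤ) * K) w)) - f (tr ((j : ℤ) * K) w)‖ + ‖f (tr ((j : ℤ) * K) w) - f w‖) := by
        apply E_mono M (hdB _) (((hdB K).tr ((j : ℤ) * K)).add (hdB _))
        intro w
        have h2 : tr (K : ℤ) (tr ((j : ℤ) * K) w) = tr (((j + 1 : ℕ) : ℤ) * K) w := by
          rw [tr_tr]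
          congr 1
          push_cast
          ring
        rw [h2]
        have h3 : f (tr ((((j + 1 : ℕ) : ℤ)) * K) w) - f w = (f (tr ((((j + 1 : ℕ) : ℤ)) * K) w) - f (tr ((j : ℤ) * K) w)) +
            (f (tr ((j : ℤ) * K) w) - f w) := by ring
        rw [h3]
        exact norm_add_le _ _
      have h2 : M.E (fun w => ‖f (tr (K : ℤ) (tr ((j : ℤ) * K) w)) - f (tr ((j : ℤ) * K) w)‖ + ‖f (tr ((j : ℤ) * K) w) - f w‖) =
          M.E (fun w => ‖f (tr (K : ℤ) (tr ((j : ℤ) * K) w)) - f (tr ((j : ℤ) * K) w)‖) +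
            M.E (fun w => ‖f (tr ((j : ℤ) * K) w) - f w‖) :=
        M.add' _ _ ((hdB K).tr ((j : ℤ) * K)) (hdB _)
      have h3 : M.E (fun w => ‖f (tr (K : ℤ) (tr ((j : ℤ) * K) w)) - f (tr ((j : ℤ) * K) w)‖) = 0 := by
        have h4 := E_tr M (hdB K) ((j : ℤ) * K)
        rw [h4, hf]
        exact hper
      have h4 := M.nonneg' _ (hdB (((j + 1 : ℕ) : ℤ) * K)) (fun w => norm_nonneg _)
      rw [h2, h3, ih] at h1
      linarith
  have hnrm : M.E (fun w => 1 - ‖f w‖) = 0 := by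
    rw [hf]
    exact nrm hS 0
  -- the function F
  obtain ⟨F, hF⟩ : ∃ F : Om → ℝ, F = fun w => J w * ‖∑ j ∈ range H, f (tr ((j : ℤ) * K) w)‖ := ⟨_, rfl⟩
  have hFB : Bdd F := by
    rw [hF]
    exact hJB.mul (BddC.sum (range H) (fun j _ => hfB.tr ((j : ℤ) * K))).norm
  -- upper bound
  have hup : M.E F ≤ H / (2 * K) := by
    have hlim := hS.lim F hFB
    refine le_of_tendsto' hlim ?_
    intro i
    have h1 : ∑ n ∈ Icc 1 (X i), F (i, (n : ℤ)) =
        ∑ n ∈ (Icc 1 (X i)).filter (fun n => n % K = 1 % K), ‖∑ j ∈ range H, G i 0 (n + j * K)‖ := by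
      rw [sum_filter]
      apply sum_congr rfl
      intro n hn
      have hn1 := (mem_Icc.1 hn).1
      have h2 : (∑ j ∈ range H, f (tr ((j : ℤ) * K) (i, (n : ℤ)))) = ∑ j ∈ range H, G i 0 (n + j * K) := by
        apply sum_congr rfl
        intro j _
        rw [hf]
        unfold fG
        rw [tr_fst, tr_snd]
        congr 1
      have h3 : (n % K = 1 % K) ↔ (K : ℤ) ∣ ((n : ℕ) : ℤ) - 1 := by
        have h4 : n % K = 1 % K ↔ 1 ≡ n [MOD K] := by
          unfold Nat.ModEq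
          exact eq_comm
        rw [h4, ← Int.natCast_modEq_iff, Int.modEq_iff_dvd]
        push_cast
        rfl
      rw [hF, hJ]
      dsimp only
      rw [h2]
      by_cases h4 : n % K = 1 % K
      · rw [if_pos h4, if_pos (h3.1 h4), one_mul]
      · rw [if_neg h4, if_neg (fun hh => h4 (h3.2 hh)), zero_mul]
    rw [h1]
    rcases Nat.eq_zero_or_pos (X i) with h0 | h0
    · rw [h0]
      simp
      positivity
    · have hX0 : (0 : ℝ) < X i := by exact_mod_cast h0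
      calc 1 / (X i : ℝ) * ∑ n ∈ (Icc 1 (X i)).filter (fun n => n % K = 1 % K), ‖∑ j ∈ range H, G i 0 (n + j * K)‖
          ≤ 1 / (X i : ℝ) * (1 / (2 * (K : ℝ)) * H * X i) := mul_le_mul_of_nonneg_left (hmr i) (by positivity)
        _ = H / (2 * K) := by field_simp
  -- lower bound
  have hlo : (H : ℝ) / K ≤ M.E F := by
    have hB1 : Bdd (fun w => (H : ℝ) * J w) := (Bdd.const (H : ℝ)).mul hJB
    have hB2 : Bdd (fun w => (1 : ℝ) - ‖f w‖) := (Bdd.const 1).sub hfB.norm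
    have hB3 : Bdd (fun w => (H : ℝ) * (1 - ‖f w‖)) := (Bdd.const (H : ℝ)).mul hB2
    have hB4 : Bdd (fun w => ∑ j ∈ range H, ‖f (tr ((j : ℤ) * K) w) - f w‖) := Bdd.sum (range H) (fun j _ => hdB ((j : ℤ) * K))
    have h1 : M.E (fun w => (H : ℝ) * J w - (H : ℝ) * (1 - ‖f w‖) - ∑ j ∈ range H, ‖f (tr ((j : ℤ) * K) w) - f w‖) ≤ M.E F := by
      apply E_mono M ((hB1.sub hB3).sub hB4) hFB
      intro w
      rw [hF]
      dsimp only
      obtain ⟨hj0, hj1⟩ := hJ0 w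
      have hS0 : 0 ≤ ∑ j ∈ range H, ‖f (tr ((j : ℤ) * K) w) - f w‖ := sum_nonneg fun j _ => norm_nonneg _
      have h2 : (H : ℝ) * ‖f w‖ ≤ ‖∑ j ∈ range H, f (tr ((j : ℤ) * K) w)‖ + ∑ j ∈ range H, ‖f (tr ((j : ℤ) * K) w) - f w‖ := by
        have h3 : (H : ℂ) * f w = ∑ j ∈ range H, f (tr ((j : ℤ) * K) w) - ∑ j ∈ range H, (f (tr ((j : ℤ) * K) w) - f w) := by
          rw [sum_sub_distrib, sum_const, card_range, nsmul_eq_mul]
          ring
        have h4 : (H : ℝ) * ‖f w‖ = ‖(H : ℂ) * f w‖ := by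
          rw [norm_mul, Complex.norm_natCast]
        rw [h4, h3]
        refine (norm_sub_le _ _).trans ?_
        have h5 := norm_sum_le (range H) (fun j => f (tr ((j : ℤ) * K) w) - f w)
        linarith
      have h3 : J w * (H * ‖f w‖ - ∑ j ∈ range H, ‖f (tr ((j : ℤ) * K) w) - f w‖) ≤
          J w * ‖∑ j ∈ range H, f (tr ((j : ℤ) * K) w)‖ := mul_le_mul_of_nonneg_left (by linarith) hj0
      have h4 : 0 ≤ (1 - J w) * (H * (1 - ‖f w‖)) := mul_nonneg (by linarith) (mul_nonneg hHR.le (by linarith [hf1 w]))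
      have h5 : 0 ≤ (1 - J w) * ∑ j ∈ range H, ‖f (tr ((j : ℤ) * K) w) - f w‖ := mul_nonneg (by linarith) hS0
      nlinarith
    rw [E_sub M (hB1.sub hB3) hB4, E_sub M hB1 hB3, M.smul' _ _ hJB, M.smul' _ _ hB2, hnrm, hEJ,
      E_sum M (range H) (fun j _ => hdB ((j : ℤ) * K)), sum_congr rfl (fun j _ => hd j), sum_const_zero] at h1
    have h2 : (H : ℝ) * (1 / K) = H / K := by ring
    rw [h2] at h1
    linarith
  have h3 : (H : ℝ) / (2 * K) < H / K := by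
    apply div_lt_div_of_pos_left hHR hKR
    linarith
  linarith

end Pool.H19.NN
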