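import Pool.Agent.H68.OF.Ent
import Pool.Agent.H68.OF.MeanC
import Pool.Agent.H68.OF.Rou
import Pool.Agent.H68.OF.Lim

/-!
# The 99 per cent Elliott theorem: definitions and plan

THEOREM. For `k`, `q`, shifts `h₀` different from `h₁, ..., h_k` there is `δ > 0`: for every multiplicative `g₀` with values in
`[0,1] μ_q` and condition (N) and all 1-bounded multiplicative `g₁, ..., g_k` (depending on `N`): `|mean of the product| ≤ 1 - δ`
for `N ≥ N₀(g₀)`.

PLAN. If not, there are counterexamples with `δ = 1/(i+1)` at scales `X i → ∞`; `M` = invariant mean = limit along an ultrafilter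
(`Pool.Agent.H68.OF`). In the limit all `|g_l| = 1` almost everywhere and the product of `g_l(n + p h_l)` is constant on `n ≡ 0 mod p`
up to `O(1/p)` (`Nrm`, `Dlt`). Entropy decrement (`Lev`, `Goo`): for all `ε` there are arbitrarily large `m` such that for at least
half of the primes `p` in `(2^m, 2^(m+1)]` the product of `g_l(n + p h_l)` is constant up to mean error `ε` without the condition `p ∣ n`.
Cubes of such primes (`Elm`) eliminate `g₁, ..., g_k`: the iterated difference of `g₀` with steps `r_i (h₀ - h_i)` is constant up to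
`2^k ε`, for a positive proportion of `r ∈ [-2^m, 2^m]^k` (`Nt`: sieve and Cauchy-Schwarz); so (`Cmb`) for steps `d_i (h₀ - h_i)` with
`1 ≤ d_i ≤ D(k)`. As `g₀` has finite order (`Dsc`, `Fo`, `Prd`) `g₀(n + K) = g₀(n)` for almost all `n`, `K` fixed. This contradicts the
theorem of Matomäki and Radziwiłł (`Pool.H2.MR.mrt`) for the functions `g₀ χ`, `χ mod K` (`Mrk`, `Ctr`).
-/

set_option autoImplicit false

open Finset Filter Topology Pool.Agent.H68.OF

namespace Pool.H19.NN

open Classical in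
/-- probability of an event with respect to the mean -/
noncomputable def Pb (M : Mn) (A : Om → Prop) : ℝ := M.E (fun w => if A w then (1 : ℝ) else 0)

/-- mean distance of `u` from the constant `a` -/
noncomputable def Ed (M : Mn) (u : Om → ℂ) (a : ℂ) : ℝ := M.E (fun w => ‖u w - a‖)

/-- multiplicative difference operator -/
noncomputable def Dv (v : ℤ) (u : Om → ℂ) (w : Om) : ℂ := u w * (starRingEnd ℂ) (u (tr v w))

/-- iterated difference operator; the last direction is applied first -/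
noncomputable def DD : (k : ℕ) → (Fin k → ℤ) → (Om → ℂ) → (Om → ℂ)
  | 0, _, u => u
  | k + 1, v, u => DD k (fun i => v i.castSucc) (Dv (v (Fin.last k)) u)

/-- unimodular function -/
def Un (u : Om → ℂ) : Prop := ∀ w, ‖u w‖ = 1

/-- `x` is the base point of a cube in `A` with sides `r` -/
def Cub (k : ℕ) (A : Finset ℤ) (r : Fin k → ℤ) (x : ℤ) : Prop :=
  ∀ ω : Finset (Fin k), x + ∑ i ∈ ω, r i ∈ A

open Classical in
/-- the base points of the cubes in `A` with sides `r` -/
noncomputable def cs (k : ℕ) (A : Finset ℤ) (r : Fin k → ℤ) : Finset ℤ := A.filter (fun x => Cub k A r x)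

/-- the box `[-X, X]^k` -/
noncomputable def Bx (k X : ℕ) : Finset (Fin k → ℤ) := Fintype.piFinset (fun _ => Icc (-(X : ℤ)) X)

/-- the primes in `(2^m, 2^(m+1)]` as integers -/
def PZ (m : ℕ) : Finset ℤ := (PP m).image (fun p : ℕ => (p : ℤ))

/-- number of cubes of dimension `k` in `A` with sides at most `X` in absolute value -/
noncomputable def SS (k X : ℕ) (A : Finset ℤ) : ℕ := ∑ r ∈ Bx k X, (cs k A r).card

/-- the box with lower corner `a` and sides `M` -/
noncomputable def bx (n : ℕ) (a : Fin n → ℤ) (M : ℕ) : Finset (Fin n → ℤ) := Fintype.piFinset (fun i => Ico (a i) (a i + M))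

open Classical in
/-- number of residue vectors mod `q` on which some form `y 0 + ∑_{i ∈ ω} y (i+1)` vanishes -/
noncomputable def Nq (k q : ℕ) : ℕ :=
  ((bx (k + 1) (fun _ => 0) q).filter (fun y => ∃ ω : Finset (Fin k), (q : ℤ) ∣ y 0 + ∑ i ∈ ω, y i.succ)).card

/-- condition (N) -/
def CN (g : ArithmeticFunction ℂ) : Prop :=
  ∀ (q : ℕ) (χ : DirichletCharacter ℂ q), 0 < q →
    ∀ M : ℝ, ∃ X₀ : ℝ, ∀ X : ℝ, X₀ ≤ X → ∀ t : ℝ, |t| ≤ X →
      M ≤ ∑ p ∈ Finset.filter Nat.Prime (Finset.Iic ⌊X⌋₊),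
        (1 - (g p * starRingEnd ℂ (χ (p : ZMod q) * (p : ℂ) ^ (Complex.I * (t : ℂ)))).re) / (p : ℝ)

/-- the functions on `Om` belonging to a sequence of tuples of arithmetic functions -/
noncomputable def fG {k : ℕ} (G : ℕ → Fin k → ArithmeticFunction ℂ) (l : Fin k) (w : Om) : ℂ := G w.1 l w.2.toNat

/-- a sequence of counterexamples with its mean -/
structure Sq (k : ℕ) (h : Fin (k + 1) → ℕ) (X : ℕ → ℕ) (G : ℕ → Fin (k + 1) → ArithmeticFunction ℂ)
    (U : Ultrafilter ℕ) (M : Mn) : Prop where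
  mul : ∀ i l, (G i l).IsMultiplicative
  bd : ∀ i l n, ‖G i l n‖ ≤ 1
  top : Tendsto X atTop atTop
  ule : (U : Filter ℕ) ≤ atTop
  lim : ∀ f : Om → ℝ, Bdd f →
    Tendsto (fun i => (1 / (X i : ℝ)) * ∑ n ∈ Icc 1 (X i), f (i, (n : ℤ))) U (𝓝 (M.E f))
  big : ∀ i : ℕ, 1 - 1 / ((i : ℝ) + 1) ≤ ‖corN (G i) h (X i)‖

end Pool.H19.NN
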