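import Pool.Agent.H19.NN.Defs

/-!
# [H19 NN DEN] Densities of the zeros of the forms modulo a prime

PROOF. Let `B = bx (k+1) 0 q` (`q^(k+1)` elements), `Z_ω = {y ∈ B : q ∣ y 0 + ∑_{i∈ω} y i.succ}`. `#Z_ω = q^k`: for arbitrary `y i.succ ∈ [0, q)` there is
exactly one `y 0 ∈ [0, q)`. There are `2^k` sets `ω`. UPPER BOUND: `Nq = #∪ Z_ω ≤ 2^k q^k`.
LOWER BOUND (Bonferroni): `#∪ Z_ω ≥ ∑ #Z_ω - ∑_{pairs ω ≠ ω'} #(Z_ω ∩ Z_ω')`; (proof: if `y` lies in `N ≥ 1` of the sets then `N - N(N-1)/2 ≤ 1`;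
or use ordered pairs, `N - N(N-1) ≤ 1`). For `ω ≠ ω'` let `i` be in exactly one of them: the difference of the two forms contains
`± y i.succ` and not `y 0`, so `y ∈ Z_ω ∩ Z_ω'` is determined by the `y j.succ`, `j ≠ i` (they determine `y i.succ` mod `q`, then `y 0`):
`#(Z_ω ∩ Z_ω') ≤ q^(k-1)` (`k ≥ 1` here). With at most `4^k` ordered pairs: `Nq ≥ 2^k q^k - 4^k q^(k-1)`. Divide by `q^(k+1)`. For `k = 0` there is
one form, `Nq = 1` and the bounds hold (`1/q - 1/q² ≤ 1/q`).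
-/

set_option autoImplicit false

open Finset Filter Topology Pool.Agent.H68.OF

namespace Pool.H19.NN

private theorem den_mem (n q : ℕ) (y : Fin n → ℤ) : y ∈ bx n (fun _ => 0) q ↔ ∀ i, 0 ≤ y i ∧ y i < q := by
  unfold bx
  rw [Fintype.mem_piFinset]
  simp only [mem_Ico, zero_add]

private theorem den_eq (q : ℕ) (a b : ℤ) (ha : 0 ≤ a) (ha' : a < q) (hb : 0 ≤ b) (hb' : b < q) (h : (q : ℤ) ∣ a - b) : a = b := by
  obtain ⟨c, hc⟩ := h
  have h1 : c = 0 := by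
    rcases lt_trichotomy c 0 with h2 | h2 | h2
    · nlinarith
    · exact h2
    · nlinarith
  rw [h1, mul_zero] at hc
  linarith

/-- the set of the zeros of one form -/
private theorem den_card (k q : ℕ) (hq : 0 < q) (ω : Finset (Fin k)) :
    ((bx (k + 1) (fun _ => 0) q).filter (fun y => (q : ℤ) ∣ y 0 + ∑ i ∈ ω, y i.succ)).card = q ^ k := by
  have hq' : (0 : ℤ) < q := by exact_mod_cast hq
  have h1 : (bx k (fun _ => 0) q).card = q ^ k := by
    unfold bx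
    rw [Fintype.card_piFinset]
    simp
  rw [← h1]
  refine card_nbij' (fun y => fun i => y i.succ)
    (fun t => (Fin.cons ((-(∑ i ∈ ω, t i)) % (q : ℤ)) t : Fin (k + 1) → ℤ)) ?_ ?_ ?_ ?_
  · intro y hy
    rw [mem_coe, mem_filter, den_mem] at hy
    rw [mem_coe, den_mem]
    exact fun i => hy.1 i.succ
  · intro t ht
    rw [mem_coe, den_mem] at ht
    rw [mem_coe, mem_filter, den_mem]
    constructor
    · intro i
      refine Fin.cases ?_ (fun i => ?_) i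
      · dsimp only
        rw [Fin.cons_zero]
        exact ⟨Int.emod_nonneg _ hq'.ne', Int.emod_lt_of_pos _ hq'⟩
      · dsimp only
        rw [Fin.cons_succ]
        exact ht i
    · dsimp only
      simp only [Fin.cons_zero, Fin.cons_succ]
      have h2 := Int.emod_add_mul_ediv (-(∑ i ∈ ω, t i)) (q : ℤ)
      refine ⟨-((-(∑ i ∈ ω, t i)) / (q : ℤ)), ?_⟩
      linarith
  · intro y hy
    rw [mem_coe, mem_filter, den_mem] at hy
    dsimp only
    funext i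
    refine Fin.cases ?_ (fun i => ?_) i
    · rw [Fin.cons_zero]
      apply den_eq q _ _ (Int.emod_nonneg _ hq'.ne') (Int.emod_lt_of_pos _ hq') (hy.1 0).1 (hy.1 0).2
      have h2 := Int.emod_add_mul_ediv (-(∑ i ∈ ω, y i.succ)) (q : ℤ)
      obtain ⟨c, hc⟩ := hy.2
      refine ⟨-((-(∑ i ∈ ω, y i.succ)) / (q : ℤ)) - c, ?_⟩
      rw [mul_sub, ← hc]
      linarith
    · rw [Fin.cons_succ]
  · intro t _
    dsimp only
    funext i
    rw [Fin.cons_succ]

private theorem den_pair (k q : ℕ) (ω ω' : Finset (Fin k)) (hne : ω ≠ ω') :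
    (((bx (k + 1) (fun _ => 0) q).filter (fun y => (q : ℤ) ∣ y 0 + ∑ i ∈ ω, y i.succ)) ∩
      ((bx (k + 1) (fun _ => 0) q).filter (fun y => (q : ℤ) ∣ y 0 + ∑ i ∈ ω', y i.succ))).card * q ≤ q ^ k := by
  classical
  obtain ⟨i, hi⟩ : ∃ i, ¬ (i ∈ ω ↔ i ∈ ω') := by
    by_contra hcon
    push Not at hcon
    exact hne (Finset.ext hcon)
  obtain ⟨l, rfl⟩ : ∃ l, k = l + 1 := ⟨k - 1, by have := i.isLt; omega⟩
  rw [pow_succ]
  apply Nat.mul_le_mul_right
  have h1 : (bx l (fun _ => 0) q).card = q ^ l := by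
    unfold bx
    rw [Fintype.card_piFinset]
    simp
  rw [← h1]
  apply card_le_card_of_injOn (fun y => fun j : Fin l => y (i.succAbove j).succ)
  · intro y hy
    rw [mem_coe, mem_inter, mem_filter, den_mem] at hy
    rw [mem_coe, den_mem]
    exact fun j => hy.1.1 _
  · intro y hy z hz hyz
    rw [mem_coe, mem_inter, mem_filter, mem_filter, den_mem] at hy hz
    have hyz' : ∀ j : Fin l, y (i.succAbove j).succ = z (i.succAbove j).succ := fun j => congrFun hyz j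
    have h2 : ∀ j : Fin (l + 1), y j.succ - z j.succ = if j = i then y i.succ - z i.succ else 0 := by
      intro j
      split_ifs with hj
      · rw [hj]
      · obtain ⟨j', rfl⟩ := Fin.exists_succAbove_eq hj
        rw [hyz', sub_self]
    have h3 : ∀ s : Finset (Fin (l + 1)), (q : ℤ) ∣ y 0 + ∑ j ∈ s, y j.succ → (q : ℤ) ∣ z 0 + ∑ j ∈ s, z j.succ →
        (q : ℤ) ∣ (y 0 - z 0) + if i ∈ s then y i.succ - z i.succ else 0 := by
      intro s hy1 hz1
      have h4 := dvd_sub hy1 hz1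
      have h5 : y 0 + ∑ j ∈ s, y j.succ - (z 0 + ∑ j ∈ s, z j.succ) = (y 0 - z 0) + ∑ j ∈ s, (y j.succ - z j.succ) := by
        rw [sum_sub_distrib]; ring
      rw [h5, sum_congr rfl (fun j _ => h2 j), sum_ite_eq'] at h4
      exact h4
    have h4 := h3 ω hy.1.2 hz.1.2
    have h5 := h3 ω' hy.2.2 hz.2.2
    have h6 : (q : ℤ) ∣ y 0 - z 0 ∧ (q : ℤ) ∣ y i.succ - z i.succ := by
      by_cases ha : i ∈ ω
      · have hb : i ∉ ω' := fun hb => hi ⟨fun _ => hb, fun _ => ha⟩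
        rw [if_pos ha] at h4
        rw [if_neg hb, add_zero] at h5
        exact ⟨h5, (dvd_add_right h5).1 h4⟩
      · have hb : i ∈ ω' := by
          by_contra hb
          exact hi ⟨fun h => absurd h ha, fun h => absurd h hb⟩
        rw [if_neg ha, add_zero] at h4
        rw [if_pos hb] at h5
        exact ⟨h4, (dvd_add_right h4).1 h5⟩
    funext j
    refine Fin.cases ?_ (fun j => ?_) j
    · exact den_eq q _ _ (hy.1.1 0).1 (hy.1.1 0).2 (hz.1.1 0).1 (hz.1.1 0).2 h6.1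
    · by_cases hj : j = i
      · rw [hj]
        exact den_eq q _ _ (hy.1.1 _).1 (hy.1.1 _).2 (hz.1.1 _).1 (hz.1.1 _).2 h6.2
      · obtain ⟨j', rfl⟩ := Fin.exists_succAbove_eq hj
        exact hyz' j'

/-- `Nq` as the number of elements of a union -/
private theorem den_union (k q : ℕ) : ∃ Z : Finset (Fin k) → Finset (Fin (k + 1) → ℤ),
    (∀ ω, Z ω = (bx (k + 1) (fun _ => 0) q).filter (fun y => (q : ℤ) ∣ y 0 + ∑ i ∈ ω, y i.succ)) ∧
    Nq k q = (univ.biUnion Z).card := by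
  classical
  refine ⟨fun ω => (bx (k + 1) (fun _ => 0) q).filter (fun y => (q : ℤ) ∣ y 0 + ∑ i ∈ ω, y i.succ), fun ω => rfl, ?_⟩
  unfold Nq
  congr 1
  ext y
  simp only [mem_filter, mem_biUnion, mem_univ, true_and]
  constructor
  · rintro ⟨h1, ω, h2⟩
    exact ⟨ω, h1, h2⟩
  · rintro ⟨ω, h1, h2⟩
    exact ⟨h1, ω, h2⟩

/-- Bonferroni -/
private theorem den_bonf {ι α : Type} [DecidableEq ι] [DecidableEq α] (s : Finset ι) (Z : ι → Finset α) :
    2 * ∑ i ∈ s, ((Z i).card : ℤ) - ∑ i ∈ s, ∑ j ∈ s, ((Z i ∩ Z j).card : ℤ) ≤ ((s.biUnion Z).card : ℤ) := by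
  have h1 : ∀ i ∈ s, ((Z i).card : ℤ) = ∑ y ∈ s.biUnion Z, if y ∈ Z i then (1 : ℤ) else 0 := by
    intro i hi
    rw [sum_boole]
    congr 2
    ext y
    rw [mem_filter, mem_biUnion]
    exact ⟨fun h => ⟨⟨i, hi, h⟩, h⟩, fun h => h.2⟩
  have h2 : ∀ i ∈ s, ∀ j ∈ s, ((Z i ∩ Z j).card : ℤ) =
      ∑ y ∈ s.biUnion Z, (if y ∈ Z i then (1 : ℤ) else 0) * (if y ∈ Z j then (1 : ℤ) else 0) := by
    intro i hi j hj
    have h3 : ∀ y, (if y ∈ Z i then (1 : ℤ) else 0) * (if y ∈ Z j then (1 : ℤ) else 0) =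
        if y ∈ Z i ∩ Z j then 1 else 0 := by
      intro y
      by_cases ha : y ∈ Z i
      · by_cases hb : y ∈ Z j
        · rw [if_pos ha, if_pos hb, if_pos (mem_inter.2 ⟨ha, hb⟩), one_mul]
        · rw [if_neg hb, mul_zero, if_neg (fun h => hb (mem_inter.1 h).2)]
      · rw [if_neg ha, zero_mul, if_neg (fun h => ha (mem_inter.1 h).1)]
    rw [sum_congr rfl (fun y _ => h3 y), sum_boole]
    congr 2
    ext y
    rw [mem_filter, mem_biUnion]
    exact ⟨fun h => ⟨⟨i, hi, (mem_inter.1 h).1⟩, h⟩, fun h => h.2⟩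
  have h3 : ∑ i ∈ s, ((Z i).card : ℤ) = ∑ y ∈ s.biUnion Z, ∑ i ∈ s, if y ∈ Z i then (1 : ℤ) else 0 := by
    rw [sum_congr rfl h1, sum_comm]
  have h4 : ∑ i ∈ s, ∑ j ∈ s, ((Z i ∩ Z j).card : ℤ) =
      ∑ y ∈ s.biUnion Z, (∑ i ∈ s, if y ∈ Z i then (1 : ℤ) else 0) * (∑ i ∈ s, if y ∈ Z i then (1 : ℤ) else 0) := by
    rw [sum_congr rfl (fun i hi => sum_congr rfl (h2 i hi))]
    rw [sum_congr rfl (fun i _ => sum_comm), sum_comm]
    apply sum_congr rfl
    intro y _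
    rw [sum_mul_sum]
  have h5 : ((s.biUnion Z).card : ℤ) = ∑ y ∈ s.biUnion Z, (1 : ℤ) := by simp
  rw [h3, h4, h5, mul_sum, ← sum_sub_distrib]
  apply sum_le_sum
  intro y _
  nlinarith [sq_nonneg ((∑ i ∈ s, if y ∈ Z i then (1 : ℤ) else 0) - 1)]

theorem den_le (k q : ℕ) (hq : q.Prime) : (Nq k q : ℝ) / (q : ℝ) ^ (k + 1) ≤ 2 ^ k / q := by
  classical
  obtain ⟨Z, hZ, hN⟩ := den_union k q
  have hq0 : (0 : ℝ) < q := by exact_mod_cast hq.pos
  have h1 : Nq k q ≤ 2 ^ k * q ^ k := by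
    rw [hN]
    refine card_biUnion_le.trans ?_
    have h2 : ∀ ω ∈ (univ : Finset (Finset (Fin k))), (Z ω).card = q ^ k := fun ω _ => by
      rw [hZ, den_card k q hq.pos]
    rw [sum_congr rfl h2, sum_const, smul_eq_mul, card_univ, Fintype.card_finset, Fintype.card_fin]
  have h2 : (Nq k q : ℝ) ≤ 2 ^ k * (q : ℝ) ^ k := by exact_mod_cast h1
  rw [div_le_div_iff₀ (by positivity) hq0, pow_succ]
  nlinarith

theorem den_ge (k q : ℕ) (hq : q.Prime) : (2 : ℝ) ^ k / q - 4 ^ k / (q : ℝ) ^ 2 ≤ (Nq k q : ℝ) / (q : ℝ) ^ (k + 1) := by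
  classical
  obtain ⟨Z, hZ, hN⟩ := den_union k q
  have hq0 : (0 : ℝ) < q := by exact_mod_cast hq.pos
  have h1 := den_bonf (univ : Finset (Finset (Fin k))) Z
  rw [← hN] at h1
  have h1R : 2 * ∑ ω ∈ (univ : Finset (Finset (Fin k))), ((Z ω).card : ℝ) -
      ∑ ω ∈ (univ : Finset (Finset (Fin k))), ∑ ω' ∈ (univ : Finset (Finset (Fin k))), ((Z ω ∩ Z ω').card : ℝ) ≤ (Nq k q : ℝ) := by
    exact_mod_cast h1
  have hcard : ((univ : Finset (Finset (Fin k))).card : ℝ) = 2 ^ k := by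
    rw [card_univ, Fintype.card_finset, Fintype.card_fin]
    push_cast
    rfl
  have h2 : ∑ ω ∈ (univ : Finset (Finset (Fin k))), ((Z ω).card : ℝ) = 2 ^ k * (q : ℝ) ^ k := by
    have h3 : ∀ ω ∈ (univ : Finset (Finset (Fin k))), ((Z ω).card : ℝ) = (q : ℝ) ^ k := fun ω _ => by
      rw [hZ, den_card k q hq.pos]
      push_cast
      rfl
    rw [sum_congr rfl h3, sum_const, nsmul_eq_mul, hcard]
  have h3 : ∀ ω ω' : Finset (Fin k), ((Z ω ∩ Z ω').card : ℝ) ≤ (if ω = ω' then (q : ℝ) ^ k else 0) + (q : ℝ) ^ k / q := by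
    intro ω ω'
    by_cases h : ω = ω'
    · rw [if_pos h, h, inter_self, hZ, den_card k q hq.pos]
      push_cast
      have : (0 : ℝ) ≤ (q : ℝ) ^ k / q := by positivity
      linarith
    · rw [if_neg h, zero_add, le_div_iff₀ hq0, hZ, hZ]
      exact_mod_cast den_pair k q ω ω' h
  have h4 : ∑ ω ∈ (univ : Finset (Finset (Fin k))), ∑ ω' ∈ (univ : Finset (Finset (Fin k))), ((Z ω ∩ Z ω').card : ℝ) ≤
      2 ^ k * (q : ℝ) ^ k + 4 ^ k * ((q : ℝ) ^ k / q) := by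
    refine (sum_le_sum fun ω _ => sum_le_sum fun ω' _ => h3 ω ω').trans ?_
    have h5 : ∀ ω ∈ (univ : Finset (Finset (Fin k))), ∑ ω' ∈ (univ : Finset (Finset (Fin k))),
        ((if ω = ω' then (q : ℝ) ^ k else 0) + (q : ℝ) ^ k / q) = (q : ℝ) ^ k + 2 ^ k * ((q : ℝ) ^ k / q) := by
      intro ω _
      rw [sum_add_distrib, sum_ite_eq, if_pos (mem_univ _), sum_const, nsmul_eq_mul, hcard]
    rw [sum_congr rfl h5, sum_const, nsmul_eq_mul, hcard]
    have h6 : (4 : ℝ) ^ k = 2 ^ k * 2 ^ k := by rw [← mul_pow]; norm_num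
    rw [h6]
    linarith
  rw [h2] at h1R
  have h5 : 2 ^ k * (q : ℝ) ^ k - 4 ^ k * ((q : ℝ) ^ k / q) ≤ Nq k q := by linarith
  rw [le_div_iff₀ (by positivity)]
  refine le_trans (le_of_eq ?_) h5
  rw [pow_succ]
  field_simp
  ring

end Pool.H19.NN
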