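import Pool.Agent.H19.NN.Defs
import Pool.Agent.H68.OF.Dil
import Pool.Agent.H68.OF.LogA
import Pool.Agent.H68.OF.PropA
import Pool.Agent.H95.FL.Cn

/-!
# [H19 NN DLT] The product on the multiples of a prime

PROOF. Fix the prime `p`. Let `δ i = 1/(i+1)`, `X = X i`, `G = G i`. (1) `gap` (OF/LogA) with `Z = X/p` (for `X ≥ p`, so `Z ≥ 1`, `X/Z ≤ 2p`):
`‖corN G h (X/p)‖ ≥ 1 - 2 p δ i`. (2) `‖G l p‖ → 1` along `U`: from `big`, as in `Nrm`: `∑_{n≤X} (1 - ‖G l (n + h l)‖) ≤ δ i X`. The numbers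
`n ≤ X` with `n + h l ≡ p mod p²` number at least `X/p² - 1 ≥ X/(2p²)` and satisfy `‖G l (n + h l)‖ ≤ ‖G l p‖`: `1 - ‖G l p‖ ≤ 2 p² δ i`. (3) `dil` (OF/Dil, with `k+1` functions):
`‖(1/X) ∑_{n≤X} dv p n ∏ G l (n + p h l) - (∏ G l p) corN G h (X/p)‖ ≤ 2(k+1)/p + (2(k+1)+1) p/X`. Hence
`‖(1/X) ∑ dv p n ∏ ..‖ ≥ 1 - (k+1) 2p² δ i - 2 p δ i - 2(k+1)/p - (2k+3) p/X`, whose limit is `1 - 2(k+1)/p`.
(4) `tra_tendsto` (OF/Tra) for `F w = dv p w.2 * ∏ fG G l (tr (p h l) w)`: the averages tend to `M.Ec F` along `U`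
(`fG G l (tr (p h l) (i, n)) = G i l (n + p h l)`); norms converge; `le_of_tendsto'`-type lemma.
-/

set_option autoImplicit false

open Finset Filter Topology Pool.Agent.H68.OF

namespace Pool.H19.NN

/-- the values at `p` have modulus close to one -/
theorem dlt_prime {k : ℕ} (h : Fin (k + 1) → ℕ) (G : Fin (k + 1) → ArithmeticFunction ℂ)
    (hm : ∀ l, (G l).IsMultiplicative) (hb : ∀ l n, ‖G l n‖ ≤ 1) (X : ℕ) (δ : ℝ)
    (hd : 1 - δ ≤ ‖corN G h X‖) (p : ℕ) (hp : p.Prime) (hX : 2 * p ^ 2 ≤ X) (l : Fin (k + 1)) :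
    1 - ‖G l p‖ ≤ 2 * (p : ℝ) ^ 2 * δ := by
  have hp0 : 0 < p := hp.pos
  have hpr : (0 : ℝ) < p := by exact_mod_cast hp0
  have hX0 : 0 < X := lt_of_lt_of_le (by positivity) hX
  have hXr : (0 : ℝ) < X := by exact_mod_cast hX0
  -- the mean of the modulus
  have h1 : ‖∑ n ∈ Icc 1 X, ∏ i, G i (n + h i)‖ ≤ ∑ n ∈ Icc 1 X, ‖G l (n + h l)‖ := by
    refine (norm_sum_le _ _).trans (Finset.sum_le_sum fun n _ => ?_)
    rw [norm_prod, ← Finset.mul_prod_erase _ _ (Finset.mem_univ l)]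
    refine mul_le_of_le_one_right (norm_nonneg _) ?_
    exact Finset.prod_le_one (fun _ _ => norm_nonneg _) (fun i _ => hb i _)
  have h2 : ∑ n ∈ Icc 1 X, (1 - ‖G l (n + h l)‖) ≤ δ * X := by
    unfold corN at hd
    rw [norm_mul, norm_div, norm_one, Complex.norm_natCast, one_div, inv_mul_eq_div,
      le_div_iff₀ hXr] at hd
    rw [Finset.sum_sub_distrib, Finset.sum_const, Nat.card_Icc, nsmul_eq_mul, mul_one]
    push_cast [Nat.add_sub_cancel]
    linarith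
  -- the numbers congruent to p mod p^2
  set c : ℕ := p + (p ^ 2 - 1) * h l with hc
  set T : Finset ℕ := (Ioc 0 X).filter (fun N => N % (p ^ 2) = c % (p ^ 2)) with hT
  have hcount := Pool.Agent.H95.FL.ud_Ioc 0 X (Nat.zero_le _) (p ^ 2) c (by positivity)
  rw [Finset.sum_const, nsmul_eq_mul, mul_one] at hcount
  have h3 : (X : ℝ) / (2 * (p : ℝ) ^ 2) ≤ T.card := by
    have h4 := (abs_le.1 hcount).1
    push_cast at h4
    have h5 : (2 : ℝ) * (p : ℝ) ^ 2 ≤ X := by exact_mod_cast hX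
    have h6 : (1 : ℝ) ≤ X / (2 * (p : ℝ) ^ 2) := by
      rw [le_div_iff₀ (by positivity)]
      linarith
    have h7 : (X : ℝ) / (p : ℝ) ^ 2 = X / (2 * (p : ℝ) ^ 2) + X / (2 * (p : ℝ) ^ 2) := by
      field_simp
      ring
    rw [sub_zero] at h4
    rw [hT]
    linarith
  have h4 : ∀ n ∈ T, ‖G l (n + h l)‖ ≤ ‖G l p‖ := by
    intro n hn
    rw [hT, Finset.mem_filter] at hn
    have h5 : (n + h l) % (p ^ 2) = p := by
      have h6 : (n + h l) ≡ (c + h l) [MOD p ^ 2] := Nat.ModEq.add_right _ hn.2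
      have h7 : c + h l = p + p ^ 2 * h l := by
        have : 1 ≤ p ^ 2 := Nat.one_le_pow _ _ hp0
        rw [hc, add_assoc, ← Nat.succ_mul, Nat.succ_eq_add_one, Nat.sub_add_cancel this]
      rw [h7] at h6
      have h8 : (n + h l) % (p ^ 2) = p % (p ^ 2) := by
        have h9 := h6
        unfold Nat.ModEq at h9
        rw [h9, Nat.add_mul_mod_self_left]
      rw [h8]
      apply Nat.mod_eq_of_lt
      have := hp.two_le
      nlinarith
    obtain ⟨t, ht⟩ : ∃ t, n + h l = p * (p * t + 1) := by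
      refine ⟨(n + h l) / p ^ 2, ?_⟩
      have h6 := Nat.div_add_mod (n + h l) (p ^ 2)
      rw [h5] at h6
      rw [← h6]
      have h7 : (p ^ 2 * ((n + h l) / p ^ 2) + p) / p ^ 2 = (n + h l) / p ^ 2 := by rw [h6]
      rw [h7]
      ring
    rw [ht]
    have hcop : Nat.Coprime p (p * t + 1) := by
      rw [Nat.coprime_mul_left_add_right]
      exact Nat.coprime_one_right p
    rw [(hm l).map_mul_of_coprime hcop, norm_mul]
    exact mul_le_of_le_one_right (norm_nonneg _) (hb l _)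
  have h5 : (T.card : ℝ) * (1 - ‖G l p‖) ≤ δ * X := by
    calc (T.card : ℝ) * (1 - ‖G l p‖) = ∑ n ∈ T, (1 - ‖G l p‖) := by
          rw [Finset.sum_const, nsmul_eq_mul]
      _ ≤ ∑ n ∈ T, (1 - ‖G l (n + h l)‖) := Finset.sum_le_sum fun n hn => by
          have := h4 n hn
          linarith
      _ ≤ ∑ n ∈ Icc 1 X, (1 - ‖G l (n + h l)‖) := by
          apply Finset.sum_le_sum_of_subset_of_nonneg
          · intro n hn
            rw [hT, Finset.mem_filter, Finset.mem_Ioc] at hn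
            rw [Finset.mem_Icc]
            exact ⟨hn.1.1, hn.1.2⟩
          · intro n _ _
            have := hb l (n + h l)
            linarith
      _ ≤ δ * X := h2
  have h6 : 0 ≤ 1 - ‖G l p‖ := by
    have := hb l p
    linarith
  have h7 : (X : ℝ) / (2 * (p : ℝ) ^ 2) * (1 - ‖G l p‖) ≤ δ * X :=
    (mul_le_mul_of_nonneg_right h3 h6).trans h5
  rw [div_mul_eq_mul_div, div_le_iff₀ (by positivity)] at h7
  have h8 : (X : ℝ) * (1 - ‖G l p‖) ≤ X * (2 * (p : ℝ) ^ 2 * δ) := by linarith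
  exact le_of_mul_le_mul_left h8 hXr

theorem dlt_corN_le {k : ℕ} (G : Fin k → ArithmeticFunction ℂ) (hG : ∀ i n, ‖G i n‖ ≤ 1)
    (h : Fin k → ℕ) (Z : ℕ) : ‖corN G h Z‖ ≤ 1 := by
  unfold corN
  exact logA_norm_avg _ (fun n => by
    rw [norm_prod]
    exact Finset.prod_le_one (fun _ _ => norm_nonneg _) (fun i _ => hG i _)) Z

/-- the estimate at one scale -/
theorem dlt_fin {k : ℕ} (h : Fin (k + 1) → ℕ) (G : Fin (k + 1) → ArithmeticFunction ℂ)
    (hm : ∀ l, (G l).IsMultiplicative) (hb : ∀ l n, ‖G l n‖ ≤ 1) (X : ℕ) (δ : ℝ) (hδ : 0 ≤ δ)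
    (hd : 1 - δ ≤ ‖corN G h X‖) (p : ℕ) (hp : p.Prime) (hX : 2 * p ^ 2 ≤ X) :
    1 - 2 * ((k : ℝ) + 1) / p - (2 * p + 2 * ((k : ℝ) + 1) * (p : ℝ) ^ 2) * δ -
      (2 * ((k : ℝ) + 1) + 1) * p / X ≤
      ‖(1 / (X : ℂ)) * ∑ n ∈ Icc 1 X, (dv p n : ℂ) * ∏ j, G j (n + p * h j)‖ := by
  have hp0 : 0 < p := hp.pos
  have hpr : (0 : ℝ) < p := by exact_mod_cast hp0
  have hX0 : 0 < X := lt_of_lt_of_le (by positivity) hX
  have hXr : (0 : ℝ) < X := by exact_mod_cast hX0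
  have hpX : p ≤ X := by
    have := hp.two_le
    nlinarith
  have h1 := dil G hm hb h p hp X hX0
  have hZ : 0 < X / p := Nat.div_pos hpX hp0
  have hZr : (0 : ℝ) < (X / p : ℕ) := by exact_mod_cast hZ
  have h2 := gap (fun n => ∏ i, G i (n + h i)) (fun n => by
    rw [norm_prod]
    exact Finset.prod_le_one (fun _ _ => norm_nonneg _) (fun i _ => hb i _)) X (X / p) hZ
    (Nat.div_le_self _ _) δ hd
  have h3 : 1 - 2 * p * δ ≤ ‖corN G h (X / p)‖ := by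
    refine le_trans ?_ h2
    have h4 : (X : ℝ) ≤ 2 * p * (X / p : ℕ) := by
      have h5 : X < p * (X / p + 1) := Nat.lt_mul_div_succ X hp0
      have h6 : X ≤ 2 * p * (X / p) := by nlinarith
      exact_mod_cast h6
    have h5 : δ * X / (X / p : ℕ) ≤ 2 * p * δ := by
      rw [div_le_iff₀ hZr]
      nlinarith
    linarith
  have h4 : 1 - 2 * ((k : ℝ) + 1) * (p : ℝ) ^ 2 * δ ≤ ‖∏ j, G j p‖ := by
    rw [norm_prod]
    have h5 := propA_one_sub_prod Finset.univ (fun j => ‖G j p‖) (fun j => norm_nonneg _)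
      (fun j => hb j p)
    have h6 : ∑ j : Fin (k + 1), (1 - ‖G j p‖) ≤ ∑ _j : Fin (k + 1), 2 * (p : ℝ) ^ 2 * δ :=
      Finset.sum_le_sum fun j _ => dlt_prime h G hm hb X δ hd p hp hX j
    rw [Finset.sum_const, Finset.card_univ, Fintype.card_fin, nsmul_eq_mul] at h6
    push_cast at h6
    linarith
  have h5 : ‖corN G h (X / p)‖ ≤ 1 := dlt_corN_le G hb h (X / p)
  have h6 : ‖∏ j, G j p‖ ≤ 1 := by
    rw [norm_prod]
    exact Finset.prod_le_one (fun _ _ => norm_nonneg _) (fun i _ => hb i _)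
  have h7 : 1 - (2 * p + 2 * ((k : ℝ) + 1) * (p : ℝ) ^ 2) * δ ≤ ‖(∏ j, G j p) * corN G h (X / p)‖ := by
    rw [norm_mul]
    nlinarith [norm_nonneg (∏ j, G j p), norm_nonneg (corN G h (X / p))]
  have h8 := norm_sub_norm_le ((∏ j, G j p) * corN G h (X / p))
    ((1 / (X : ℂ)) * ∑ n ∈ Icc 1 X, (dv p n : ℂ) * ∏ j, G j (n + p * h j))
  rw [norm_sub_rev] at h8
  push_cast at h1
  linarith

theorem dlt {k : ℕ} {h : Fin (k + 1) → ℕ} {X : ℕ → ℕ} {G : ℕ → Fin (k + 1) → ArithmeticFunction ℂ}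
    {U : Ultrafilter ℕ} {M : Mn} (hS : Sq k h X G U M) (p : ℕ) (hp : p.Prime) :
    1 - 2 * ((k : ℝ) + 1) / p ≤
      ‖M.Ec (fun w => (dv p w.2 : ℂ) * ∏ l, fG G l (tr ((p * h l : ℕ) : ℤ) w))‖ := by
  have hb : BddC (fun w : Om => (dv p w.2 : ℂ) * ∏ l, fG G l (tr ((p * h l : ℕ) : ℤ) w)) := by
    refine ⟨p * 1, fun w => ?_⟩
    rw [norm_mul]
    refine mul_le_mul (tra_dv_le p w.2) ?_ (norm_nonneg _) (Nat.cast_nonneg _)
    rw [norm_prod]
    exact Finset.prod_le_one (fun _ _ => norm_nonneg _) (fun i _ => hS.bd _ _ _)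
  have h1 := (tra_tendsto hS.lim _ hb).norm
  have h2 : Tendsto (fun i : ℕ => 1 - 2 * ((k : ℝ) + 1) / p -
      (2 * p + 2 * ((k : ℝ) + 1) * (p : ℝ) ^ 2) * (1 / ((i : ℝ) + 1)) -
      (2 * ((k : ℝ) + 1) + 1) * p / (X i : ℝ)) atTop (𝓝 (1 - 2 * ((k : ℝ) + 1) / p -
      (2 * p + 2 * ((k : ℝ) + 1) * (p : ℝ) ^ 2) * 0 - 0)) := by
    refine Tendsto.sub (Tendsto.sub tendsto_const_nhds ?_) ?_
    · exact (tendsto_one_div_add_atTop_nhds_zero_nat (𝕜 := ℝ)).const_mul _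
    · exact Tendsto.div_atTop tendsto_const_nhds (tendsto_natCast_atTop_atTop.comp hS.top)
  rw [mul_zero, sub_zero, sub_zero] at h2
  refine le_of_tendsto_of_tendsto (h2.mono_left hS.ule) h1 ?_
  have h3 : ∀ᶠ i in (U : Filter ℕ), 2 * p ^ 2 ≤ X i :=
    hS.ule (hS.top.eventually_ge_atTop (2 * p ^ 2))
  filter_upwards [h3] with i hi
  have h4 := dlt_fin h (G i) (hS.mul i) (hS.bd i) (X i) (1 / ((i : ℝ) + 1)) (by positivity)
    (hS.big i) p hp hi
  exact h4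

end Pool.H19.NN
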