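import Pool.Agent.H19.NN.Defs
import Pool.Agent.H75.AP.MertensB

/-!
# [H19 NN MER] The sieve product

PROOF. `1 - g q ≤ exp (-g q) ≤ exp (-2^k/q + 4^k/q²)`. So the product over the primes `w0 < q ≤ z = ⌊(2^m)^a⌋` is at most
`exp (-2^k ∑ 1/q + 4^k ∑ 1/q²)`; `∑ 1/q² ≤ 2` (all `q ≥ 1`: `∑_{q≤N} 1/q² ≤ 2`, e.g. `Pool.Agent.H5.W.sum_inv_sq_le` in H41/Sieve/SSUM, or
telescoping). `∑_{w0<q≤z} 1/q ≥ ∑_{q≤z} 1/q - w0` (each term `≤ 1`) and by `mertens_low` (H75/AP/MertensB) for `v = (2^m)^a ≥ 3`: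
`∑_{q ≤ v} 1/q ≥ log log v - C`, `log v = a m log 2`, `log log v = log m + log (a log 2)`. So the product is at most
`exp (2^k (w0 + C - log (a log 2)) + 2 * 4^k) * m^(-2^k)`. (`exp (-(2^k) log m) = 1 / m^(2^k)`.)
-/

set_option autoImplicit false

open Finset Filter Topology Pool.Agent.H68.OF

namespace Pool.H19.NN

theorem mer_sq (N : ℕ) : ∑ s ∈ Icc 1 N, 1 / (s : ℝ) ^ 2 ≤ 2 := by
  have key : ∀ N : ℕ, 1 ≤ N → ∑ s ∈ Icc 1 N, 1 / (s : ℝ) ^ 2 ≤ 2 - 1 / (N : ℝ) := by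
    intro N hN
    induction N, hN using Nat.le_induction with
    | base => norm_num
    | succ n hn ih =>
      rw [← Finset.insert_Icc_right_eq_Icc_add_one (by omega), Finset.sum_insert (by simp)]
      have hn0 : (0 : ℝ) < n := by exact_mod_cast hn
      have h1 : 1 / ((n + 1 : ℕ) : ℝ) ^ 2 ≤ 1 / (n : ℝ) - 1 / ((n + 1 : ℕ) : ℝ) := by
        push_cast
        rw [div_sub_div _ _ (by positivity) (by positivity), div_le_div_iff₀ (by positivity)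
          (by positivity)]
        nlinarith
      linarith
  rcases Nat.eq_zero_or_pos N with h | h
  · rw [h]
    simp
  · have h1 := key N h
    have h2 : (0 : ℝ) ≤ 1 / (N : ℝ) := by positivity
    linarith

theorem mer (k w0 : ℕ) (a : ℝ) (ha : 0 < a) : ∃ C : ℝ, 0 < C ∧ ∃ m₀ : ℕ, 1 ≤ m₀ ∧ ∀ m : ℕ, m₀ ≤ m →
    ∀ g : ℕ → ℝ, (∀ q : ℕ, q.Prime → w0 < q → (2 : ℝ) ^ k / q - 4 ^ k / (q : ℝ) ^ 2 ≤ g q ∧ g q ≤ 1) →
    ∏ q ∈ (Ioc w0 ⌊((2 : ℝ) ^ m) ^ a⌋₊).filter Nat.Prime, (1 - g q) ≤ C / (m : ℝ) ^ (2 ^ k) := by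
  obtain ⟨C0, hC0, hmert⟩ := Pool.Agent.H75.AP.mertens_low
  have hl2 : 0 < Real.log 2 := Real.log_pos (by norm_num)
  have hal : 0 < a * Real.log 2 := mul_pos ha hl2
  refine ⟨Real.exp (2 ^ k * (w0 + C0 - Real.log (a * Real.log 2)) + 2 * 4 ^ k), Real.exp_pos _,
    max 1 ⌈2 / (a * Real.log 2)⌉₊, le_max_left _ _, ?_⟩
  intro m hm g hg
  have hm1 : 1 ≤ m := le_trans (le_max_left _ _) hm
  have hm2 : ⌈2 / (a * Real.log 2)⌉₊ ≤ m := le_trans (le_max_right _ _) hm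
  have hm0 : (0 : ℝ) < m := by exact_mod_cast hm1
  obtain ⟨v, hv⟩ : ∃ v : ℝ, v = ((2 : ℝ) ^ m) ^ a := ⟨_, rfl⟩
  have hlv : Real.log v = (a * Real.log 2) * m := by
    rw [hv, Real.log_rpow (by positivity), Real.log_pow]
    ring
  have hv0 : 0 < v := by
    rw [hv]
    positivity
  have hv3 : 3 ≤ v := by
    have h1 : 2 ≤ (a * Real.log 2) * m := by
      have h2 := Nat.ceil_le.1 hm2
      rw [div_le_iff₀ hal] at h2
      linarith
    have h3 := Real.add_one_le_exp ((a * Real.log 2) * m)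
    rw [← hlv, Real.exp_log hv0] at h3
    rw [← hlv] at h1
    linarith
  have hll : Real.log (Real.log v) = Real.log m + Real.log (a * Real.log 2) := by
    rw [hlv, Real.log_mul hal.ne' hm0.ne']
    ring
  rw [← hv]
  obtain ⟨P, hP⟩ : ∃ P, P = (Ioc w0 ⌊v⌋₊).filter Nat.Prime := ⟨_, rfl⟩
  rw [← hP]
  have hPm : ∀ q ∈ P, q.Prime ∧ w0 < q ∧ q ≤ ⌊v⌋₊ := by
    intro q hq
    rw [hP, Finset.mem_filter, Finset.mem_Ioc] at hq
    exact ⟨hq.2, hq.1.1, hq.1.2⟩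
  have hs1 : Real.log (Real.log v) - C0 - w0 ≤ ∑ q ∈ P, 1 / (q : ℝ) := by
    have h1 := hmert v hv3
    have h2 : ∑ p ∈ Pool.Agent.H75.AP.PI 0 v, 1 / (p : ℝ) ≤
        ∑ q ∈ P ∪ Icc 1 w0, 1 / (q : ℝ) := by
      refine Finset.sum_le_sum_of_subset_of_nonneg ?_ (fun q _ _ => by positivity)
      intro p hp
      unfold Pool.Agent.H75.AP.PI at hp
      rw [Finset.mem_filter, Finset.mem_range] at hp
      rw [Finset.mem_union, hP, Finset.mem_filter, Finset.mem_Ioc, Finset.mem_Icc]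
      have h3 := hp.2.1.one_lt
      by_cases h4 : p ≤ w0
      · right
        omega
      · left
        exact ⟨by omega, hp.2.1⟩
    have h3 : ∑ q ∈ P ∪ Icc 1 w0, 1 / (q : ℝ) ≤ ∑ q ∈ P, 1 / (q : ℝ) + ∑ q ∈ Icc 1 w0, 1 / (q : ℝ) := by
      have h4 := Finset.sum_union_inter (s₁ := P) (s₂ := Icc 1 w0) (f := fun q : ℕ => 1 / (q : ℝ))
      have h5 : 0 ≤ ∑ q ∈ P ∩ Icc 1 w0, 1 / (q : ℝ) := Finset.sum_nonneg fun q _ => by positivity
      linarith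
    have h4 : ∑ q ∈ Icc 1 w0, 1 / (q : ℝ) ≤ w0 := by
      calc ∑ q ∈ Icc 1 w0, 1 / (q : ℝ) ≤ ∑ q ∈ Icc 1 w0, (1 : ℝ) := by
            refine Finset.sum_le_sum fun q hq => ?_
            rw [Finset.mem_Icc] at hq
            have h5 : (1 : ℝ) ≤ q := by exact_mod_cast hq.1
            rw [div_le_one (by linarith)]
            exact h5
        _ = w0 := by simp
    linarith
  have hs2 : ∑ q ∈ P, 1 / (q : ℝ) ^ 2 ≤ 2 := by
    refine le_trans ?_ (mer_sq ⌊v⌋₊)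
    refine Finset.sum_le_sum_of_subset_of_nonneg ?_ (fun q _ _ => by positivity)
    intro q hq
    obtain ⟨h1, h2, h3⟩ := hPm q hq
    rw [Finset.mem_Icc]
    exact ⟨h1.one_lt.le, h3⟩
  calc ∏ q ∈ P, (1 - g q)
      ≤ ∏ q ∈ P, Real.exp (-(2 ^ k * (1 / (q : ℝ))) + 4 ^ k * (1 / (q : ℝ) ^ 2)) := by
        refine Finset.prod_le_prod (fun q hq => ?_) fun q hq => ?_
        · obtain ⟨h1, h2, h3⟩ := hPm q hq
          have := (hg q h1 h2).2
          linarith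
        · obtain ⟨h1, h2, h3⟩ := hPm q hq
          have h4 := (hg q h1 h2).1
          have h5 := Real.add_one_le_exp (-(g q))
          have h6 : Real.exp (-(g q)) ≤
              Real.exp (-(2 ^ k * (1 / (q : ℝ))) + 4 ^ k * (1 / (q : ℝ) ^ 2)) := by
            rw [Real.exp_le_exp]
            have h7 : (2 : ℝ) ^ k / q = 2 ^ k * (1 / (q : ℝ)) := by ring
            have h8 : (4 : ℝ) ^ k / (q : ℝ) ^ 2 = 4 ^ k * (1 / (q : ℝ) ^ 2) := by ring
            rw [h7, h8] at h4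
            linarith
          linarith
    _ = Real.exp (-(2 ^ k * ∑ q ∈ P, 1 / (q : ℝ)) + 4 ^ k * ∑ q ∈ P, 1 / (q : ℝ) ^ 2) := by
        rw [← Real.exp_sum, Finset.sum_add_distrib, Finset.sum_neg_distrib, ← Finset.mul_sum,
          ← Finset.mul_sum]
    _ ≤ Real.exp ((2 ^ k * (w0 + C0 - Real.log (a * Real.log 2)) + 2 * 4 ^ k) -
          ((2 ^ k : ℕ) : ℝ) * Real.log m) := by
        rw [Real.exp_le_exp]
        rw [hll] at hs1
        have h1 := mul_le_mul_of_nonneg_left hs1 (show (0 : ℝ) ≤ 2 ^ k by positivity)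
        have h2 := mul_le_mul_of_nonneg_left hs2 (show (0 : ℝ) ≤ 4 ^ k by positivity)
        push_cast
        linarith
    _ = _ := by
        rw [Real.exp_sub, Real.exp_nat_mul, Real.exp_log hm0]

end Pool.H19.NN
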