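import Pool.Agent.H19.NN.Defs

/-!
# [H19 NN ROT] Cubes of primes give points of a box without small prime factors

PROOF. `SS k X (PZ m)` with `X = 2^m` is the number of pairs `(r, x)`, `r ∈ Bx k X`, `x ∈ PZ m`, `Cub k (PZ m) r x` (`Finset.card_sigma`). The map
`(r, x) ↦ Fin.cons x r` is injective; its values `y` lie in `bx (k+1) lo (2X+1)`, `lo = Fin.cons (X+1) (fun _ => -X)`, because
`X < x ≤ 2X` and `-X ≤ r i ≤ X`. All `L_ω(y) = x + ∑_{i∈ω} r i` are primes `> X ≥ z`, so not divisible by a prime `q ≤ z`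
(a prime divisible by the prime `q` is equal to `q`).
-/

set_option autoImplicit false

open Finset Filter Topology Pool.Agent.H68.OF

namespace Pool.H19.NN

/-- lower corner of the box -/
noncomputable def lo (k X : ℕ) : Fin (k + 1) → ℤ := Fin.cons ((X : ℤ) + 1) (fun _ => -(X : ℤ))

private theorem rot_PZ (m : ℕ) (x : ℤ) (hx : x ∈ PZ m) : ∃ p : ℕ, p.Prime ∧ 2 ^ m < p ∧ p ≤ 2 * 2 ^ m ∧ (p : ℤ) = x := by
  unfold PZ PP at hx
  obtain ⟨p, hp, rfl⟩ := mem_image.1 hx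
  rw [mem_filter, mem_Ioc, pow_succ] at hp
  exact ⟨p, hp.2, hp.1.1, by omega, rfl⟩

open Classical in
theorem roots_inj (k m z : ℕ) (hz : z ≤ 2 ^ m) (P : Finset ℕ) (hP : ∀ q ∈ P, q.Prime ∧ q ≤ z) :
    SS k (2 ^ m) (PZ m) ≤ ((bx (k + 1) (lo k (2 ^ m)) (2 * 2 ^ m + 1)).filter (fun y =>
      ∀ q ∈ P, ¬ ∃ ω : Finset (Fin k), (q : ℤ) ∣ y 0 + ∑ i ∈ ω, y i.succ)).card := by
  obtain ⟨X, hX⟩ : ∃ X, X = 2 ^ m := ⟨_, rfl⟩
  have h1 : SS k (2 ^ m) (PZ m) = ((Bx k (2 ^ m)).sigma (fun r => cs k (PZ m) r)).card := by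
    rw [card_sigma]; rfl
  rw [h1]
  apply card_le_card_of_injOn (fun a : (Σ _ : Fin k → ℤ, ℤ) => (Fin.cons a.2 a.1 : Fin (k + 1) → ℤ))
  · intro a ha
    have ha' := mem_sigma.1 (Finset.mem_coe.1 ha)
    obtain ⟨ha1, ha2⟩ := ha'
    unfold Bx at ha1
    rw [Fintype.mem_piFinset] at ha1
    unfold cs at ha2
    rw [mem_filter] at ha2
    obtain ⟨ha2, ha3⟩ := ha2
    rw [← hX] at ha1 ⊢
    rw [Finset.mem_coe, mem_filter]
    constructor
    · unfold bx lo
      rw [Fintype.mem_piFinset]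
      intro i
      refine Fin.cases ?_ (fun i => ?_) i
      · dsimp only
        rw [Fin.cons_zero, Fin.cons_zero, mem_Ico]
        obtain ⟨p, -, hp1, hp2, hp3⟩ := rot_PZ m _ ha2
        rw [← hX] at hp1 hp2
        push_cast
        omega
      · dsimp only
        rw [Fin.cons_succ, Fin.cons_succ, mem_Ico]
        have h2 := mem_Icc.1 (ha1 i)
        push_cast
        omega
    · intro q hq
      rintro ⟨ω, hω⟩
      have h3 := ha3 ω
      obtain ⟨p, hp, hp1, -, hp3⟩ := rot_PZ m _ h3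
      obtain ⟨hq1, hq2⟩ := hP q hq
      have h4 : (q : ℤ) ∣ (p : ℤ) := by
        rw [hp3]
        simpa [Fin.cons_zero, Fin.cons_succ] using hω
      have h5 : q ∣ p := Int.natCast_dvd_natCast.1 h4
      have h6 := (Nat.prime_dvd_prime_iff_eq hq1 hp).1 h5
      omega
  · intro a _ b _ hab
    have hab' : (Fin.cons a.2 a.1 : Fin (k + 1) → ℤ) = Fin.cons b.2 b.1 := hab
    obtain ⟨a1, a2⟩ := a
    obtain ⟨b1, b2⟩ := b
    have h2 : a2 = b2 := by
      have := congrFun hab' 0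
      simpa using this
    have h3 : a1 = b1 := by
      funext i
      have := congrFun hab' i.succ
      simpa using this
    rw [h2, h3]

end Pool.H19.NN
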