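import Pool.Agent.H19.NN.Cnt
import Pool.Agent.H19.NN.Crt
import Pool.Agent.H19.NN.Den
import Pool.Agent.H19.NN.Mer
import Pool.Agent.H19.NN.Rot
import Pool.Agent.H95.FL.Main

/-!
# [H19 NN SIV] Upper bound for the number of cubes of primes

PROOF. Let `K = 2^k`, `n = k + 1`, `X = 2^m`, `M = 2X + 1`. `FL K`: `w0`; take `B = 10 K`, `η = 1/2`, `a = 1 / (2 (6 B + 12))` (`≤ 1`), `x0`.
`m₀` such that `2^m ≥ x0` and `m ≥` the `m₀` of `mer`. Let `P` = primes `q` with `w0 < q ≤ ⌊X^a⌋` (real power), `phip` the function of `FL` for `x = X`.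
(1) `roots_inj` (`Rot`): `SS k X (PZ m) ≤ #{y ∈ bx n lo M : no prime q ∈ P divides any form L_ω(y) = y 0 + ∑_{i∈ω} y i.succ}`, `lo 0 = X + 1`, `lo i.succ = -X`.
(2) For `y` let `Dy = {q ∈ P : ∃ ω, q ∣ L_ω(y)}`. `1[Dy = ∅] ≤ ∑_{S ⊆ Dy} phip S`. So the number in (1) is at most
`∑_{S ⊆ P} phip S * N_S`, `N_S = #{y ∈ bx n lo M : S ⊆ Dy} = ∑_{y ∈ bx n lo M} ∏_{q∈S} F q y`, `F q y = 1` if some `L_ω(y)` is divisible by `q`, else `0`.
(3) Let `S` with `phip S ≠ 0`: `Q = ∏ S ≤ X^(1/2) ≤ M`. `cntn` (with `F = ∏_{q∈S} F q`, periodic mod `Q`) and `crtn`: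
`∑_{y ∈ bx n 0 Q} ∏ F q y = ∏_{q∈S} Nq k q =: G_S`, hence `|N_S - (M/Q)^n G_S| ≤ 2^n (M/Q)^(n-1) G_S`. With `g q = Nq k q / q^n`:
`(M/Q)^n G_S = M^n ∏ g q`, and `g q ≤ K / q` (`den_le`), so `G_S ≤ K^#S Q^(n-1)` and the error is `≤ 2^n M^(n-1) K^#S`.
(4) Sum: `≤ M^n ∑_S phip S ∏_{q∈S} g q + 2^n M^(n-1) ∑_S |phip S| K^#S ≤ M^n * 2 * ∏_{q∈P} (1 - g q) + 2^n M^(n-1) X^(1/2)`.
(5) `mer`: `∏_{q∈P} (1 - g q) ≤ C₁ / m^K` (`g q ≤ K/q ≤ 1` as `q > w0 ≥ 200 K`). `M ≤ 3X`, `X^(1/2) ≤ C₂ X / m^K`. Together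
`≤ C X^(k+1) / m^K`.
-/

set_option autoImplicit false

open Finset Filter Topology Pool.Agent.H68.OF

namespace Pool.H19.NN

open Classical in
/-- indicator that some form is divisible by `q` -/
noncomputable def Fq (k q : ℕ) (y : Fin (k + 1) → ℤ) : ℝ :=
  if ∃ ω : Finset (Fin k), (q : ℤ) ∣ y 0 + ∑ i ∈ ω, y i.succ then 1 else 0

theorem Fq_nonneg (k q : ℕ) (y : Fin (k + 1) → ℤ) : 0 ≤ Fq k q y := by
  unfold Fq
  split_ifs <;> norm_num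

theorem Fq_per (k q : ℕ) (y y' : Fin (k + 1) → ℤ) (h : ∀ i, (q : ℤ) ∣ y i - y' i) : Fq k q y = Fq k q y' := by
  have key : ∀ y y' : Fin (k + 1) → ℤ, (∀ i, (q : ℤ) ∣ y i - y' i) →
      (∃ ω : Finset (Fin k), (q : ℤ) ∣ y 0 + ∑ i ∈ ω, y i.succ) →
      (∃ ω : Finset (Fin k), (q : ℤ) ∣ y' 0 + ∑ i ∈ ω, y' i.succ) := by
    rintro y y' h ⟨ω, hω⟩
    refine ⟨ω, ?_⟩
    have h1 : (q : ℤ) ∣ (y 0 - y' 0) + ∑ i ∈ ω, (y i.succ - y' i.succ) :=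
      dvd_add (h 0) (Finset.dvd_sum fun i _ => h i.succ)
    have h2 : y' 0 + ∑ i ∈ ω, y' i.succ =
        (y 0 + ∑ i ∈ ω, y i.succ) - ((y 0 - y' 0) + ∑ i ∈ ω, (y i.succ - y' i.succ)) := by
      rw [Finset.sum_sub_distrib]
      ring
    rw [h2]
    exact dvd_sub hω h1
  have h' : ∀ i, (q : ℤ) ∣ y' i - y i := fun i => by
    rw [← neg_sub]
    exact (dvd_neg).2 (h i)
  unfold Fq
  by_cases h1 : ∃ ω : Finset (Fin k), (q : ℤ) ∣ y 0 + ∑ i ∈ ω, y i.succ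
  · rw [if_pos h1, if_pos (key y y' h h1)]
  · rw [if_neg h1, if_neg (fun h2 => h1 (key y' y h' h2))]

theorem Fq_sum (k q : ℕ) : ∑ y ∈ bx (k + 1) (fun _ => 0) q, Fq k q y = (Nq k q : ℝ) := by
  classical
  unfold Fq Nq
  rw [Finset.sum_ite, Finset.sum_const_zero, add_zero, Finset.sum_const, nsmul_eq_mul, mul_one]

/-- the number of points of the box with all primes of `S` dividing some form -/
theorem count_S (k M : ℕ) (lo : Fin (k + 1) → ℤ) (S : Finset ℕ) (hS : ∀ q ∈ S, q.Prime)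
    (hQ : ∏ q ∈ S, q ≤ M) :
    |∑ y ∈ bx (k + 1) lo M, ∏ q ∈ S, Fq k q y -
      (M : ℝ) ^ (k + 1) * ∏ q ∈ S, ((Nq k q : ℝ) / (q : ℝ) ^ (k + 1))| ≤
      2 ^ (k + 1) * (M : ℝ) ^ k * ((2 ^ k : ℕ) : ℝ) ^ S.card := by
  set Q : ℕ := ∏ q ∈ S, q with hQdef
  have hQ0 : 0 < Q := Finset.prod_pos fun q hq => (hS q hq).pos
  have hQr : (0 : ℝ) < Q := by exact_mod_cast hQ0
  have h1 := cntn (k + 1) lo M Q hQ0 hQ (fun y => ∏ q ∈ S, Fq k q y)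
    (fun y => Finset.prod_nonneg fun q _ => Fq_nonneg k q y)
    (fun y y' h => Finset.prod_congr rfl fun q hq => Fq_per k q y y' fun i =>
      (Int.natCast_dvd_natCast.2 (Finset.dvd_prod_of_mem (fun q => q) hq)).trans (h i))
  have h2 : ∑ y ∈ bx (k + 1) (fun _ => 0) Q, ∏ q ∈ S, Fq k q y = ∏ q ∈ S, (Nq k q : ℝ) := by
    rw [hQdef, crtn (k + 1) S hS (fun q y => Fq k q y) (fun q _ y y' h => Fq_per k q y y' h)]
    exact Finset.prod_congr rfl fun q _ => Fq_sum k q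
  rw [h2] at h1
  have hQprod : (Q : ℝ) = ∏ q ∈ S, (q : ℝ) := by
    rw [hQdef]
    push_cast
    rfl
  have h3 : ((M : ℝ) / Q) ^ (k + 1) * ∏ q ∈ S, (Nq k q : ℝ) =
      (M : ℝ) ^ (k + 1) * ∏ q ∈ S, ((Nq k q : ℝ) / (q : ℝ) ^ (k + 1)) := by
    rw [Finset.prod_div_distrib, div_pow, Finset.prod_pow, ← hQprod]
    ring
  have h4 : ∏ q ∈ S, (Nq k q : ℝ) ≤ ((2 ^ k : ℕ) : ℝ) ^ S.card * (Q : ℝ) ^ k := by
    have h5 : ∀ q ∈ S, (Nq k q : ℝ) ≤ ((2 ^ k : ℕ) : ℝ) * (q : ℝ) ^ k := by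
      intro q hq
      have hq0 : (0 : ℝ) < q := by exact_mod_cast (hS q hq).pos
      have h6 := den_le k q (hS q hq)
      rw [div_le_iff₀ (by positivity)] at h6
      refine h6.trans (le_of_eq ?_)
      push_cast
      field_simp
      ring
    calc ∏ q ∈ S, (Nq k q : ℝ) ≤ ∏ q ∈ S, (((2 ^ k : ℕ) : ℝ) * (q : ℝ) ^ k) :=
          Finset.prod_le_prod (fun q _ => Nat.cast_nonneg _) h5
      _ = _ := by rw [Finset.prod_mul_distrib, Finset.prod_const, Finset.prod_pow, ← hQprod]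
  rw [h3] at h1
  refine h1.trans ?_
  have h7 : k + 1 - 1 = k := rfl
  rw [h7]
  have h8 : (0 : ℝ) ≤ 2 ^ (k + 1) * ((M : ℝ) / Q) ^ k := by positivity
  refine (mul_le_mul_of_nonneg_left h4 h8).trans (le_of_eq ?_)
  rw [div_pow]
  field_simp

theorem cube_upper (k : ℕ) : ∃ C : ℝ, 0 < C ∧ ∃ m₀ : ℕ, ∀ m : ℕ, m₀ ≤ m →
    (SS k (2 ^ m) (PZ m) : ℝ) ≤ C * ((2 : ℝ) ^ m) ^ (k + 1) / (m : ℝ) ^ (2 ^ k) := by
  classical
  obtain ⟨w0, hw0, hFL⟩ := Pool.Agent.H95.FL.FL (2 ^ k) Nat.one_le_two_pow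
  set B : ℕ := 10 * 2 ^ k with hB
  have hBr : (0 : ℝ) ≤ (B : ℝ) := Nat.cast_nonneg _
  set a : ℝ := 1 / (2 * (6 * B + 12)) with ha
  have ha0 : 0 < a := by positivity
  have ha1 : a ≤ 1 := by
    rw [ha, div_le_one (by positivity)]
    linarith
  obtain ⟨x0, hx0, hFL2⟩ := hFL B (1 / 2) a le_rfl ha0 ha1 (by
    rw [ha]
    apply le_of_eq
    field_simp)
  obtain ⟨C₁, hC₁, m₁, hm₁, hmer⟩ := mer k w0 a ha0
  -- growth
  obtain ⟨m₂, hm₂⟩ : ∃ m₂ : ℕ, ∀ m : ℕ, m₂ ≤ m → (m : ℝ) ^ (2 ^ k) ≤ ((2 : ℝ) ^ m) ^ (1 / 2 : ℝ) := by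
    have h1 : (1 : ℝ) < Real.sqrt 2 := by
      rw [Real.lt_sqrt (by norm_num)]
      norm_num
    have h2 := tendsto_pow_const_div_const_pow_of_one_lt (2 ^ k) h1
    have h3 := h2.eventually (gt_mem_nhds (show (0 : ℝ) < 1 by norm_num))
    rw [eventually_atTop] at h3
    obtain ⟨m₂, hm₂⟩ := h3
    refine ⟨m₂, fun m hm => ?_⟩
    have h4 := (hm₂ m hm).le
    rw [div_le_one (by positivity)] at h4
    refine h4.trans (le_of_eq ?_)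
    rw [Real.sqrt_eq_rpow, ← Real.rpow_natCast (2 : ℝ) m, ← Real.rpow_natCast ((2 : ℝ) ^ (1 / 2 : ℝ)) m,
      ← Real.rpow_mul (by norm_num), ← Real.rpow_mul (by norm_num), mul_comm]
  obtain ⟨m₃, hm₃⟩ : ∃ m₃ : ℕ, ∀ m : ℕ, m₃ ≤ m → x0 ≤ (2 : ℝ) ^ m := by
    have h1 : Tendsto (fun m : ℕ => (2 : ℝ) ^ m) atTop atTop :=
      tendsto_pow_atTop_atTop_of_one_lt (by norm_num)
    have h2 := h1.eventually_ge_atTop x0
    rw [eventually_atTop] at h2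
    exact h2
  refine ⟨2 * 3 ^ (k + 1) * C₁ + 2 ^ (k + 1) * 3 ^ k, by positivity, max m₁ (max m₂ m₃), ?_⟩
  intro m hm
  have hm1 : m₁ ≤ m := le_trans (le_max_left _ _) hm
  have hm2 : m₂ ≤ m := le_trans (le_trans (le_max_left _ _) (le_max_right _ _)) hm
  have hm3 : m₃ ≤ m := le_trans (le_trans (le_max_right _ _) (le_max_right _ _)) hm
  have hmpos : (0 : ℝ) < m := by exact_mod_cast (lt_of_lt_of_le hm₁ hm1)
  set X : ℝ := (2 : ℝ) ^ m with hX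
  have hX1 : 1 ≤ X := one_le_pow₀ (by norm_num)
  have hX0 : 0 < X := by linarith
  set P : Finset ℕ := (Ioc w0 ⌊X ^ a⌋₊).filter Nat.Prime with hP
  have hPmem : ∀ p ∈ P, p.Prime ∧ w0 < p ∧ (p : ℝ) ≤ X ^ a := by
    intro p hp
    rw [hP, Finset.mem_filter, Finset.mem_Ioc] at hp
    exact ⟨hp.2, hp.1.1, (Nat.le_floor_iff (by positivity)).1 hp.1.2⟩
  obtain ⟨phim, phip, _, hsupp, _, _, _, hmass, hval, hmean⟩ := hFL2 X (hm₃ m hm3) P hPmem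
  set M : ℕ := 2 * 2 ^ m + 1 with hM
  have hMr : (M : ℝ) ≤ 3 * X := by
    rw [hM, hX]
    push_cast
    have : (1 : ℝ) ≤ 2 ^ m := one_le_pow₀ (by norm_num)
    linarith
  have hXM : X ≤ M := by
    rw [hM, hX]
    push_cast
    have : (0 : ℝ) ≤ 2 ^ m := by positivity
    linarith
  have hz : ⌊X ^ a⌋₊ ≤ 2 ^ m := by
    apply Nat.floor_le_of_le
    calc X ^ a ≤ X ^ (1 : ℝ) := Real.rpow_le_rpow_of_exponent_le hX1 ha1
      _ = X := Real.rpow_one X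
      _ = ((2 ^ m : ℕ) : ℝ) := by rw [hX]; push_cast; rfl
  -- the divisors
  set Dy : (Fin (k + 1) → ℤ) → Finset ℕ := fun y =>
    P.filter (fun q => ∃ ω : Finset (Fin k), (q : ℤ) ∣ y 0 + ∑ i ∈ ω, y i.succ) with hDy
  have hroots := roots_inj k m ⌊X ^ a⌋₊ hz P (fun q hq => by
    rw [hP, Finset.mem_filter, Finset.mem_Ioc] at hq
    exact ⟨hq.2, hq.1.2⟩)
  have h1 : (SS k (2 ^ m) (PZ m) : ℝ) ≤
      ∑ y ∈ bx (k + 1) (lo k (2 ^ m)) M, (if Dy y = ∅ then (1 : ℝ) else 0) := by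
    refine (Nat.cast_le.2 hroots).trans (le_of_eq ?_)
    rw [← Finset.sum_boole]
    refine Finset.sum_congr rfl fun y _ => ?_
    have h2 : (∀ q ∈ P, ¬ ∃ ω : Finset (Fin k), (q : ℤ) ∣ y 0 + ∑ i ∈ ω, y i.succ) ↔ Dy y = ∅ := by
      rw [hDy, Finset.filter_eq_empty_iff]
    by_cases h3 : Dy y = ∅
    · rw [if_pos (h2.2 h3), if_pos h3]
    · rw [if_neg (fun h4 => h3 (h2.1 h4)), if_neg h3]
  have h2 : ∀ y, (if Dy y = ∅ then (1 : ℝ) else 0) ≤ ∑ S ∈ P.powerset, phip S * ∏ q ∈ S, Fq k q y := by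
    intro y
    have hsub : Dy y ⊆ P := Finset.filter_subset _ _
    refine ((hval (Dy y) hsub).2.1).trans (le_of_eq ?_)
    have h3 : ∀ S ∈ P.powerset, phip S * ∏ q ∈ S, Fq k q y = if S ⊆ Dy y then phip S else 0 := by
      intro S hS
      rw [Finset.mem_powerset] at hS
      by_cases h4 : S ⊆ Dy y
      · rw [if_pos h4, Finset.prod_eq_one, mul_one]
        intro q hq
        have h5 := (Finset.mem_filter.1 (h4 hq)).2
        unfold Fq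
        rw [if_pos h5]
      · rw [if_neg h4]
        rw [Finset.not_subset] at h4
        obtain ⟨q, hq, hqn⟩ := h4
        rw [Finset.prod_eq_zero hq, mul_zero]
        unfold Fq
        rw [if_neg]
        intro h5
        exact hqn (Finset.mem_filter.2 ⟨hS hq, h5⟩)
    rw [Finset.sum_congr rfl h3, ← Finset.sum_filter]
    congr 1
    ext S
    rw [Finset.mem_filter, Finset.mem_powerset, Finset.mem_powerset]
    exact ⟨fun h => ⟨h.trans hsub, h⟩, fun h => h.2⟩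
  have h3 : (SS k (2 ^ m) (PZ m) : ℝ) ≤ ∑ S ∈ P.powerset, phip S *
      ∑ y ∈ bx (k + 1) (lo k (2 ^ m)) M, ∏ q ∈ S, Fq k q y := by
    refine h1.trans ((Finset.sum_le_sum fun y _ => h2 y).trans (le_of_eq ?_))
    rw [Finset.sum_comm]
    exact Finset.sum_congr rfl fun S _ => (Finset.mul_sum _ _ _).symm
  set g : ℕ → ℝ := fun q => (Nq k q : ℝ) / (q : ℝ) ^ (k + 1) with hg
  have h4 : ∀ S ∈ P.powerset, phip S * ∑ y ∈ bx (k + 1) (lo k (2 ^ m)) M, ∏ q ∈ S, Fq k q y ≤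
      (M : ℝ) ^ (k + 1) * (phip S * ∏ q ∈ S, g q) +
        2 ^ (k + 1) * (M : ℝ) ^ k * (|phip S| * ((2 ^ k : ℕ) : ℝ) ^ S.card) := by
    intro S hS
    rw [Finset.mem_powerset] at hS
    by_cases h5 : phip S = 0
    · rw [h5]
      simp
    have h6 : ∏ q ∈ S, q ≤ M := by
      have h7 := (hsupp S h5).2
      have h8 : X ^ (1 / 2 : ℝ) ≤ M := by
        calc X ^ (1 / 2 : ℝ) ≤ X ^ (1 : ℝ) := Real.rpow_le_rpow_of_exponent_le hX1 (by norm_num)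
          _ = X := Real.rpow_one X
          _ ≤ M := hXM
      exact_mod_cast h7.trans h8
    have h7 := count_S k M (lo k (2 ^ m)) S (fun q hq => (hPmem q (hS hq)).1) h6
    set N := ∑ y ∈ bx (k + 1) (lo k (2 ^ m)) M, ∏ q ∈ S, Fq k q y with hN
    have h8 : phip S * (N - (M : ℝ) ^ (k + 1) * ∏ q ∈ S, g q) ≤
        |phip S| * (2 ^ (k + 1) * (M : ℝ) ^ k * ((2 ^ k : ℕ) : ℝ) ^ S.card) := by
      refine (le_abs_self _).trans ?_
      rw [abs_mul]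
      exact mul_le_mul_of_nonneg_left h7 (abs_nonneg _)
    have h9 : phip S * N = (M : ℝ) ^ (k + 1) * (phip S * ∏ q ∈ S, g q) +
        phip S * (N - (M : ℝ) ^ (k + 1) * ∏ q ∈ S, g q) := by ring
    rw [h9]
    have h10 : |phip S| * (2 ^ (k + 1) * (M : ℝ) ^ k * ((2 ^ k : ℕ) : ℝ) ^ S.card) =
        2 ^ (k + 1) * (M : ℝ) ^ k * (|phip S| * ((2 ^ k : ℕ) : ℝ) ^ S.card) := by ring
    rw [← h10]
    linarith
  have hgle : ∀ q : ℕ, q.Prime → g q ≤ 2 ^ k / q := fun q hq => den_le k q hq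
  have hg0 : ∀ q : ℕ, 0 ≤ g q := fun q => by rw [hg]; positivity
  have hg1 : ∀ q : ℕ, q.Prime → w0 < q → g q ≤ 1 := by
    intro q hq hw
    refine (hgle q hq).trans ?_
    have hq0 : (0 : ℝ) < q := by exact_mod_cast hq.pos
    rw [div_le_one hq0]
    have h5 : 2 ^ k ≤ q := by
      have h6 : 1 ≤ 2 ^ k := Nat.one_le_two_pow
      omega
    exact_mod_cast h5
  have h5 := (hmean g (fun p hp => ⟨hg0 p, by
    refine (hgle p (hPmem p hp).1).trans ?_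
    have hp0 : (0 : ℝ) < p := by exact_mod_cast (hPmem p hp).1.pos
    push_cast
    apply div_le_div_of_nonneg_right _ hp0.le
    have : (0 : ℝ) ≤ 2 ^ k := by positivity
    linarith⟩)).2.2.2
  have h6 := hmer m hm1 g (fun q hq hw => ⟨den_ge k q hq, hg1 q hq hw⟩)
  have h7 : 0 ≤ ∏ q ∈ P, (1 - g q) := Finset.prod_nonneg fun q hq => by
    have := hg1 q (hPmem q hq).1 (hPmem q hq).2.1
    linarith
  have h8 : (1 + (1 / 2 : ℝ) ^ B) ≤ 2 := by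
    have : (1 / 2 : ℝ) ^ B ≤ 1 := pow_le_one₀ (by norm_num) (by norm_num)
    linarith
  have hmK : (0 : ℝ) < (m : ℝ) ^ (2 ^ k) := by positivity
  have h9 : ∑ S ∈ P.powerset, phip S * ∏ q ∈ S, g q ≤ 2 * (C₁ / (m : ℝ) ^ (2 ^ k)) := by
    refine h5.trans ?_
    calc (1 + (1 / 2 : ℝ) ^ B) * ∏ q ∈ P, (1 - g q) ≤ 2 * ∏ q ∈ P, (1 - g q) :=
          mul_le_mul_of_nonneg_right h8 h7
      _ ≤ 2 * (C₁ / (m : ℝ) ^ (2 ^ k)) := mul_le_mul_of_nonneg_left h6 (by norm_num)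
  have h10 : X ^ (1 / 2 : ℝ) ≤ X / (m : ℝ) ^ (2 ^ k) := by
    rw [le_div_iff₀ hmK]
    calc X ^ (1 / 2 : ℝ) * (m : ℝ) ^ (2 ^ k) ≤ X ^ (1 / 2 : ℝ) * X ^ (1 / 2 : ℝ) :=
          mul_le_mul_of_nonneg_left (hm₂ m hm2) (by positivity)
      _ = X := by
          rw [← Real.rpow_add hX0]
          norm_num
  have hMk : (M : ℝ) ^ k ≤ (3 * X) ^ k := pow_le_pow_left₀ (Nat.cast_nonneg _) hMr k
  have hMk1 : (M : ℝ) ^ (k + 1) ≤ (3 * X) ^ (k + 1) := pow_le_pow_left₀ (Nat.cast_nonneg _) hMr _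
  calc (SS k (2 ^ m) (PZ m) : ℝ)
      ≤ ∑ S ∈ P.powerset, ((M : ℝ) ^ (k + 1) * (phip S * ∏ q ∈ S, g q) +
        2 ^ (k + 1) * (M : ℝ) ^ k * (|phip S| * ((2 ^ k : ℕ) : ℝ) ^ S.card)) :=
        h3.trans (Finset.sum_le_sum h4)
    _ = (M : ℝ) ^ (k + 1) * ∑ S ∈ P.powerset, phip S * ∏ q ∈ S, g q +
        2 ^ (k + 1) * (M : ℝ) ^ k * ∑ S ∈ P.powerset, |phip S| * ((2 ^ k : ℕ) : ℝ) ^ S.card := by
        rw [Finset.sum_add_distrib, ← Finset.mul_sum, ← Finset.mul_sum]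
    _ ≤ (3 * X) ^ (k + 1) * (2 * (C₁ / (m : ℝ) ^ (2 ^ k))) +
        2 ^ (k + 1) * (3 * X) ^ k * (X / (m : ℝ) ^ (2 ^ k)) := by
        apply add_le_add
        · calc (M : ℝ) ^ (k + 1) * ∑ S ∈ P.powerset, phip S * ∏ q ∈ S, g q
              ≤ (M : ℝ) ^ (k + 1) * (2 * (C₁ / (m : ℝ) ^ (2 ^ k))) :=
                mul_le_mul_of_nonneg_left h9 (by positivity)
            _ ≤ _ := mul_le_mul_of_nonneg_right hMk1 (by positivity)
        · calc 2 ^ (k + 1) * (M : ℝ) ^ k * ∑ S ∈ P.powerset, |phip S| * ((2 ^ k : ℕ) : ℝ) ^ S.card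
              ≤ 2 ^ (k + 1) * (M : ℝ) ^ k * (X / (m : ℝ) ^ (2 ^ k)) :=
                mul_le_mul_of_nonneg_left (hmass.trans h10) (by positivity)
            _ ≤ _ := mul_le_mul_of_nonneg_right
                (mul_le_mul_of_nonneg_left hMk (by positivity)) (by positivity)
    _ = (2 * 3 ^ (k + 1) * C₁ + 2 ^ (k + 1) * 3 ^ k) * X ^ (k + 1) / (m : ℝ) ^ (2 ^ k) := by
        field_simp
        ring

end Pool.H19.NN
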