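import Pool.Agent.H19.NN.Cbs
import Pool.Agent.H19.NN.Siv

/-!
# [H19 NN DNS] The sides of the cubes of primes have positive density

PROOF. Let `X = 2^m`, `c₀` from `card_PP` (OF/Cheb): `c₀ X / m ≤ #PP m`. `A ⊆ PZ m ⊆ (X, 2X]`, so `|x - y| ≤ X` for `x, y ∈ A`, and
`#A ≥ c₀ X / (2m)`. By `SS_zero`, `SS_step` and induction on `j`: there is `c_j > 0` (depending only on `j`) with
`SS j X A ≥ c_j X^(j+1) / m^(2^j)` for all `m ≥ 1`: `c_0 = c₀/2`, and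
`SS (j+1) ≥ (SS j)^2 / (3X)^j ≥ (c_j^2 / 3^j) X^(2j+2-j) / m^(2^(j+1))`.
`SS_monoA`: `SS (k+1) X A ≤ SS (k+1) X (PZ m) ≤ C X^(k+2) / m^(2^(k+1))` for `m ≥ m₀` (`cube_upper (k+1)`).
`SS_cauchy`: `(SS k X A)^2 ≤ #R * SS (k+1) X A`, `R = (Bx k X).filter (∃ x, Cub k A r x)`. So
`#R ≥ c_k^2 X^(2k+2) m^(-2^(k+1)) / (C X^(k+2) m^(-2^(k+1))) = (c_k^2 / C) X^k` (`SS (k+1) X A > 0`: otherwise `SS k X A = 0`, impossible).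
-/

set_option autoImplicit false

open Finset Filter Topology Pool.Agent.H68.OF

namespace Pool.H19.NN

theorem dns_dist {m : ℕ} {A : Finset ℤ} (hA : A ⊆ PZ m) :
    ∀ x ∈ A, ∀ y ∈ A, |x - y| ≤ ((2 ^ m : ℕ) : ℤ) := by
  have h : ∀ x ∈ A, ((2 ^ m : ℕ) : ℤ) < x ∧ x ≤ 2 * ((2 ^ m : ℕ) : ℤ) := by
    intro x hx
    have h1 := hA hx
    unfold PZ at h1
    rw [Finset.mem_image] at h1
    obtain ⟨p, hp, rfl⟩ := h1
    unfold PP at hp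
    rw [Finset.mem_filter, Finset.mem_Ioc] at hp
    refine ⟨by exact_mod_cast hp.1.1, ?_⟩
    have h2 := hp.1.2
    rw [pow_succ, mul_comm] at h2
    exact_mod_cast h2
  intro x hx y hy
  have h1 := h x hx
  have h2 := h y hy
  rw [abs_le]
  constructor <;> linarith [h1.1, h1.2, h2.1, h2.2]

theorem dns_low (j : ℕ) : ∃ c : ℝ, 0 < c ∧ ∀ m : ℕ, 1 ≤ m → ∀ A : Finset ℤ, A ⊆ PZ m →
    (PP m).card ≤ 2 * A.card →
    c * ((2 : ℝ) ^ m) ^ (j + 1) / (m : ℝ) ^ (2 ^ j) ≤ (SS j (2 ^ m) A : ℝ) := by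
  induction j with
  | zero =>
    obtain ⟨c, hc, h⟩ := card_PP
    refine ⟨c / 2, by positivity, fun m hm A _ hcard => ?_⟩
    have h1 := h m hm
    have h2 : ((PP m).card : ℝ) ≤ 2 * (A.card : ℝ) := by exact_mod_cast hcard
    rw [SS_zero, zero_add, pow_one, pow_zero, pow_one]
    have h3 : c / 2 * 2 ^ m / (m : ℝ) = (c * 2 ^ m / m) / 2 := by ring
    rw [h3]
    linarith
  | succ j ih =>
    obtain ⟨c, hc, h⟩ := ih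
    refine ⟨c ^ 2 / 3 ^ j, by positivity, fun m hm A hA hcard => ?_⟩
    have h1 := h m hm A hA hcard
    have h2 := SS_step j (2 ^ m) Nat.one_le_two_pow A (dns_dist hA)
    have h3 : ((SS j (2 ^ m) A : ℕ) : ℝ) ^ 2 ≤
        (3 * (2 : ℝ) ^ m) ^ j * ((SS (j + 1) (2 ^ m) A : ℕ) : ℝ) := by
      exact_mod_cast h2
    have hm0 : (0 : ℝ) < m := by exact_mod_cast hm
    have hX : (0 : ℝ) < (2 : ℝ) ^ m := by positivity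
    have h4 : (c * ((2 : ℝ) ^ m) ^ (j + 1) / (m : ℝ) ^ (2 ^ j)) ^ 2 ≤
        ((SS j (2 ^ m) A : ℕ) : ℝ) ^ 2 := pow_le_pow_left₀ (by positivity) h1 2
    have h5 : c ^ 2 / 3 ^ j * ((2 : ℝ) ^ m) ^ (j + 1 + 1) / (m : ℝ) ^ (2 ^ (j + 1)) *
        (3 * (2 : ℝ) ^ m) ^ j = (c * ((2 : ℝ) ^ m) ^ (j + 1) / (m : ℝ) ^ (2 ^ j)) ^ 2 := by
      rw [mul_pow, div_pow, mul_pow]
      have e1 : ((m : ℝ) ^ (2 ^ j)) ^ 2 = (m : ℝ) ^ (2 ^ (j + 1)) := by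
        rw [← pow_mul, pow_succ]
      have e2 : (((2 : ℝ) ^ m) ^ (j + 1)) ^ 2 = ((2 : ℝ) ^ m) ^ (j + 1 + 1) * ((2 : ℝ) ^ m) ^ j := by
        rw [← pow_mul, ← pow_add]
        congr 1
        ring
      rw [e1, e2]
      have e3 : (3 : ℝ) ^ j ≠ 0 := by positivity
      have e4 : (m : ℝ) ^ (2 ^ (j + 1)) ≠ 0 := by positivity
      generalize (m : ℝ) ^ (2 ^ (j + 1)) = M at *
      generalize ((2 : ℝ) ^ m) ^ (j + 1 + 1) = Y at *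
      generalize ((2 : ℝ) ^ m) ^ j = Z at *
      field_simp
    have h6 : c ^ 2 / 3 ^ j * ((2 : ℝ) ^ m) ^ (j + 1 + 1) / (m : ℝ) ^ (2 ^ (j + 1)) *
        (3 * (2 : ℝ) ^ m) ^ j ≤ ((SS (j + 1) (2 ^ m) A : ℕ) : ℝ) * (3 * (2 : ℝ) ^ m) ^ j := by
      rw [h5]
      linarith
    exact le_of_mul_le_mul_right h6 (by positivity)

open Classical in
theorem cube_dense (k : ℕ) : ∃ c : ℝ, 0 < c ∧ ∃ m₀ : ℕ, ∀ m : ℕ, m₀ ≤ m → ∀ A : Finset ℤ, A ⊆ PZ m →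
    (PP m).card ≤ 2 * A.card →
    c * ((2 : ℝ) ^ m) ^ k ≤ (((Bx k (2 ^ m)).filter (fun r => ∃ x, Cub k A r x)).card : ℝ) := by
  obtain ⟨c, hc, hlow⟩ := dns_low k
  obtain ⟨C, hC, m₀, hup⟩ := cube_upper (k + 1)
  refine ⟨c ^ 2 / C, by positivity, max m₀ 1, fun m hm A hA hcard => ?_⟩
  have hm0 : m₀ ≤ m := (le_max_left _ _).trans hm
  have hm1 : 1 ≤ m := (le_max_right _ _).trans hm
  have h1 := hlow m hm1 A hA hcard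
  have h2 := SS_cauchy k (2 ^ m) A (dns_dist hA)
  have h3 : ((SS k (2 ^ m) A : ℕ) : ℝ) ^ 2 ≤
      (((Bx k (2 ^ m)).filter (fun r => ∃ x, Cub k A r x)).card : ℝ) *
        ((SS (k + 1) (2 ^ m) A : ℕ) : ℝ) := by
    exact_mod_cast h2
  have h4 : ((SS (k + 1) (2 ^ m) A : ℕ) : ℝ) ≤
      C * ((2 : ℝ) ^ m) ^ (k + 1 + 1) / (m : ℝ) ^ (2 ^ (k + 1)) :=
    (Nat.cast_le.2 (SS_monoA (k + 1) (2 ^ m) hA)).trans (hup m hm0)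
  generalize (((Bx k (2 ^ m)).filter (fun r => ∃ x, Cub k A r x)).card) = R at *
  have hmp : (0 : ℝ) < m := by exact_mod_cast hm1
  have hX : (0 : ℝ) < (2 : ℝ) ^ m := by positivity
  have h5 : (c * ((2 : ℝ) ^ m) ^ (k + 1) / (m : ℝ) ^ (2 ^ k)) ^ 2 ≤
      ((SS k (2 ^ m) A : ℕ) : ℝ) ^ 2 := pow_le_pow_left₀ (by positivity) h1 2
  have h6 : (c * ((2 : ℝ) ^ m) ^ (k + 1) / (m : ℝ) ^ (2 ^ k)) ^ 2 =
      c ^ 2 / C * ((2 : ℝ) ^ m) ^ k *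
        (C * ((2 : ℝ) ^ m) ^ (k + 1 + 1) / (m : ℝ) ^ (2 ^ (k + 1))) := by
    rw [div_pow, mul_pow]
    have e1 : ((m : ℝ) ^ (2 ^ k)) ^ 2 = (m : ℝ) ^ (2 ^ (k + 1)) := by
      rw [← pow_mul, pow_succ]
    have e2 : (((2 : ℝ) ^ m) ^ (k + 1)) ^ 2 = ((2 : ℝ) ^ m) ^ (k + 1 + 1) * ((2 : ℝ) ^ m) ^ k := by
      rw [← pow_mul, ← pow_add]
      congr 1
      ring
    rw [e1, e2]
    have e4 : (m : ℝ) ^ (2 ^ (k + 1)) ≠ 0 := by positivity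
    generalize (m : ℝ) ^ (2 ^ (k + 1)) = M at *
    generalize ((2 : ℝ) ^ m) ^ (k + 1 + 1) = Y at *
    generalize ((2 : ℝ) ^ m) ^ k = Z at *
    field_simp
  have h7 : c ^ 2 / C * ((2 : ℝ) ^ m) ^ k *
        (C * ((2 : ℝ) ^ m) ^ (k + 1 + 1) / (m : ℝ) ^ (2 ^ (k + 1))) ≤
      (R : ℝ) * (C * ((2 : ℝ) ^ m) ^ (k + 1 + 1) / (m : ℝ) ^ (2 ^ (k + 1))) := by
    rw [← h6]
    exact h5.trans (h3.trans (mul_le_mul_of_nonneg_left h4 (Nat.cast_nonneg _)))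
  exact le_of_mul_le_mul_right h7 (by positivity)

end Pool.H19.NN
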