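import Pool.Agent.H19.NN.Cal
import Pool.Agent.H19.NN.Ddl

/-!
# [H19 NN DSC] Functions of finite order close to a constant are equal to a root of unity

PROOF. The set `R` of the complex `q`-th roots of unity (`Polynomial.nthRootsFinset` or `nthRoots q 1 |>.toFinset`) is finite and
contains `1`. Let `s > 0` be a lower bound of `‖x - y‖ / 2` for `x ≠ y ∈ R` (finite minimum; any positive number if there is no such pair).
Given `V`, `a` let `a' ∈ R` be a point with `‖a' - a‖` minimal (`Finset.exists_min_image`). If `V w ≠ a'` then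
`2 s ≤ ‖V w - a'‖ ≤ ‖V w - a‖ + ‖a - a'‖ ≤ 2 ‖V w - a‖`, so `s ≤ ‖V w - a‖`. `Pb_mono` and `Pb_markov` with `C = 1 / s`
(`V` is bounded by `un_of_pow`).
-/

set_option autoImplicit false

open Finset Filter Topology Pool.Agent.H68.OF

namespace Pool.H19.NN

private theorem dsc_min {α : Type} (P : Finset α) (f : α → ℝ) (h : ∀ p ∈ P, 0 < f p) : ∃ s : ℝ, 0 < s ∧ ∀ p ∈ P, s ≤ f p := by
  rcases P.eq_empty_or_nonempty with h0 | h0
  · refine ⟨1, one_pos, fun p hp => ?_⟩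
    rw [h0] at hp
    exact absurd hp (Finset.notMem_empty p)
  · obtain ⟨p0, hp0, hmin⟩ := P.exists_min_image f h0
    exact ⟨f p0, h p0 hp0, hmin⟩

theorem disc (q : ℕ) (hq : 0 < q) : ∃ C : ℝ, 0 < C ∧ ∀ (M : Mn) (V : Om → ℂ) (a : ℂ) (ε : ℝ), (∀ w, V w ^ q = 1) →
    Ed M V a ≤ ε → ∃ a' : ℂ, a' ^ q = 1 ∧ Pb M (fun w => V w ≠ a') ≤ C * ε := by
  classical
  obtain ⟨R, hR⟩ : ∃ R, R = Polynomial.nthRootsFinset q (1 : ℂ) := ⟨_, rfl⟩
  have hmem : ∀ x, x ∈ R ↔ x ^ q = 1 := by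
    intro x
    rw [hR]
    exact Polynomial.mem_nthRootsFinset hq 1
  obtain ⟨s, hs, hmin⟩ := dsc_min ((R ×ˢ R).filter (fun p => p.1 ≠ p.2)) (fun p => ‖p.1 - p.2‖) (by
    intro p hp
    exact norm_pos_iff.2 (sub_ne_zero.2 (mem_filter.1 hp).2))
  refine ⟨2 / s, by positivity, ?_⟩
  intro M V a ε hV hE
  have hRn : R.Nonempty := ⟨1, (hmem 1).2 (one_pow q)⟩
  obtain ⟨a', ha', hmina⟩ := R.exists_min_image (fun x => ‖x - a‖) hRn
  refine ⟨a', (hmem a').1 ha', ?_⟩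
  have h1 : ∀ w, V w ≠ a' → s / 2 ≤ ‖V w - a‖ := by
    intro w hw
    have h2 := hmin (V w, a') (mem_filter.2 ⟨mem_product.2 ⟨(hmem _).2 (hV w), ha'⟩, hw⟩)
    have h3 := hmina (V w) ((hmem _).2 (hV w))
    simp only at h2 h3
    have h4 : ‖V w - a'‖ ≤ ‖V w - a‖ + ‖a' - a‖ := by
      have h5 : V w - a' = (V w - a) - (a' - a) := by ring
      rw [h5]
      exact norm_sub_le _ _
    linarith
  have hb : Bdd (fun w => ‖V w - a‖) := by
    refine ⟨1 + ‖a‖, fun w => ?_⟩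
    rw [abs_norm]
    have h2 : ‖V w‖ = 1 := un_of_pow hq hV w
    calc ‖V w - a‖ ≤ ‖V w‖ + ‖a‖ := norm_sub_le _ _
      _ = 1 + ‖a‖ := by rw [h2]
  have h2 := Pb_markov M hb (fun w => norm_nonneg _) (show 0 < s / 2 by positivity)
  have h3 := Pb_mono M (A := fun w => V w ≠ a') (B := fun w => s / 2 ≤ ‖V w - a‖) h1
  have h4 : M.E (fun w => ‖V w - a‖) / (s / 2) ≤ 2 / s * ε := by
    have h5 : M.E (fun w => ‖V w - a‖) ≤ ε := hE
    rw [div_le_iff₀ (by positivity)]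
    have h6 : 2 / s * ε * (s / 2) = ε := by field_simp
    rw [h6]
    exact h5
  linarith

end Pool.H19.NN
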