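import Pool.Agent.H19.NN.Cal
import Pool.Agent.H19.NN.Ddl

/-!
# [H19 NN ELM] Elimination of all functions but one along a cube

PROOF. Induction on `k`, generalizing `c`, `u`, `A`, `ε`, `r`.
`k = 0`: `DD 0 _ (u 0) = u 0`, the product over `Fin 1` is `u 0 (tr (p c 0) w)`; take `p = x ∈ A` (`Cub` with `ω = ∅`) and `Ed_tr`.
`k + 1`: let `s = Fin.last (k+1)`, `ρ = r (Fin.last k)`. New functions `u' l = Dv (ρ (c l.castSucc - c s)) (u l.castSucc)`, `l : Fin (k+1)`,
unimodular by `Dv_un`; new shifts `c' l = c l.castSucc`; new set `A' = A.filter (· + ρ ∈ A)`. RELATION for `p ∈ A'`: let `a`, `b` belong to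
`p` and `p + ρ`. The relation at `p + ρ` translated by `-ρ c s` (`Ed_tr`) is `∏ l, u l (tr (p c l + ρ (c l - c s)) w)`; `Ed_div`:
the product of the first with the conjugate of the second is `∏ l : Fin (k+2), (Dv (ρ (c l - c s)) (u l)) (tr (p c l) w)`; by
`Fin.prod_univ_castSucc` the factor `l = s` is `Dv 0 (u s) = |u s|^2 = 1`. So `Ed ≤ 2 ε` with constant `a * conj b`, of norm `≤ 1`.
CUBE: `Cub (k+1) A r x` gives `Cub k A' (fun i => r i.castSucc) x`: for `ω ⊆ Fin k` use `ω.map castSucc` and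
`insert (Fin.last k) (ω.map castSucc)`. The induction hypothesis with `2 ε` gives the claim, since
`DD (k+1) v (u 0) = DD k (v ∘ castSucc) (Dv (v (last k)) (u 0))` and `(i.castSucc).succ = (i.succ).castSucc`, `(Fin.last k).succ = Fin.last (k+1)`,
`(0 : Fin (k+1)).castSucc = 0`.
-/

set_option autoImplicit false

open Finset Filter Topology Pool.Agent.H68.OF

namespace Pool.H19.NN

private theorem elim_tr0 (w : Om) : tr 0 w = w := by
  unfold tr
  simp

theorem elim (M : Mn) : ∀ (k : ℕ) (c : Fin (k + 1) → ℤ) (u : Fin (k + 1) → Om → ℂ), (∀ l, Un (u l)) →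
    ∀ (A : Finset ℤ) (ε : ℝ),
    (∀ p ∈ A, ∃ a : ℂ, ‖a‖ ≤ 1 ∧ Ed M (fun w => ∏ l, u l (tr (p * c l) w)) a ≤ ε) →
    ∀ r : Fin k → ℤ, (∃ x, Cub k A r x) →
    ∃ a : ℂ, ‖a‖ ≤ 1 ∧ Ed M (DD k (fun i => r i * (c 0 - c i.succ)) (u 0)) a ≤ 2 ^ k * ε := by
  intro k
  induction k with
  | zero =>
    intro c u hu A ε hA r hx
    obtain ⟨x, hx⟩ := hx
    have hxA : x ∈ A := by
      have := hx ∅
      simpa using this
    obtain ⟨a, ha, hE⟩ := hA x hxA
    refine ⟨a, ha, ?_⟩
    have h1 : (fun w => ∏ l : Fin (0 + 1), u l (tr (x * c l) w)) = fun w => u 0 (tr (x * c 0) w) := by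
      funext w
      simp
    rw [h1, Ed_tr M (fun w => (hu 0 w).le) a (x * c 0)] at hE
    simpa [DD] using hE
  | succ k ih =>
    intro c u hu A ε hA r hx
    obtain ⟨x, hx⟩ := hx
    set s : Fin (k + 2) := Fin.last (k + 1) with hs
    set ρ : ℤ := r (Fin.last k) with hρ
    set u' : Fin (k + 1) → Om → ℂ := fun l => Dv (ρ * (c l.castSucc - c s)) (u l.castSucc) with hu'
    set c' : Fin (k + 1) → ℤ := fun l => c l.castSucc with hc'
    set A' : Finset ℤ := A.filter (fun p => p + ρ ∈ A) with hA'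
    have hU' : ∀ l, Un (u' l) := fun l => Dv_un (hu _) _
    have hF1 : ∀ (p : ℤ) (w : Om), ‖∏ l, u l (tr (p * c l) w)‖ ≤ 1 := by
      intro p w
      rw [norm_prod]
      exact prod_le_one (fun _ _ => norm_nonneg _) fun l _ => (hu l _).le
    have hrel : ∀ p ∈ A', ∃ a : ℂ, ‖a‖ ≤ 1 ∧
        Ed M (fun w => ∏ l, u' l (tr (p * c' l) w)) a ≤ 2 * ε := by
      intro p hp
      obtain ⟨hp1, hp2⟩ := mem_filter.1 hp
      obtain ⟨a, ha, hEa⟩ := hA p hp1
      obtain ⟨b, hb, hEb⟩ := hA (p + ρ) hp2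
      refine ⟨a * (starRingEnd ℂ) b, ?_, ?_⟩
      · rw [norm_mul, RCLike.norm_conj]
        exact mul_le_one₀ ha (norm_nonneg _) hb
      · have h1 := Ed_tr M (hF1 (p + ρ)) b (-(ρ * c s))
        have h2 := Ed_div M (hF1 p) (v := fun w => ∏ l, u l (tr ((p + ρ) * c l) (tr (-(ρ * c s)) w)))
          (fun w => hF1 (p + ρ) _) ha hb
        have h3 : (fun w => (∏ l, u l (tr (p * c l) w)) *
            (starRingEnd ℂ) (∏ l, u l (tr ((p + ρ) * c l) (tr (-(ρ * c s)) w)))) =
            fun w => ∏ l, u' l (tr (p * c' l) w) := by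
          funext w
          rw [map_prod, ← prod_mul_distrib, Fin.prod_univ_castSucc]
          have h4 : u (Fin.last (k + 1)) (tr (p * c (Fin.last (k + 1))) w) *
              (starRingEnd ℂ) (u (Fin.last (k + 1)) (tr ((p + ρ) * c (Fin.last (k + 1)))
                (tr (-(ρ * c s)) w))) = 1 := by
            rw [tr_tr]
            have h5 : -(ρ * c s) + (p + ρ) * c (Fin.last (k + 1)) = p * c (Fin.last (k + 1)) := by
              rw [hs]; ring
            rw [h5, Complex.mul_conj, Complex.normSq_eq_norm_sq, hu]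
            norm_num
          rw [h4, mul_one]
          refine prod_congr rfl fun l _ => ?_
          simp only [hu', hc', Dv]
          rw [tr_tr, tr_tr]
          congr 4
          ring
        rw [h3] at h2
        linarith
    have hcube : Cub k A' (fun i => r i.castSucc) x := by
      intro ω
      rw [hA', mem_filter]
      have h1 := hx (ω.map Fin.castSuccEmb)
      rw [sum_map] at h1
      have h2 := hx (insert (Fin.last k) (ω.map Fin.castSuccEmb))
      have hnot : Fin.last k ∉ ω.map Fin.castSuccEmb := by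
        simp only [Finset.mem_map, not_exists, not_and]
        intro i _ h
        exact (Fin.castSucc_lt_last i).ne h
      rw [sum_insert hnot, sum_map] at h2
      refine ⟨h1, ?_⟩
      have h3 : x + ∑ i ∈ ω, r i.castSucc + ρ = x + (r (Fin.last k) + ∑ i ∈ ω, r (Fin.castSuccEmb i)) := by
        rw [hρ]
        simp only [Fin.coe_castSuccEmb]
        ring
      rw [h3]
      exact h2
    obtain ⟨a, ha, hE⟩ := ih c' u' hU' A' (2 * ε) hrel (fun i => r i.castSucc) ⟨x, hcube⟩
    refine ⟨a, ha, ?_⟩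
    have h1 : DD (k + 1) (fun i => r i * (c 0 - c i.succ)) (u 0) =
        DD k (fun i => r i.castSucc * (c' 0 - c' i.succ)) (u' 0) := by
      simp only [DD, hu', hc', Fin.castSucc_zero, Fin.succ_last, Fin.succ_castSucc, hρ, hs]
    rw [h1, pow_succ]
    linarith

end Pool.H19.NN
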