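import Pool.Agent.H19.NN.Defs
import Pool.Agent.H2.MR.Mrt

/-!
# [H19 NN MRK] Matomäki-Radziwiłł in the class 1 mod K

PROOF. `mrt` with `ε / K` gives `H₀`; take `H = max 1 H₀`, so `K H ≥ H₀`. For each Dirichlet character `χ mod K` (finitely many) let
`f_χ n = g n * χ n`. `OB f_χ`: `g 1 = 1`, `χ 1 = 1`; coprime multiplicativity of `g`, complete multiplicativity of `χ`; bounds (`χ.norm_le_one`).
`CondN1 f_χ`: from `CN g` for the character `χ⁻¹` (`conj (χ⁻¹ p) = χ p` for complex Dirichlet characters: `MulChar.star_eq_inv`-type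
lemma, both are `0` if `p ∣ K`): `conj (χ⁻¹(p) p^(it)) = χ(p) p^(-it)` and `ni t p = p^(-(t I))`; `X₀` natural: `⌈X₀⌉`; the index sets
`filter Prime (Iic ⌊X⌋)` and `(Icc 1 X).filter Prime` agree. `mrt` gives `N₀(χ)`; let `N₀` be the maximum. For `n ≡ 1 mod K`:
`∑_{j<H} g (n + jK) = ∑_{i<KH} g (n+i) 1[n+i ≡ 1 mod K] = (1/φ(K)) ∑_χ ∑_{i<KH} f_χ (n+i)` (`DirichletCharacter.sum_characters_eq` or
`sum_char_inv_mul_char_eq`; `i = jK`). So the sum over `n` of the norms is `≤ (1/φ(K)) ∑_χ (ε/K) K H N = ε H N`.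
-/

set_option autoImplicit false

open Finset Filter Topology Pool.Agent.H68.OF

namespace Pool.H19.NN

/-- the twisted function -/
noncomputable def mrk_f {K : ℕ} (g : ArithmeticFunction ℂ) (χ : DirichletCharacter ℂ K) (n : ℕ) : ℂ :=
  g n * χ (n : ZMod K)

theorem mrk_ob {K : ℕ} (g : ArithmeticFunction ℂ) (hg : g.IsMultiplicative) (hb : ∀ n, ‖g n‖ ≤ 1)
    (χ : DirichletCharacter ℂ K) : Pool.H2.MR.OB (mrk_f g χ) := by
  refine ⟨?_, ?_, ?_⟩
  · simp [mrk_f, hg.1]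
  · intro m n hmn
    simp only [mrk_f, Nat.cast_mul, map_mul, hg.2 hmn]
    ring
  · intro n
    rw [mrk_f, norm_mul]
    exact mul_le_one₀ (hb n) (norm_nonneg _) (χ.norm_le_one _)

theorem mrk_conj (t : ℝ) (p : ℕ) :
    starRingEnd ℂ ((p : ℂ) ^ (Complex.I * (t : ℂ))) = Pool.H2.MR.ni t p := by
  rw [Pool.H2.MR.ni]
  have h1 := Complex.cpow_conj (p : ℂ) (Complex.I * (t : ℂ)) (by
    rw [Complex.natCast_arg]; exact Real.pi_ne_zero.symm)
  rw [Complex.conj_natCast] at h1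
  rw [← h1]
  congr 1
  rw [map_mul, Complex.conj_I, Complex.conj_ofReal]
  ring

theorem mrk_cn {K : ℕ} (hK : 0 < K) (g : ArithmeticFunction ℂ) (hg : CN g)
    (χ : DirichletCharacter ℂ K) : Pool.H2.MR.CondN1 (mrk_f g χ) := by
  intro M
  obtain ⟨X₀, h0⟩ := hg K χ⁻¹ hK M
  refine ⟨⌈X₀⌉₊, fun X hX t ht => ?_⟩
  have h1 := h0 X ((Nat.le_ceil X₀).trans (by exact_mod_cast hX)) t ht
  refine h1.trans (le_of_eq ?_)
  rw [Pool.H2.MR.DD, Nat.floor_natCast]
  have h2 : Finset.filter Nat.Prime (Finset.Iic X) = (Icc 1 X).filter Nat.Prime := by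
    ext p
    simp only [Finset.mem_filter, Finset.mem_Iic, Finset.mem_Icc]
    constructor
    · rintro ⟨h3, h4⟩
      exact ⟨⟨h4.one_lt.le, h3⟩, h4⟩
    · rintro ⟨h3, h4⟩
      exact ⟨h3.2, h4⟩
  rw [h2]
  apply Finset.sum_congr rfl
  intro p hp
  rw [map_mul, mrk_conj, mrk_f]
  have h3 : starRingEnd ℂ (χ⁻¹ (p : ZMod K)) = χ (p : ZMod K) := by
    have := MulChar.star_apply' (χ⁻¹) (p : ZMod K)
    rw [inv_inv] at this
    exact this
  rw [h3, mul_assoc]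

theorem mrk_sum (K : ℕ) (hK : 0 < K) (g : ArithmeticFunction ℂ) (H n : ℕ) (hn : n % K = 1 % K) :
    ∑ j ∈ range H, g (n + j * K) =
      (1 / (K.totient : ℂ)) * ∑ χ : DirichletCharacter ℂ K, ∑ i ∈ range (K * H), mrk_f g χ (n + i) := by
  have : NeZero K := ⟨hK.ne'⟩
  have ht : (K.totient : ℂ) ≠ 0 := by
    have := Nat.totient_pos.2 hK
    exact_mod_cast this.ne'
  have hn1 : (n : ZMod K) = 1 := by
    have h1 : (n : ZMod K) = ((1 : ℕ) : ZMod K) := (ZMod.natCast_eq_natCast_iff _ _ _).2 hn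
    simpa using h1
  rw [Finset.sum_comm]
  have h1 : ∀ i ∈ range (K * H), ∑ χ : DirichletCharacter ℂ K, mrk_f g χ (n + i) =
      if K ∣ i then (K.totient : ℂ) * g (n + i) else 0 := by
    intro i _
    simp only [mrk_f]
    rw [← Finset.mul_sum, DirichletCharacter.sum_characters_eq]
    have h2 : ((n + i : ℕ) : ZMod K) = 1 ↔ K ∣ i := by
      rw [Nat.cast_add, hn1, add_eq_left, ZMod.natCast_eq_zero_iff]
    by_cases h3 : K ∣ i
    · rw [if_pos (h2.2 h3), if_pos h3, mul_comm]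
    · rw [if_neg (fun h => h3 (h2.1 h)), if_neg h3, mul_zero]
  rw [Finset.sum_congr rfl h1, ← Finset.sum_filter, ← Finset.mul_sum, ← mul_assoc,
    one_div, inv_mul_cancel₀ ht, one_mul]
  apply Finset.sum_nbij' (fun j => j * K) (fun i => i / K)
  · intro j hj
    rw [Finset.mem_range] at hj
    rw [Finset.mem_filter, Finset.mem_range]
    refine ⟨?_, Dvd.intro_left j rfl⟩
    rw [mul_comm]
    exact Nat.mul_lt_mul_of_pos_left hj hK
  · intro i hi
    rw [Finset.mem_filter, Finset.mem_range] at hi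
    rw [Finset.mem_range]
    exact Nat.div_lt_of_lt_mul hi.1
  · intro j _
    exact Nat.mul_div_cancel j hK
  · intro i hi
    exact Nat.div_mul_cancel (Finset.mem_filter.1 hi).2
  · intro j _
    rfl

theorem mrk (K : ℕ) (hK : 0 < K) (ε : ℝ) (hε : 0 < ε) : ∃ H : ℕ, 0 < H ∧ ∀ g : ArithmeticFunction ℂ, g.IsMultiplicative →
    (∀ n, ‖g n‖ ≤ 1) → CN g → ∃ N₀ : ℕ, ∀ N : ℕ, N₀ ≤ N →
    ∑ n ∈ (Icc 1 N).filter (fun n => n % K = 1 % K), ‖∑ j ∈ range H, g (n + j * K)‖ ≤ ε * H * N := by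
  have : NeZero K := ⟨hK.ne'⟩
  have hKr : (0 : ℝ) < K := by exact_mod_cast hK
  obtain ⟨H₀, hH₀⟩ := Pool.H2.MR.mrt (ε / K) (by positivity)
  refine ⟨max 1 H₀, by positivity, fun g hg hb hc => ?_⟩
  obtain ⟨H, hHd⟩ : ∃ H, H = max 1 H₀ := ⟨_, rfl⟩
  rw [← hHd]
  have hHK : H₀ ≤ K * H := by
    have h1 : H₀ ≤ H := hHd ▸ le_max_right _ _
    have h2 : 1 * H ≤ K * H := Nat.mul_le_mul_right _ hK
    omega
  have h1 : ∀ χ : DirichletCharacter ℂ K, ∃ N₀ : ℕ, ∀ N : ℕ, N₀ ≤ N →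
      ∑ n ∈ Icc 1 N, ‖∑ j ∈ range (K * H), mrk_f g χ (n + j)‖ ≤ ε / K * (K * H : ℕ) * N :=
    fun χ => hH₀ (K * H) hHK (mrk_f g χ) (mrk_ob g hg hb χ) (mrk_cn hK g hc χ)
  choose N₀ hN₀ using h1
  refine ⟨Finset.univ.sup N₀, fun N hN => ?_⟩
  have ht : (0 : ℝ) < K.totient := by exact_mod_cast Nat.totient_pos.2 hK
  have hcard : ((Finset.univ : Finset (DirichletCharacter ℂ K)).card : ℝ) = K.totient := by
    rw [Finset.card_univ, ← Nat.card_eq_fintype_card,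
      DirichletCharacter.card_eq_totient_of_hasEnoughRootsOfUnity ℂ K]
  calc ∑ n ∈ (Icc 1 N).filter (fun n => n % K = 1 % K), ‖∑ j ∈ range H, g (n + j * K)‖
      ≤ ∑ n ∈ (Icc 1 N).filter (fun n => n % K = 1 % K), (1 / (K.totient : ℝ)) *
        ∑ χ : DirichletCharacter ℂ K, ‖∑ i ∈ range (K * H), mrk_f g χ (n + i)‖ := by
        apply Finset.sum_le_sum
        intro n hn
        rw [mrk_sum K hK g H n (Finset.mem_filter.1 hn).2, norm_mul, norm_div, norm_one,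
          Complex.norm_natCast]
        exact mul_le_mul_of_nonneg_left (norm_sum_le _ _) (by positivity)
    _ ≤ ∑ n ∈ Icc 1 N, (1 / (K.totient : ℝ)) *
        ∑ χ : DirichletCharacter ℂ K, ‖∑ i ∈ range (K * H), mrk_f g χ (n + i)‖ := by
        apply Finset.sum_le_sum_of_subset_of_nonneg (Finset.filter_subset _ _)
        intro n _ _
        positivity
    _ = (1 / (K.totient : ℝ)) * ∑ χ : DirichletCharacter ℂ K,
        ∑ n ∈ Icc 1 N, ‖∑ i ∈ range (K * H), mrk_f g χ (n + i)‖ := by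
        rw [← Finset.mul_sum, Finset.sum_comm]
    _ ≤ (1 / (K.totient : ℝ)) * ∑ χ : DirichletCharacter ℂ K, (ε / K * (K * H : ℕ) * N) := by
        apply mul_le_mul_of_nonneg_left _ (by positivity)
        apply Finset.sum_le_sum
        intro χ _
        exact hN₀ χ N ((Finset.le_sup (Finset.mem_univ χ)).trans hN)
    _ = ε * H * N := by
        rw [Finset.sum_const, nsmul_eq_mul, hcard]
        push_cast
        field_simp

end Pool.H19.NN
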