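import Pool.Agent.H19.NN.Str
import Pool.Agent.H19.NN.Dlt
import Pool.Agent.H19.NN.Mrk
import Pool.Agent.H19.NN.Ctr

/-!
# [H19 NN FIN] The theorem for natural shifts (assembly)

PROOF. `K` from `struct k q`, `H` from `mrk K (1/(2K))`. Suppose no `δ` works. For each `i` take `δ = 1/(i+1)`: there is `g₀ i` with the properties and for all
`N₀` there are `N ≥ N₀` and `G` with `‖corN G h N‖ > 1 - 1/(i+1)`; use it with `N₀ = max i (N₀ of mrk for g₀ i)`: `X i`, `G i`, `G i 0 = g₀ i`.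
`X i ≥ i` tends to infinity; `exists_mn` gives `U`, `M`; so `Sq k h X G U M`. `struct` for `f l = fG G l`: bounds, `f 0 w ^ q` real (values of
`g₀`), `nrm`, `dlt` with `C = 2 (k+1)`. `ctr` gives the contradiction.
-/

set_option autoImplicit false

open Finset Filter Topology Pool.Agent.H68.OF

namespace Pool.H19.NN

theorem fin99 (k q : ℕ) (hq : 0 < q) (h : Fin (k + 1) → ℕ) (hne : ∀ i, i ≠ 0 → h i ≠ h 0) : ∃ δ : ℝ, 0 < δ ∧
    ∀ g₀ : ArithmeticFunction ℂ, g₀.IsMultiplicative → (∀ n, ‖g₀ n‖ ≤ 1) →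
    (∀ n, ∃ r : ℝ, 0 ≤ r ∧ g₀ n ^ q = (r : ℂ)) → CN g₀ → ∃ N₀ : ℕ, ∀ N : ℕ, N₀ ≤ N →
    ∀ G : Fin (k + 1) → ArithmeticFunction ℂ, G 0 = g₀ → (∀ i, (G i).IsMultiplicative) → (∀ i n, ‖G i n‖ ≤ 1) →
    ‖corN G h N‖ ≤ 1 - δ := by
  obtain ⟨K, hK, hstruct⟩ := struct k q hq h hne
  obtain ⟨H, hH, hmrk⟩ := mrk K hK (1 / (2 * (K : ℝ))) (by positivity)
  by_contra hcon
  have hbad : ∀ i : ℕ, ∃ (N : ℕ) (G : Fin (k + 1) → ArithmeticFunction ℂ), i ≤ N ∧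
      (∀ l, (G l).IsMultiplicative) ∧ (∀ l n, ‖G l n‖ ≤ 1) ∧
      (∀ n, ∃ r : ℝ, 0 ≤ r ∧ G 0 n ^ q = (r : ℂ)) ∧
      1 - 1 / ((i : ℝ) + 1) ≤ ‖corN G h N‖ ∧
      ∑ n ∈ (Icc 1 N).filter (fun n => n % K = 1 % K), ‖∑ j ∈ range H, G 0 (n + j * K)‖ ≤
        1 / (2 * (K : ℝ)) * H * N := by
    intro i
    by_contra hi
    apply hcon
    refine ⟨1 / ((i : ℝ) + 1), by positivity, ?_⟩
    intro g₀ hm hb hv hN
    obtain ⟨N₁, hN₁⟩ := hmrk g₀ hm hb hN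
    refine ⟨max i N₁, ?_⟩
    intro N hNN G hG0 hGm hGb
    by_contra hlt
    rw [not_le] at hlt
    apply hi
    refine ⟨N, G, le_trans (le_max_left _ _) hNN, hGm, hGb, ?_, hlt.le, ?_⟩
    · rw [hG0]
      exact hv
    · rw [hG0]
      exact hN₁ N (le_trans (le_max_right _ _) hNN)
  choose X G hXi hGm hGb hGv hbig hmr using hbad
  have hX : Tendsto X atTop atTop := tendsto_atTop_mono hXi tendsto_id
  obtain ⟨U, M, hU, hM⟩ := exists_mn X hX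
  have hS : Sq k h X G U M := ⟨hGm, hGb, hX, hU, hM, hbig⟩
  have hf1 : ∀ l w, ‖fG G l w‖ ≤ 1 := fun l w => hGb _ _ _
  have hper := hstruct M (fG G) hf1 (fun w => hGv _ _) (fun l => nrm hS l) (2 * ((k : ℝ) + 1))
    (fun p hp => dlt hS p hp)
  exact ctr hS K H hK hH hper hmr

end Pool.H19.NN
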