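import Pool.Agent.H19.NN.Cal
import Pool.Agent.H19.NN.Ddl

/-!
# [H19 NN FO] The finite order trick

PROOF. Induction on `k` generalizing `v`, `u`.
`k = 0`: `DD 0 v u = u`, `q^0 T = T`. If `u (tr T w) ≠ u w` then `u w ≠ a` or `u (tr T w) ≠ a`: `Pb_mono`, `Pb_or`, `Pb_tr`, constant `2`.
`k → k+1`: let `x = v (Fin.last k)`, `y = Dv x u`, `y^q = 1` (a case of `DD_pow`, or directly). The induction hypothesis for `y` and
`v ∘ castSucc` gives `Pb (y ∘ tr L ≠ y) ≤ C_k ε` with `L = q^k T`. `x ∣ T ∣ L`; let `L = |x| n`, `n ≥ 1`.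
Let `z w = u w * conj (u (tr L w))`. CASE `x > 0`: `z w = ∏ j < n, y (tr (j x) w)` (telescoping, `conj (u) u = 1`).
CASE `x < 0`, `x = -t`: `y w = u w * conj (u (tr (-t) w))`, so `conj (y (tr ((j+1) t) w)) = u (tr (j t) w) * conj (u (tr ((j+1) t) w))` and
`z w = ∏ j < n, conj (y (tr ((j+1) t) w))`. (Or treat both cases at once: `y' = Dv t u` with `t = |x|` satisfies
`Pb (y' ∘ tr L ≠ y') = Pb (y ∘ tr L ≠ y)` because `y' w = conj (y (tr t w))` when `x = -t`.)
So `z (tr L w) = z w` unless one of `n` translates of the event `y ∘ tr L ≠ y` occurs (`Pb_ex`, `Pb_tr`): `Pb (z ∘ tr L ≠ z) ≤ n C_k ε`,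
`n ≤ L` (as `n ∣ L`, `L > 0` because `T ≥ 1`, `q ≥ 1`).
If `z (tr (i L) w) = z w` for all `i < q` then `u w * conj (u (tr (q L) w)) = ∏ i < q, z (tr (i L) w) = (z w)^q = 1`, hence
`u (tr (q L) w) = u w`. The exceptional set: some `i < q` with `z (tr ((i+1) L) w) ≠ z (tr (i L) w)`: probability `≤ q * L * C_k ε`.
So `C_{k+1} = q L C_k` (here `q^(k+1) T = q L`). `u` is unimodular by `un_of_pow`.
-/

set_option autoImplicit false

open Finset Filter Topology Pool.Agent.H68.OF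

namespace Pool.H19.NN

private theorem fo_tr0 (w : Om) : tr 0 w = w := by
  unfold tr
  simp

private theorem fo_one {u : Om → ℂ} (hu : Un u) (w : Om) : (starRingEnd ℂ) (u w) * u w = 1 := by
  rw [mul_comm, Complex.mul_conj, Complex.normSq_eq_norm_sq, hu]
  norm_num

private theorem fo_tele {u : Om → ℂ} (hu : Un u) (t : ℤ) (w : Om) (n : ℕ) :
    ∏ j ∈ range n, Dv t u (tr ((j : ℤ) * t) w) = Dv ((n : ℤ) * t) u w := by
  induction n with
  | zero =>
    rw [range_zero, prod_empty, Nat.cast_zero, zero_mul]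
    unfold Dv
    rw [fo_tr0, mul_comm, fo_one hu]
  | succ n ih =>
    rw [prod_range_succ, ih]
    unfold Dv
    rw [tr_tr]
    have h1 : (n : ℤ) * t + t = ((n + 1 : ℕ) : ℤ) * t := by push_cast; ring
    rw [h1]
    have h2 := fo_one hu (tr ((n : ℤ) * t) w)
    calc u w * (starRingEnd ℂ) (u (tr ((n : ℤ) * t) w)) * (u (tr ((n : ℤ) * t) w) *
          (starRingEnd ℂ) (u (tr (((n + 1 : ℕ) : ℤ) * t) w)))
        = u w * ((starRingEnd ℂ) (u (tr ((n : ℤ) * t) w)) * u (tr ((n : ℤ) * t) w)) *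
          (starRingEnd ℂ) (u (tr (((n + 1 : ℕ) : ℤ) * t) w)) := by ring
      _ = _ := by rw [h2, mul_one]

private theorem fo_pow {q : ℕ} {u : Om → ℂ} (hu : ∀ w, u w ^ q = 1) (v : ℤ) (w : Om) :
    Dv v u w ^ q = 1 := by
  unfold Dv
  rw [mul_pow, hu, ← map_pow, hu, map_one, mul_one]

/-- repeated invariance -/
private theorem fo_rep (z : Om → ℂ) (L : ℤ) (w : Om) (q : ℕ)
    (h : ∀ i < q, z (tr L (tr ((i : ℤ) * L) w)) = z (tr ((i : ℤ) * L) w)) :
    ∀ i ≤ q, z (tr ((i : ℤ) * L) w) = z w := by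
  intro i
  induction i with
  | zero =>
    intro _
    rw [Nat.cast_zero, zero_mul, fo_tr0]
  | succ i ih =>
    intro hi
    have h1 := h i (by omega)
    rw [tr_tr] at h1
    have h2 : (i : ℤ) * L + L = ((i + 1 : ℕ) : ℤ) * L := by push_cast; ring
    rw [h2] at h1
    rw [h1]
    exact ih (by omega)

theorem fo (q T : ℕ) (hq : 0 < q) (hT : 0 < T) : ∀ k : ℕ, ∃ C : ℝ, 0 ≤ C ∧ ∀ (M : Mn) (v : Fin k → ℤ),
    (∀ i, v i ≠ 0 ∧ v i ∣ (T : ℤ)) → ∀ u : Om → ℂ, (∀ w, u w ^ q = 1) → ∀ (a : ℂ) (ε : ℝ), 0 ≤ ε →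
    Pb M (fun w => DD k v u w ≠ a) ≤ ε → Pb M (fun w => u (tr ((q ^ k * T : ℕ) : ℤ) w) ≠ u w) ≤ C * ε := by
  intro k
  induction k with
  | zero =>
    refine ⟨2, by norm_num, ?_⟩
    intro M v _ u _ a ε _ hP
    have hP' : Pb M (fun w => u w ≠ a) ≤ ε := by simpa [DD] using hP
    have h1 : Pb M (fun w => u (tr ((q ^ 0 * T : ℕ) : ℤ) w) ≠ u w) ≤
        Pb M (fun w => u (tr ((q ^ 0 * T : ℕ) : ℤ) w) ≠ a ∨ u w ≠ a) := by
      apply Pb_mono
      intro w hw
      by_contra hcon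
      push Not at hcon
      exact hw (hcon.1.trans hcon.2.symm)
    have h2 := Pb_or M (fun w => u (tr ((q ^ 0 * T : ℕ) : ℤ) w) ≠ a) (fun w => u w ≠ a)
    have h3 := Pb_tr M (fun w => u w ≠ a) ((q ^ 0 * T : ℕ) : ℤ)
    linarith
  | succ k ih =>
    obtain ⟨C, hC, ihC⟩ := ih
    set L : ℕ := q ^ k * T with hL
    have hL0 : 0 < L := by positivity
    refine ⟨q * L * C, by positivity, ?_⟩
    intro M v hv u hu a ε hε hP
    have hU : Un u := un_of_pow hq hu
    set x : ℤ := v (Fin.last k) with hx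
    have hx0 : x ≠ 0 := (hv (Fin.last k)).1
    have hxT : x ∣ (T : ℤ) := (hv (Fin.last k)).2
    have hE := ihC M (fun i => v i.castSucc) (fun i => hv _) (Dv x u) (fo_pow hu x) a ε hε hP
    set E : ℝ := C * ε with hEdef
    set t : ℕ := x.natAbs with ht
    have ht0 : 0 < t := Int.natAbs_pos.mpr hx0
    have htT : t ∣ T := Int.natCast_dvd_natCast.mp ((Int.natAbs_dvd).mpr hxT)
    have htL : t ∣ L := htT.mul_left _
    obtain ⟨n, hn⟩ := htL
    have hn0 : 0 < n := by
      rcases Nat.eq_zero_or_pos n with h | h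
      · rw [h, mul_zero] at hn
        omega
      · exact h
    have hnL : n ≤ L := by
      rw [hn]
      exact Nat.le_mul_of_pos_left n ht0
    have hnL' : (L : ℤ) = (n : ℤ) * (t : ℤ) := by
      rw [hn]; push_cast; ring
    -- the difference with the positive step
    set y : Om → ℂ := Dv (t : ℤ) u with hy
    have hyE : Pb M (fun w => y (tr (L : ℤ) w) ≠ y w) ≤ E := by
      rcases Int.natAbs_eq x with h | h
      · have h1 : y = Dv x u := by
          rw [hy, ht, ← h]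
        rw [h1]
        exact hE
      · have h1 : ∀ w, y w = (starRingEnd ℂ) (Dv x u (tr (t : ℤ) w)) := by
          intro w
          simp only [hy, Dv]
          rw [tr_tr]
          have h2 : (t : ℤ) + x = 0 := by
            rw [ht]; omega
          rw [h2, fo_tr0, map_mul, Complex.conj_conj, mul_comm]
        have h2 := Pb_tr M (fun w => Dv x u (tr (L : ℤ) w) ≠ Dv x u w) (t : ℤ)
        refine le_trans ?_ (h2.le.trans hE)
        apply Pb_mono
        intro w hw hcon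
        apply hw
        rw [h1, h1, tr_tr, add_comm, ← tr_tr, hcon]
    -- the difference with step `L`
    set z : Om → ℂ := Dv (L : ℤ) u with hz
    have hzE : Pb M (fun w => z (tr (L : ℤ) w) ≠ z w) ≤ n * E := by
      have h1 : ∀ w, z w = ∏ j ∈ range n, y (tr ((j : ℤ) * (t : ℤ)) w) := by
        intro w
        rw [hz, hnL', ← fo_tele hU]
      refine le_trans (Pb_mono M (B := fun w => ∃ j < n,
        y (tr (L : ℤ) (tr ((j : ℤ) * (t : ℤ)) w)) ≠ y (tr ((j : ℤ) * (t : ℤ)) w)) ?_) ?_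
      · intro w hw
        by_contra hcon
        push Not at hcon
        apply hw
        rw [h1, h1]
        refine prod_congr rfl fun j hj => ?_
        rw [← hcon j (mem_range.1 hj), tr_tr, tr_tr, add_comm]
      · refine (Pb_ex M n (fun j w => y (tr (L : ℤ) (tr ((j : ℤ) * (t : ℤ)) w)) ≠
          y (tr ((j : ℤ) * (t : ℤ)) w))).trans ?_
        have h2 : ∀ j ∈ range n, Pb M (fun w => y (tr (L : ℤ) (tr ((j : ℤ) * (t : ℤ)) w)) ≠
            y (tr ((j : ℤ) * (t : ℤ)) w)) ≤ E := by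
          intro j _
          exact (Pb_tr M (fun w => y (tr (L : ℤ) w) ≠ y w) ((j : ℤ) * (t : ℤ))).le.trans hyE
        refine (sum_le_sum h2).trans ?_
        rw [sum_const, card_range, nsmul_eq_mul]
    -- conclusion
    have hfin : Pb M (fun w => u (tr ((q ^ (k + 1) * T : ℕ) : ℤ) w) ≠ u w) ≤ q * (n * E) := by
      have hqL : ((q ^ (k + 1) * T : ℕ) : ℤ) = (q : ℤ) * (L : ℤ) := by
        rw [hL]; push_cast; ring
      rw [hqL]
      refine le_trans (Pb_mono M (B := fun w => ∃ i < q,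
        z (tr (L : ℤ) (tr ((i : ℤ) * (L : ℤ)) w)) ≠ z (tr ((i : ℤ) * (L : ℤ)) w)) ?_) ?_
      · intro w hw
        by_contra hcon
        push Not at hcon
        apply hw
        have h1 := fo_rep z (L : ℤ) w q hcon
        have h2 := fo_tele hU (L : ℤ) w q
        rw [prod_congr rfl fun i hi => h1 i (mem_range.1 hi).le, prod_const, card_range,
          hz, fo_pow hu] at h2
        unfold Dv at h2
        have h3 := fo_one hU (tr ((q : ℤ) * (L : ℤ)) w)
        calc u (tr ((q : ℤ) * (L : ℤ)) w) = 1 * u (tr ((q : ℤ) * (L : ℤ)) w) := (one_mul _).symm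
          _ = u w * ((starRingEnd ℂ) (u (tr ((q : ℤ) * (L : ℤ)) w)) *
                u (tr ((q : ℤ) * (L : ℤ)) w)) := by
              conv_lhs => rw [h2]
              ring
          _ = u w := by rw [h3, mul_one]
      · refine (Pb_ex M q (fun i w => z (tr (L : ℤ) (tr ((i : ℤ) * (L : ℤ)) w)) ≠
          z (tr ((i : ℤ) * (L : ℤ)) w))).trans ?_
        have h2 : ∀ i ∈ range q, Pb M (fun w => z (tr (L : ℤ) (tr ((i : ℤ) * (L : ℤ)) w)) ≠
            z (tr ((i : ℤ) * (L : ℤ)) w)) ≤ n * E := by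
          intro i _
          exact (Pb_tr M (fun w => z (tr (L : ℤ) w) ≠ z w) ((i : ℤ) * (L : ℤ))).le.trans hzE
        refine (sum_le_sum h2).trans ?_
        rw [sum_const, card_range, nsmul_eq_mul]
    refine hfin.trans ?_
    have hE0 : 0 ≤ E := mul_nonneg hC hε
    have h1 : (n : ℝ) * E ≤ L * E := mul_le_mul_of_nonneg_right (by exact_mod_cast hnL) hE0
    have h2 : (q : ℝ) * (n * E) ≤ q * (L * E) := mul_le_mul_of_nonneg_left h1 (Nat.cast_nonneg _)
    rw [hEdef] at h2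
    rw [hEdef]
    linarith

end Pool.H19.NN
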