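import Pool.Agent.H19.NN.Lev
import Pool.Agent.H19.NN.Cal

/-!
# [H19 NN GOO] At least half of the primes of a good level are good

PROOF. For a prime `p` let `z_p = M.Ec (dv p * F_p)`, `F_p w = ∏ j, f j (tr (p h j) w)`, and `a p = conj z_p / ‖z_p‖` if `z_p ≠ 0`, else `1` (for `p` not
prime: `1`), so `‖a p‖ = 1` and `(a p * z_p).re = ‖z_p‖ ≥ 1 - C/p`. Let `e_p = M.E (fun w => 1 - (a p * F_p w).re) ≥ 0`. `core_split` (OF/Core):
`(a p * z_p).re = E[(dv p - 1) (a p F_p).re] + (a p * Ec F_p).re`, so `e_p = 1 - (a p * Ec F_p).re ≤ C/p + E[(dv p - 1)(a p F_p).re]`.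
Let `η = ε²/16` and `m ≥ m₁` with `C / 2^m ≤ η` from `level` (apply it with a larger `m₁`). Then `∑_{p∈PP m} e_p ≤ 2 η #PP m` (`p > 2^m`;
`C ≤ 0` is harmless). Let `A₀ = {p ∈ PP m : e_p ≤ 4 η}`: the others are at most `#PP m / 2` (Markov), so `#PP m ≤ 2 #A₀`. For `p ∈ A₀`:
`‖F_p - ā‖² = ‖F_p‖² + 1 - 2 (a F_p).re ≤ 2 (1 - (a F_p).re)`, so `E ‖F_p - ā‖ ≤ (E ‖F_p - ā‖²)^(1/2) ≤ (8 η)^(1/2) ≤ ε` (`E_sq_le_MEANC`).
`A` = image of `A₀` in `ℤ`.
-/

set_option autoImplicit false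

open Finset Filter Topology Pool.Agent.H68.OF

namespace Pool.H19.NN

theorem good (M : Mn) (k : ℕ) (h : Fin k → ℕ) (f : Fin k → Om → ℂ) (hf : ∀ j w, ‖f j w‖ ≤ 1) (C : ℝ)
    (hC : ∀ p : ℕ, p.Prime →
      1 - C / p ≤ ‖M.Ec (fun w => (dv p w.2 : ℂ) * ∏ j, f j (tr ((p * h j : ℕ) : ℤ) w))‖)
    (ε : ℝ) (hε : 0 < ε) (m₁ : ℕ) : ∃ m : ℕ, m₁ ≤ m ∧ ∃ A : Finset ℤ, A ⊆ PZ m ∧ (PP m).card ≤ 2 * A.card ∧
      ∀ p ∈ A, ∃ a : ℂ, ‖a‖ ≤ 1 ∧ Ed M (fun w => ∏ j, f j (tr (p * h j) w)) a ≤ ε := by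
  classical
  obtain ⟨η, hη⟩ : ∃ η : ℝ, η = ε ^ 2 / 16 := ⟨_, rfl⟩
  have hη0 : 0 < η := by rw [hη]; positivity
  obtain ⟨N, hN⟩ := pow_unbounded_of_one_lt (C / η) (by norm_num : (1 : ℝ) < 2)
  obtain ⟨F, hF⟩ : ∃ F : ℕ → Om → ℂ, ∀ p w, F p w = ∏ j, f j (tr ((p * h j : ℕ) : ℤ) w) :=
    ⟨_, fun _ _ => rfl⟩
  have hF1 : ∀ p w, ‖F p w‖ ≤ 1 := by
    intro p w
    rw [hF, norm_prod]
    exact Finset.prod_le_one (fun _ _ => norm_nonneg _) (fun j _ => hf j _)
  have hFb : ∀ p, BddC (F p) := fun p => ⟨1, hF1 p⟩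
  obtain ⟨z, hz⟩ : ∃ z : ℕ → ℂ, ∀ p, z p = M.Ec (fun w => (dv p w.2 : ℂ) * F p w) :=
    ⟨_, fun _ => rfl⟩
  have hz1 : ∀ p : ℕ, p.Prime → 1 - C / p ≤ ‖z p‖ := by
    intro p hp
    have h1 := hC p hp
    rw [hz]
    simpa only [hF] using h1
  obtain ⟨a, ha⟩ : ∃ a : ℕ → ℂ, ∀ p, a p = if z p = 0 then 1 else (starRingEnd ℂ) (z p) / ‖z p‖ :=
    ⟨_, fun _ => rfl⟩
  have ha1 : ∀ p, ‖a p‖ = 1 := by
    intro p
    rw [ha]
    split_ifs with h0
    · exact norm_one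
    · rw [norm_div, RCLike.norm_conj, Complex.norm_real, norm_norm]
      exact div_self (norm_ne_zero_iff.mpr h0)
  have haz : ∀ p, (a p * z p).re = ‖z p‖ := by
    intro p
    rw [ha]
    split_ifs with h0
    · rw [h0]
      simp
    · have h1 : (starRingEnd ℂ) (z p) / ‖z p‖ * z p = (‖z p‖ : ℂ) := by
        have h2 : ((‖z p‖ : ℝ) : ℂ) ≠ 0 := by
          exact_mod_cast norm_ne_zero_iff.mpr h0
        rw [div_mul_eq_mul_div, div_eq_iff h2, mul_comm ((starRingEnd ℂ) (z p)), Complex.mul_conj,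
          Complex.normSq_eq_norm_sq]
        push_cast
        ring
      rw [h1, Complex.ofReal_re]
  obtain ⟨m, hm, hlev⟩ := level M k h f hf a (fun p => (ha1 p).le) η hη0 (max m₁ N)
  have hm1 : m₁ ≤ m := (le_max_left _ _).trans hm
  have hmN : N ≤ m := (le_max_right _ _).trans hm
  obtain ⟨e, he⟩ : ∃ e : ℕ → ℝ, ∀ p, e p = M.E (fun w => 1 - (a p * F p w).re) := ⟨_, fun _ => rfl⟩
  have haF : ∀ p, BddC (fun w => a p * F p w) := fun p => (BddC.const (a p)).mul (hFb p)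
  have haF1 : ∀ p w, (a p * F p w).re ≤ 1 := by
    intro p w
    refine (Complex.re_le_norm _).trans ?_
    rw [norm_mul, ha1, one_mul]
    exact hF1 p w
  have he0 : ∀ p, 0 ≤ e p := by
    intro p
    rw [he]
    exact M.nonneg' _ ((Bdd.const 1).sub (haF p).re) (fun w => by linarith [haF1 p w])
  have hemain : ∀ p ∈ PP m, e p ≤ η + M.E (fun w => (dv p w.2 - 1) * (a p * F p w).re) := by
    intro p hp
    rw [PP, Finset.mem_filter, Finset.mem_Ioc] at hp
    obtain ⟨⟨hp1, hp2⟩, hpp⟩ := hp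
    have h1 := core_split M p (a p) (hFb p)
    rw [← hz p, haz p] at h1
    have h2 := hz1 p hpp
    have h3 : e p = 1 - (a p * M.Ec (F p)).re := by
      rw [he, E_sub M (Bdd.const 1) (haF p).re, E_const, ← Ec_smul M (a p) (hFb p), re_Ec]
    have h4 : C / p ≤ η := by
      have hp0 : (0 : ℝ) < p := by exact_mod_cast hpp.pos
      rw [div_le_iff₀ hp0]
      have h5 : (2 : ℝ) ^ N ≤ p := by
        have h6 : (2 : ℝ) ^ N ≤ 2 ^ m := pow_le_pow_right₀ (by norm_num) hmN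
        have h7 : (2 : ℝ) ^ m ≤ p := by exact_mod_cast hp1.le
        exact h6.trans h7
      rw [div_lt_iff₀ hη0] at hN
      nlinarith
    linarith
  have hsum : ∑ p ∈ PP m, e p ≤ 2 * η * (PP m).card := by
    have h1 : ∑ p ∈ PP m, e p ≤
        ∑ p ∈ PP m, (η + M.E (fun w => (dv p w.2 - 1) * (a p * F p w).re)) :=
      Finset.sum_le_sum hemain
    rw [Finset.sum_add_distrib, Finset.sum_const, nsmul_eq_mul] at h1
    simp only [hF] at h1
    linarith
  -- the good primes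
  obtain ⟨A₀, hA₀⟩ : ∃ A₀ : Finset ℕ, A₀ = (PP m).filter (fun p => e p ≤ 4 * η) := ⟨_, rfl⟩
  have hcard : (PP m).card ≤ 2 * A₀.card := by
    have h1 : A₀.card + ((PP m).filter (fun p => ¬ e p ≤ 4 * η)).card = (PP m).card := by
      rw [hA₀]
      exact Finset.card_filter_add_card_filter_not _
    have h2 : 4 * η * ((PP m).filter (fun p => ¬ e p ≤ 4 * η)).card ≤ ∑ p ∈ PP m, e p := by
      calc 4 * η * ((PP m).filter (fun p => ¬ e p ≤ 4 * η)).card =
          ∑ p ∈ (PP m).filter (fun p => ¬ e p ≤ 4 * η), 4 * η := by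
            rw [Finset.sum_const, nsmul_eq_mul]
            ring
        _ ≤ ∑ p ∈ (PP m).filter (fun p => ¬ e p ≤ 4 * η), e p := by
            refine Finset.sum_le_sum fun p hp => ?_
            rw [Finset.mem_filter, not_le] at hp
            exact hp.2.le
        _ ≤ ∑ p ∈ PP m, e p :=
            Finset.sum_le_sum_of_subset_of_nonneg (Finset.filter_subset _ _) (fun p _ _ => he0 p)
    have h3 : 4 * η * (((PP m).filter (fun p => ¬ e p ≤ 4 * η)).card : ℝ) ≤ 2 * η * (PP m).card :=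
      h2.trans hsum
    have h4 : 2 * (((PP m).filter (fun p => ¬ e p ≤ 4 * η)).card : ℝ) ≤ (PP m).card := by
      have h5 : 0 < 2 * η := by linarith
      refine le_of_mul_le_mul_left ?_ h5
      linarith
    have h5 : 2 * ((PP m).filter (fun p => ¬ e p ≤ 4 * η)).card ≤ (PP m).card := by
      exact_mod_cast h4
    omega
  refine ⟨m, hm1, A₀.image (fun p : ℕ => (p : ℤ)), ?_, ?_, ?_⟩
  · rw [PZ]
    refine Finset.image_subset_image ?_
    rw [hA₀]
    exact Finset.filter_subset _ _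
  · rw [Finset.card_image_of_injective _ Nat.cast_injective]
    exact hcard
  · intro p' hp'
    rw [Finset.mem_image] at hp'
    obtain ⟨p, hp, rfl⟩ := hp'
    rw [hA₀, Finset.mem_filter] at hp
    obtain ⟨-, hpe⟩ := hp
    refine ⟨(starRingEnd ℂ) (a p), ?_, ?_⟩
    · rw [RCLike.norm_conj]
      exact (ha1 p).le
    · have h0 : (fun w => ∏ j, f j (tr ((p : ℤ) * h j) w)) = F p := by
        funext w
        rw [hF]
        push_cast
        rfl
      rw [h0, Ed]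
      have hb : BddC (fun w => F p w - (starRingEnd ℂ) (a p)) := (hFb p).sub (BddC.const _)
      have h1 := E_sq_le_MEANC M hb.norm
      have h2 : M.E (fun w => ‖F p w - (starRingEnd ℂ) (a p)‖ ^ 2) ≤
          M.E (fun w => 2 * (1 - (a p * F p w).re)) := by
        refine E_mono M ?_ ((Bdd.const 2).mul ((Bdd.const 1).sub (haF p).re)) fun w => ?_
        · have := hb.norm.mul hb.norm
          simpa [sq] using this
        · have h3 : ‖F p w - (starRingEnd ℂ) (a p)‖ ^ 2 =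
              ‖F p w‖ ^ 2 + ‖a p‖ ^ 2 - 2 * (a p * F p w).re := by
            rw [← Complex.normSq_eq_norm_sq, ← Complex.normSq_eq_norm_sq,
              ← Complex.normSq_eq_norm_sq, Complex.normSq_sub, Complex.normSq_conj,
              Complex.conj_conj, mul_comm (F p w)]
          rw [h3, ha1]
          have h4 := hF1 p w
          have h5 := norm_nonneg (F p w)
          nlinarith
      have h3 : M.E (fun w => 2 * (1 - (a p * F p w).re)) = 2 * e p := by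
        rw [he]
        exact M.smul' 2 _ ((Bdd.const 1).sub (haF p).re)
      have h4 : (M.E (fun w => ‖F p w - (starRingEnd ℂ) (a p)‖)) ^ 2 ≤ ε ^ 2 := by
        refine (h1.trans (h2.trans h3.le)).trans ?_
        rw [hη] at hpe
        nlinarith [sq_nonneg ε]
      exact le_of_sq_le_sq h4 hε.le

end Pool.H19.NN
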