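import Pool.Agent.H19.NN.Defs
import Pool.Agent.H68.OF.Core

/-!
# [H19 NN LEV] Entropy decrement: some level is good

PROOF (copy of `core` in OF/Core, without the Cauchy-Schwarz part). Suppose that for all `m ≥ m₁` the sum is `> η #PP m`; `m₁ ≥ 1` without loss
of generality (replace `m₁` by `max 1 m₁`). Rounding (`exists_round ε'`, `ε' = η / (4 (k+1))`): `f' j w = e (r (f j w))`, `ξ w = fun j => r (f j w)` with
values in `S = Fin k → Fin n` (`n > 0`), `F̃_p w = ∏ j, f' j (tr (p h j) w)`, `‖F_p - F̃_p‖ ≤ k ε'` (`norm_prod_sub_prod_le` in OF/Rou), and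
`φ m p w = (a p * F̃_p w).re`, `|φ| ≤ 1`. By `core_dv_le` (with `c = k ε'`): `∑_{p∈PP m} E[(dv p - 1) φ m p] ≥ (η - 2 k ε') #PP m ≥ (η/2) #PP m`.
`φ m p` depends only on `ξ (tr j w)`, `0 ≤ j ≤ D 2^(m+1)`, `D = ∑ h j` (`p ≤ 2^(m+1)`). `ent D` with `η m = η/2`:
`(η/2)^2 ∑_{m ∈ Ico m₁ M'} 1/m ≤ C log #S` for all `M'`, contradiction to the divergence of the harmonic series (`core_harm`).
-/

set_option autoImplicit false

open Finset Filter Topology Pool.Agent.H68.OF

namespace Pool.H19.NN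

theorem level (M : Mn) (k : ℕ) (h : Fin k → ℕ) (f : Fin k → Om → ℂ) (hf : ∀ j w, ‖f j w‖ ≤ 1) (a : ℕ → ℂ)
    (ha : ∀ p, ‖a p‖ ≤ 1) (η : ℝ) (hη : 0 < η) (m₁ : ℕ) : ∃ m : ℕ, m₁ ≤ m ∧
    ∑ p ∈ PP m, M.E (fun w => (dv p w.2 - 1) * (a p * ∏ j, f j (tr ((p * h j : ℕ) : ℤ) w)).re) ≤ η * (PP m).card := by
  by_contra hcon
  push Not at hcon
  set ε : ℝ := η / (4 * (k + 1)) with hε
  have hε0 : 0 < ε := by positivity
  obtain ⟨n, e, r, hn, he, hr⟩ := exists_round ε hε0
  haveI hFin : Nonempty (Fin n) := ⟨⟨0, hn⟩⟩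
  set D : ℕ := ∑ j, h j with hD
  obtain ⟨C, hC, hent⟩ := ent D
  set f' : Fin k → Om → ℂ := fun j w => e (r (f j w)) with hf'
  set ξ : Om → (Fin k → Fin n) := fun w j => r (f j w) with hξ
  have hf'1 : ∀ j w, ‖f' j w‖ ≤ 1 := fun j w => he _
  set F : ℕ → Om → ℂ := fun p w => ∏ j, f j (tr ((p * h j : ℕ) : ℤ) w) with hF
  set F' : ℕ → Om → ℂ := fun p w => ∏ j, f' j (tr ((p * h j : ℕ) : ℤ) w) with hF'
  have hF1 : ∀ p w, ‖F p w‖ ≤ 1 := fun p w => by
    simp only [hF, norm_prod]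
    exact Finset.prod_le_one (fun _ _ => norm_nonneg _) (fun j _ => hf j _)
  have hF'1 : ∀ p w, ‖F' p w‖ ≤ 1 := fun p w => by
    simp only [hF', norm_prod]
    exact Finset.prod_le_one (fun _ _ => norm_nonneg _) (fun j _ => hf'1 j _)
  have hFF : ∀ p w, ‖F p w - F' p w‖ ≤ k * ε := fun p w => by
    simp only [hF, hF']
    exact norm_prod_sub_prod_le _ _ (fun j => hf j _) (fun j => hf'1 j _) ε (fun j => by
      rw [norm_sub_rev]
      exact hr _ (hf j _))
  set φ : ℕ → ℕ → Om → ℝ := fun _ p w => (a p * F' p w).re with hφ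
  have hφ1 : ∀ m p w, |φ m p w| ≤ 1 := by
    intro m p w
    refine (Complex.abs_re_le_norm _).trans ?_
    rw [norm_mul]
    exact mul_le_one₀ (ha p) (norm_nonneg _) (hF'1 p w)
  set m₂ : ℕ := max 1 m₁ with hm₂
  obtain ⟨M₀, -, hharm⟩ := core_harm m₂ (C * Real.log (Fintype.card (Fin k → Fin n)) / (η / 2) ^ 2 + 1)
  have hkey := hent M (Fin k → Fin n) ξ m₂ M₀ (le_max_left _ _) φ hφ1 ?_ (fun _ => η / 2)
    (fun _ => by positivity) ?_
  · have h1 := hharm M₀ le_rfl
    have h2 : ∑ m ∈ Finset.Ico m₂ M₀, (η / 2) ^ 2 / (m : ℝ) =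
        (η / 2) ^ 2 * ∑ m ∈ Finset.Ico m₂ M₀, (1 / (m : ℝ)) := by
      rw [Finset.mul_sum]
      exact Finset.sum_congr rfl fun m _ => by ring
    rw [h2] at hkey
    have h3 : (0 : ℝ) < (η / 2) ^ 2 := by positivity
    have h4 := mul_le_mul_of_nonneg_left h1 h3.le
    have h5 : (η / 2) ^ 2 * (C * Real.log (Fintype.card (Fin k → Fin n)) / (η / 2) ^ 2 + 1) =
        C * Real.log (Fintype.card (Fin k → Fin n)) + (η / 2) ^ 2 := by
      field_simp
    linarith
  · intro m p hp w w' hww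
    have hp2 : p ≤ 2 ^ (m + 1) := by
      unfold PP at hp
      exact (Finset.mem_Ioc.1 (Finset.mem_filter.1 hp).1).2
    have ej : ∀ j, ξ (tr ((p * h j : ℕ) : ℤ) w) = ξ (tr ((p * h j : ℕ) : ℤ) w') := by
      intro j
      apply hww
      have h7 : h j ≤ ∑ i, h i := Finset.single_le_sum (f := h) (fun _ _ => Nat.zero_le _)
        (Finset.mem_univ j)
      calc p * h j ≤ 2 ^ (m + 1) * D := Nat.mul_le_mul hp2 (by rw [hD]; exact h7)
        _ = D * 2 ^ (m + 1) := Nat.mul_comm _ _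
    have e1 : F' p w = F' p w' := by
      simp only [hF']
      refine Finset.prod_congr rfl fun j _ => ?_
      have h8 := congrFun (ej j) j
      simp only [hξ] at h8
      simp only [hf']
      rw [h8]
    simp only [hφ]
    rw [e1]
  · intro m hm
    rw [Finset.mem_Ico] at hm
    have hm1 : m₁ ≤ m := le_trans (le_max_right _ _) hm.1
    have h1 := hcon m hm1
    have h2 : ∀ p ∈ PP m, M.E (fun w => (dv p w.2 - 1) * (a p * F p w).re) ≤
        M.E (fun w => (dv p w.2 - 1) * φ m p w) + 2 * (k * ε) := by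
      intro p hp
      have hp0 : 0 < p := by
        unfold PP at hp
        exact (Finset.mem_filter.1 hp).2.pos
      refine core_dv_le M p hp0 (u := fun w => (a p * F p w).re) (v := φ m p)
        ((BddC.const (a p)).mul ⟨1, hF1 p⟩).re ⟨1, hφ1 m p⟩ (k * ε) (fun w => ?_)
      have h4 : (a p * F p w).re - φ m p w = (a p * (F p w - F' p w)).re := by
        simp only [hφ]
        rw [← Complex.sub_re, mul_sub]
      rw [h4]
      refine (Complex.abs_re_le_norm _).trans ?_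
      rw [norm_mul]
      calc ‖a p‖ * ‖F p w - F' p w‖ ≤ 1 * (k * ε) :=
            mul_le_mul (ha p) (hFF p w) (norm_nonneg _) zero_le_one
        _ = k * ε := one_mul _
    have h3 := Finset.sum_le_sum h2
    rw [Finset.sum_add_distrib, Finset.sum_const, nsmul_eq_mul] at h3
    have h4 : 2 * ((k : ℝ) * ε) ≤ η / 2 := by
      rw [hε]
      have hk : (0 : ℝ) ≤ k := Nat.cast_nonneg k
      have h5 : 2 * ((k : ℝ) * (η / (4 * (k + 1)))) = (k / (k + 1)) * (η / 2) := by
        field_simp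
        ring
      rw [h5]
      have h6 : (k : ℝ) / (k + 1) ≤ 1 := by
        rw [div_le_one (by positivity)]
        linarith
      nlinarith
    have h5 : ((PP m).card : ℝ) * (2 * ((k : ℝ) * ε)) ≤ (PP m).card * (η / 2) :=
      mul_le_mul_of_nonneg_left h4 (Nat.cast_nonneg _)
    simp only [hF] at h3
    linarith

end Pool.H19.NN
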