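import Pool.Agent.H19.NN.Defs

/-!
# [H19 NN NRM] In the limit all functions have modulus one

PROOF. For each `i` with `X i > 0`: `1 - 1/(i+1) ≤ ‖corN (G i) h (X i)‖ ≤ (1/X) ∑_{n≤X} ‖G i l (n + h l)‖` (the other factors have norm `≤ 1`), so
`(1/X) ∑_{n≤X} (1 - ‖G i l (n + h l)‖) ≤ 1/(i+1)` and `(1/X) ∑_{n≤X} (1 - ‖G i l n‖) ≤ 1/(i+1) + h l / X` (the terms are in `[0, 1]`;
the `n ≤ h l` cost at most `h l`). As `i → U ≤ atTop` the right side tends to `0` and the left side to `M.E (fun w => 1 - ‖fG G l w‖)`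
(`hS.lim`; `(n : ℤ).toNat = n`). The mean is also `≥ 0`.
-/

set_option autoImplicit false

open Finset Filter Topology Pool.Agent.H68.OF

namespace Pool.H19.NN

private theorem nrm_step (b : ℕ → ℝ) (X : ℕ) :
    ∑ n ∈ Icc 1 X, b (n + 1) = ∑ n ∈ Icc 1 X, b n + b (X + 1) - b 1 := by
  induction X with
  | zero => simp
  | succ X ih =>
    rw [Finset.sum_Icc_succ_top (by omega), Finset.sum_Icc_succ_top (by omega), ih]
    ring

private theorem nrm_shift (a : ℕ → ℝ) (h0 : ∀ n, 0 ≤ a n) (h1 : ∀ n, a n ≤ 1) (X H : ℕ) :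
    ∑ n ∈ Icc 1 X, a n ≤ H + ∑ n ∈ Icc 1 X, a (n + H) := by
  induction H with
  | zero => simp
  | succ H ih =>
    have h2 := nrm_step (fun n => a (n + H)) X
    have h3 : ∑ n ∈ Icc 1 X, a (n + (H + 1)) = ∑ n ∈ Icc 1 X, a (n + 1 + H) :=
      Finset.sum_congr rfl fun n _ => by rw [show n + (H + 1) = n + 1 + H by ring]
    rw [h3, h2]
    have h4 := h0 (X + 1 + H)
    have h5 := h1 (1 + H)
    push_cast
    linarith

private theorem nrm_le {k : ℕ} {h : Fin (k + 1) → ℕ} {X : ℕ → ℕ}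
    {G : ℕ → Fin (k + 1) → ArithmeticFunction ℂ}
    {U : Ultrafilter ℕ} {M : Mn} (hS : Sq k h X G U M) (l : Fin (k + 1)) (i : ℕ) (hX : 0 < X i) :
    (1 / (X i : ℝ)) * ∑ n ∈ Icc 1 (X i), (1 - ‖G i l n‖) ≤
      1 / ((i : ℝ) + 1) + (h l : ℝ) * (X i : ℝ)⁻¹ := by
  have hXr : (0 : ℝ) < (X i : ℝ) := by exact_mod_cast hX
  have h1 := nrm_shift (fun n => 1 - ‖G i l n‖) (fun n => by
    have := hS.bd i l n
    linarith) (fun n => by
    have := norm_nonneg (G i l n)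
    linarith) (X i) (h l)
  have h2 : ‖corN (G i) h (X i)‖ ≤ (1 / (X i : ℝ)) * ∑ n ∈ Icc 1 (X i), ‖G i l (n + h l)‖ := by
    unfold corN
    rw [norm_mul]
    have e1 : ‖(1 / (X i : ℂ))‖ = 1 / (X i : ℝ) := by
      rw [norm_div, norm_one, Complex.norm_natCast]
    rw [e1]
    refine mul_le_mul_of_nonneg_left ?_ (by positivity)
    refine (norm_sum_le _ _).trans (Finset.sum_le_sum fun n _ => ?_)
    rw [norm_prod, ← Finset.mul_prod_erase Finset.univ _ (Finset.mem_univ l)]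
    have e2 : ∏ j ∈ Finset.univ.erase l, ‖G i j (n + h j)‖ ≤ 1 :=
      Finset.prod_le_one (fun j _ => norm_nonneg _) fun j _ => hS.bd i j _
    have e3 := mul_le_mul_of_nonneg_left e2 (norm_nonneg (G i l (n + h l)))
    rwa [mul_one] at e3
  have h3 := (hS.big i).trans h2
  have h4 : ∑ n ∈ Icc 1 (X i), (1 - ‖G i l (n + h l)‖) =
      (X i : ℝ) - ∑ n ∈ Icc 1 (X i), ‖G i l (n + h l)‖ := by
    rw [Finset.sum_sub_distrib, Finset.sum_const, Nat.card_Icc, nsmul_eq_mul, mul_one]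
    congr 2

  rw [h4] at h1
  have h5 : (1 / (X i : ℝ)) * ∑ n ∈ Icc 1 (X i), (1 - ‖G i l n‖) ≤
      (1 / (X i : ℝ)) * ((h l : ℝ) + ((X i : ℝ) - ∑ n ∈ Icc 1 (X i), ‖G i l (n + h l)‖)) :=
    mul_le_mul_of_nonneg_left h1 (by positivity)
  refine h5.trans ?_
  have h6 : (1 / (X i : ℝ)) * ((h l : ℝ) + ((X i : ℝ) - ∑ n ∈ Icc 1 (X i), ‖G i l (n + h l)‖)) =
      (h l : ℝ) * (X i : ℝ)⁻¹ + (1 - (1 / (X i : ℝ)) * ∑ n ∈ Icc 1 (X i), ‖G i l (n + h l)‖) := by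
    field_simp
  rw [h6]
  linarith

theorem nrm {k : ℕ} {h : Fin (k + 1) → ℕ} {X : ℕ → ℕ} {G : ℕ → Fin (k + 1) → ArithmeticFunction ℂ}
    {U : Ultrafilter ℕ} {M : Mn} (hS : Sq k h X G U M) (l : Fin (k + 1)) : M.E (fun w => 1 - ‖fG G l w‖) = 0 := by
  have hf0 : ∀ w, 0 ≤ 1 - ‖fG G l w‖ := fun w => by
    have := hS.bd w.1 l w.2.toNat
    unfold fG
    linarith
  have hf1 : ∀ w, 1 - ‖fG G l w‖ ≤ 1 := fun w => by
    have := norm_nonneg (fG G l w)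
    linarith
  have hB : Bdd (fun w => 1 - ‖fG G l w‖) := ⟨1, fun w => abs_le.2 ⟨by linarith [hf0 w], hf1 w⟩⟩
  have hlim := hS.lim _ hB
  have he : ∀ i, (1 / (X i : ℝ)) * ∑ n ∈ Icc 1 (X i), (1 - ‖fG G l (i, (n : ℤ))‖) =
      (1 / (X i : ℝ)) * ∑ n ∈ Icc 1 (X i), (1 - ‖G i l n‖) := fun i => by
    congr 1
  have hlow : 0 ≤ M.E (fun w => 1 - ‖fG G l w‖) := M.nonneg' _ hB hf0
  have hX1 : Tendsto (fun i => (X i : ℝ)) U atTop :=
    (tendsto_natCast_atTop_atTop.comp hS.top).mono_left hS.ule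
  have hb : Tendsto (fun i : ℕ => 1 / ((i : ℝ) + 1) + (h l : ℝ) * (X i : ℝ)⁻¹) U (𝓝 0) := by
    have a1 : Tendsto (fun i : ℕ => 1 / ((i : ℝ) + 1)) U (𝓝 0) :=
      tendsto_one_div_add_atTop_nhds_zero_nat.mono_left hS.ule
    have a2 : Tendsto (fun i : ℕ => (h l : ℝ) * (X i : ℝ)⁻¹) U (𝓝 ((h l : ℝ) * 0)) :=
      (tendsto_inv_atTop_zero.comp hX1).const_mul _
    have a3 := a1.add a2
    rwa [mul_zero, add_zero] at a3
  have hup : M.E (fun w => 1 - ‖fG G l w‖) ≤ 0 := by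
    refine le_of_tendsto_of_tendsto hlim hb ?_
    filter_upwards [hX1.eventually_gt_atTop 0] with i hi
    have hXi : 0 < X i := by exact_mod_cast hi
    have h3 := nrm_le hS l i hXi
    rw [← he i] at h3
    exact h3
  exact le_antisymm hup hlow

end Pool.H19.NN
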