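import Pool.Agent.H19.NN.Dns
import Pool.Agent.H19.NN.Box

/-!
# [H19 NN NT] Short steps between cubes of primes (assembly, short)

PROOF. `c`, `m₀` from `cube_dense k`; `D`, `X₀` from `box_lemma k c`. For `m ≥ max m₀ X₀` (`X₀ ≤ m ≤ 2^m`) and `A` apply `box_lemma` to
`R = (Bx k (2^m)).filter (fun r => ∃ x, Cub k A r x)` with `X = 2^m`.
-/

set_option autoImplicit false

open Finset Filter Topology Pool.Agent.H68.OF

namespace Pool.H19.NN

theorem nt (k : ℕ) : ∃ D m₀ : ℕ, ∀ m : ℕ, m₀ ≤ m → ∀ A : Finset ℤ, A ⊆ PZ m → (PP m).card ≤ 2 * A.card →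
    ∃ r d : Fin k → ℤ, (∀ i, 1 ≤ d i ∧ d i ≤ D) ∧
      ∀ ω : Finset (Fin k), ∃ x, Cub k A (fun i => r i + if i ∈ ω then d i else 0) x := by
  classical
  obtain ⟨c, hc, m₀, h1⟩ := cube_dense k
  obtain ⟨D, X₀, h2⟩ := box_lemma k c hc
  refine ⟨D, max m₀ X₀, ?_⟩
  intro m hm A hA hcard
  have hm0 : m₀ ≤ m := le_trans (le_max_left _ _) hm
  have hX0 : X₀ ≤ 2 ^ m := le_trans (le_trans (le_max_right _ _) hm) (Nat.lt_two_pow_self).le
  have h3 := h1 m hm0 A hA hcard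
  obtain ⟨r, d, hd, hr⟩ := h2 (2 ^ m) hX0 ((Bx k (2 ^ m)).filter (fun r => ∃ x, Cub k A r x))
    (Finset.filter_subset _ _) (by
      push_cast
      exact h3)
  refine ⟨r, d, hd, fun ω => ?_⟩
  exact (Finset.mem_filter.1 (hr ω)).2

end Pool.H19.NN
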