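import Pool.Agent.H19.NN.Elm
import Pool.Agent.H19.NN.Cmb
import Pool.Agent.H19.NN.Dsc
import Pool.Agent.H19.NN.Fo
import Pool.Agent.H19.NN.Nt

/-!
# [H19 NN PRD] The function of finite order is periodic

PROOF. `D`, `m₀` from `nt k`. `T = D! * ∏ i, |c 0 - c i.succ|` (`natAbs`, positive by `hc`), `K = q^k * T`, `C₁` from `disc`, `C₂` from
`fo q T k`. Given `ε > 0` take `m ≥ m₀` and `A` from the hypothesis and `r`, `d` from `nt`. For every `ω` `elim` gives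
`Ed (DD k (fun i => (r i + if i ∈ ω then d i else 0) * (c 0 - c i.succ)) (u 0)) a ≤ 2^k ε`; `comb` gives
`Ed (DD k (fun i => d i * (c 0 - c i.succ)) (u 0)) a ≤ 4^k ε` (`2^k * (2^k ε)`); `disc` with `V = DD k _ (u 0)` (`DD_pow`) gives `a'` with
`Pb (V ≠ a') ≤ C₁ 4^k ε`; `fo` with `v i = d i * (c 0 - c i.succ)` (nonzero; divides `T`: `d i ∣ D!` because `1 ≤ d i ≤ D`
(`Nat.dvd_factorial` for `(d i).toNat`), `c 0 - c i.succ ∣ ∏`, product of the two divisibilities) gives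
`Pb (u 0 ∘ tr K ≠ u 0) ≤ C₂ C₁ 4^k ε`. This holds for all `ε > 0`, so the probability is `0` (`Pb_nonneg`).
-/

set_option autoImplicit false

open Finset Filter Topology Pool.Agent.H68.OF

namespace Pool.H19.NN

theorem periodic (k q : ℕ) (hq : 0 < q) (c : Fin (k + 1) → ℤ) (hc : ∀ i, i ≠ 0 → c i ≠ c 0) : ∃ K : ℕ, 0 < K ∧
    ∀ (M : Mn) (u : Fin (k + 1) → Om → ℂ), (∀ l, Un (u l)) → (∀ w, u 0 w ^ q = 1) →
    (∀ ε : ℝ, 0 < ε → ∀ m₁ : ℕ, ∃ m : ℕ, m₁ ≤ m ∧ ∃ A : Finset ℤ, A ⊆ PZ m ∧ (PP m).card ≤ 2 * A.card ∧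
      ∀ p ∈ A, ∃ a : ℂ, ‖a‖ ≤ 1 ∧ Ed M (fun w => ∏ l, u l (tr (p * c l) w)) a ≤ ε) →
    Pb M (fun w => u 0 (tr (K : ℤ) w) ≠ u 0 w) = 0 := by
  obtain ⟨D, m₀, hnt⟩ := nt k
  obtain ⟨C₁, hC₁, hdisc⟩ := disc q hq
  have hb : ∀ i : Fin k, c 0 - c i.succ ≠ 0 := fun i h =>
    hc i.succ (Fin.succ_ne_zero i) (sub_eq_zero.1 h).symm
  set T : ℕ := D.factorial * ∏ i : Fin k, (c 0 - c i.succ).natAbs with hT
  have hT0 : 0 < T := Nat.mul_pos (Nat.factorial_pos D)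
    (Finset.prod_pos fun i _ => Int.natAbs_pos.2 (hb i))
  obtain ⟨C₂, hC₂, hfo⟩ := fo q T hq hT0 k
  refine ⟨q ^ k * T, Nat.mul_pos (Nat.pow_pos hq) hT0, ?_⟩
  intro M u hu hu0 hA
  have key : ∀ ε : ℝ, 0 < ε →
      Pb M (fun w => u 0 (tr ((q ^ k * T : ℕ) : ℤ) w) ≠ u 0 w) ≤ C₂ * (C₁ * (2 ^ k * (2 ^ k * ε))) := by
    intro ε hε
    obtain ⟨m, hm, A, hAs, hAc, hAr⟩ := hA ε hε m₀
    obtain ⟨r, d, hd, hcub⟩ := hnt m hm A hAs hAc
    have h1 : ∀ ω : Finset (Fin k), ∃ a : ℂ, ‖a‖ ≤ 1 ∧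
        Ed M (DD k (fun i => (r i + if i ∈ ω then d i else 0) * (c 0 - c i.succ)) (u 0)) a ≤ 2 ^ k * ε :=
      fun ω => elim M k c u hu A ε hAr (fun i => r i + if i ∈ ω then d i else 0) (hcub ω)
    obtain ⟨a, -, h2⟩ := comb M k (fun i => c 0 - c i.succ) r d (u 0) (hu 0) (2 ^ k * ε) h1
    obtain ⟨a', -, h3⟩ := hdisc M (DD k (fun i => d i * (c 0 - c i.succ)) (u 0)) a (2 ^ k * (2 ^ k * ε))
      (fun w => DD_pow q k _ hu0 w) h2
    refine hfo M (fun i => d i * (c 0 - c i.succ)) ?_ (u 0) hu0 a' (C₁ * (2 ^ k * (2 ^ k * ε)))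
      (by positivity) h3
    intro i
    have hdi := hd i
    refine ⟨mul_ne_zero (by omega) (hb i), ?_⟩
    rw [hT]
    push_cast
    refine mul_dvd_mul ?_ ?_
    · have h4 : (d i).toNat ∣ D.factorial := Nat.dvd_factorial (by omega) (by omega)
      have h5 : (((d i).toNat : ℕ) : ℤ) ∣ (D.factorial : ℤ) := by exact_mod_cast h4
      rwa [Int.toNat_of_nonneg (by omega)] at h5
    · have h6 : |c 0 - c i.succ| ∣ ∏ i : Fin k, |c 0 - c i.succ| :=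
        Finset.dvd_prod_of_mem (fun i : Fin k => |c 0 - c i.succ|) (Finset.mem_univ i)
      exact (abs_dvd _ _).1 h6
  apply le_antisymm _ (Pb_nonneg M _)
  refine le_of_forall_pos_le_add fun ε hε => ?_
  rw [zero_add]
  set B : ℝ := C₂ * (C₁ * (2 ^ k * 2 ^ k)) + 1 with hB
  have hB0 : 0 < B := by positivity
  refine (key (ε / B) (by positivity)).trans ?_
  have h7 : C₂ * (C₁ * (2 ^ k * (2 ^ k * (ε / B)))) = (B - 1) / B * ε := by
    rw [hB]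
    field_simp
    ring
  rw [h7]
  have h8 : (B - 1) / B ≤ 1 := by
    rw [div_le_one hB0]
    linarith
  nlinarith

end Pool.H19.NN
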