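import Pool.Agent.H19.NN.Fin
import Pool.Agent.H68.OF.Main

/-!
# [H19 NN RES] The final theorem: integer shifts, arbitrary place (assembly)

PROOF. `k ≥ 1` because of `j : Fin k`; write `k = k' + 1`, `σ = Equiv.swap 0 j`, `h₁ = h ∘ σ`. `main_shift` (OF/Main): `h₁ i = h' i + t` with
`h' : Fin (k'+1) → ℕ`; `h' i ≠ h' 0` for `i ≠ 0`. `fin99 k' q` gives `δ₁`; `δ = δ₁/2`. For `N ≥ N₀` and `N ≥ 4 |t| / δ₁ + 1`:
`cor_shift` (OF/LogA) `‖cor G₁ h₁ N - corN G₁ h' N‖ ≤ 2 |t| / N ≤ δ₁/2` with `G₁ i = g (σ i)`; `cor G₁ h₁ N` is the average of the statement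
(`Equiv.prod_comp σ`).
-/

set_option autoImplicit false

open Finset Filter Topology Pool.Agent.H68.OF

namespace Pool.H19.NN

theorem res (k q : ℕ) (hq : 0 < q) (h : Fin k → ℤ) (j : Fin k) (hne : ∀ i, i ≠ j → h i ≠ h j) : ∃ δ : ℝ, 0 < δ ∧
    ∀ g₀ : ArithmeticFunction ℂ, g₀.IsMultiplicative → (∀ n, ‖g₀ n‖ ≤ 1) →
    (∀ n, ∃ r : ℝ, 0 ≤ r ∧ g₀ n ^ q = (r : ℂ)) → CN g₀ → ∃ N₀ : ℕ, ∀ N : ℕ, N₀ ≤ N →
    ∀ g : Fin k → ArithmeticFunction ℂ, g j = g₀ → (∀ i, (g i).IsMultiplicative) → (∀ i n, ‖g i n‖ ≤ 1) →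
    ‖(1 / (N : ℂ)) * ∑ n ∈ Icc 1 N, ∏ i, g i ((n : ℤ) + h i).toNat‖ ≤ 1 - δ := by
  rcases k with _ | k
  · exact j.elim0
  set σ : Equiv.Perm (Fin (k + 1)) := Equiv.swap 0 j with hσ
  have hσ0 : σ 0 = j := by rw [hσ]; exact Equiv.swap_apply_left 0 j
  obtain ⟨t, h', hh'⟩ := main_shift (fun i => h (σ i))
  have hne' : ∀ i, i ≠ 0 → h' i ≠ h' 0 := by
    intro i hi he
    have h1 : σ i ≠ j := by
      intro h2
      apply hi
      apply σ.injective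
      rw [h2, hσ0]
    apply hne _ h1
    have h3 := hh' i
    have h4 := hh' 0
    simp only [hσ0] at h3 h4
    rw [h3, h4, he]
  obtain ⟨δ, hδ, hmain⟩ := fin99 k q hq h' hne'
  refine ⟨δ / 2, by positivity, ?_⟩
  intro g₀ hm hb hv hN
  obtain ⟨N₀, hN₀⟩ := hmain g₀ hm hb hv hN
  refine ⟨max (max 1 N₀) ⌈4 * |(t : ℝ)| / δ⌉₊, ?_⟩
  intro N hNN g hg hgm hgb
  have hN1 : 1 ≤ N := le_trans (le_trans (le_max_left _ _) (le_max_left _ _)) hNN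
  have hN2 : N₀ ≤ N := le_trans (le_trans (le_max_right _ _) (le_max_left _ _)) hNN
  have hN3 : 4 * |(t : ℝ)| / δ ≤ N :=
    (Nat.le_ceil _).trans (by exact_mod_cast le_trans (le_max_right _ _) hNN)
  have hNr : (0 : ℝ) < N := by exact_mod_cast hN1
  have h1 := hN₀ N hN2 (fun i => g (σ i)) (by simp only [hσ0]; exact hg) (fun i => hgm _) (fun i n => hgb _ n)
  have h2 := cor_shift (fun i => g (σ i)) (fun i n => hgb _ n) (fun i => h (σ i)) h' t hh' N hN1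
  have h3 : cor (fun i => g (σ i)) (fun i => h (σ i)) N =
      (1 / (N : ℂ)) * ∑ n ∈ Icc 1 N, ∏ i, g i ((n : ℤ) + h i).toNat := by
    unfold cor
    congr 1
    refine Finset.sum_congr rfl fun n _ => ?_
    exact Equiv.prod_comp σ (fun i => g i ((n : ℤ) + h i).toNat)
  rw [← h3]
  have h4 : 2 * |(t : ℝ)| / N ≤ δ / 2 := by
    rw [div_le_iff₀ hδ] at hN3
    rw [div_le_iff₀ hNr]
    linarith
  have h5 := norm_sub_norm_le (cor (fun i => g (σ i)) (fun i => h (σ i)) N) (corN (fun i => g (σ i)) h' N)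
  linarith

end Pool.H19.NN
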