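import Pool.Agent.H19.NN.Goo
import Pool.Agent.H19.NN.Prd

/-!
# [H19 NN STR] The structure theorem for the limit

PROOF. `K` from `periodic k q` with `c l = h l` (integers). Given `M`, `f` put `u l w = f l w / ‖f l w‖` if `f l w ≠ 0`, else `1`. `Un (u l)`;
`u 0 w ^ q = 1`: if `f 0 w ≠ 0`, `f 0 w ^ q = r ≥ 0` real, `r = ‖f 0 w‖^q`, so the quotient is `1`. `‖u l w - f l w‖ = 1 - ‖f l w‖`, so
`E ‖u l - f l‖ = 0` by `h1`. By `good` there are for all `ε`, `m₁` an `m ≥ m₁` and `A` with `Ed (∏ f l (tr (p h l))) a ≤ ε`; the same holds for `u`: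
`‖∏ u l (..) - a‖ ≤ ‖∏ f l (..) - a‖ + ∑ l ‖u l (tr (p h l) w) - f l (tr (p h l) w)‖` (difference of products of numbers of norm `≤ 1`: induction, or
`norm_prod_sub_prod_le` is not enough, use a telescoping induction over `Fin`), the last sum has mean `0` (`E_tr`). `periodic`:
`Pb (u 0 ∘ tr K ≠ u 0) = 0`. Then `‖f 0 (tr K w) - f 0 w‖ ≤ ‖f 0 (tr K w) - u 0 (tr K w)‖ + 2 * indicator + ‖u 0 w - f 0 w‖`, mean `0`.
-/

set_option autoImplicit false

open Finset Filter Topology Pool.Agent.H68.OF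

namespace Pool.H19.NN

private lemma str_prod_diff {ι : Type} (s : Finset ι) (x y : ι → ℂ) (hx : ∀ i, ‖x i‖ ≤ 1)
    (hy : ∀ i, ‖y i‖ ≤ 1) : ‖∏ i ∈ s, x i - ∏ i ∈ s, y i‖ ≤ ∑ i ∈ s, ‖x i - y i‖ := by
  classical
  induction s using Finset.induction_on with
  | empty => simp
  | insert a s ha ih =>
    rw [Finset.prod_insert ha, Finset.prod_insert ha, Finset.sum_insert ha]
    have h1 : x a * ∏ i ∈ s, x i - y a * ∏ i ∈ s, y i =
        (x a - y a) * ∏ i ∈ s, x i + y a * (∏ i ∈ s, x i - ∏ i ∈ s, y i) := by ring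
    rw [h1]
    refine (norm_add_le _ _).trans ?_
    rw [norm_mul, norm_mul]
    have h2 : ‖∏ i ∈ s, x i‖ ≤ 1 := by
      rw [norm_prod]
      exact Finset.prod_le_one (fun _ _ => norm_nonneg _) (fun i _ => hx i)
    have h3 : ‖x a - y a‖ * ‖∏ i ∈ s, x i‖ ≤ ‖x a - y a‖ * 1 :=
      mul_le_mul_of_nonneg_left h2 (norm_nonneg _)
    have h4 : ‖y a‖ * ‖∏ i ∈ s, x i - ∏ i ∈ s, y i‖ ≤ 1 * ∑ i ∈ s, ‖x i - y i‖ :=
      mul_le_mul (hy a) ih (norm_nonneg _) zero_le_one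
    linarith

theorem struct (k q : ℕ) (hq : 0 < q) (h : Fin (k + 1) → ℕ) (hne : ∀ i, i ≠ 0 → h i ≠ h 0) : ∃ K : ℕ, 0 < K ∧
    ∀ (M : Mn) (f : Fin (k + 1) → Om → ℂ), (∀ l w, ‖f l w‖ ≤ 1) →
    (∀ w, ∃ r : ℝ, 0 ≤ r ∧ f 0 w ^ q = (r : ℂ)) → (∀ l, M.E (fun w => 1 - ‖f l w‖) = 0) → ∀ C : ℝ,
    (∀ p : ℕ, p.Prime →
      1 - C / p ≤ ‖M.Ec (fun w => (dv p w.2 : ℂ) * ∏ l, f l (tr ((p * h l : ℕ) : ℤ) w))‖) →
    M.E (fun w => ‖f 0 (tr (K : ℤ) w) - f 0 w‖) = 0 := by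
  classical
  obtain ⟨K, hK, hper⟩ := periodic k q hq (fun l => (h l : ℤ))
    (fun i hi => by
      have := hne i hi
      exact_mod_cast this)
  refine ⟨K, hK, ?_⟩
  intro M f hf hr h1 C hC
  obtain ⟨u, hu⟩ : ∃ u : Fin (k + 1) → Om → ℂ, ∀ l w, u l w = if f l w = 0 then 1 else
      f l w / ‖f l w‖ := ⟨_, fun _ _ => rfl⟩
  have hun : ∀ l, Un (u l) := by
    intro l w
    rw [hu]
    split_ifs with h0
    · exact norm_one
    · rw [norm_div, Complex.norm_real, norm_norm]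
      exact div_self (norm_ne_zero_iff.mpr h0)
  have huq : ∀ w, u 0 w ^ q = 1 := by
    intro w
    rw [hu]
    split_ifs with h0
    · exact one_pow q
    · obtain ⟨r, hr0, hr1⟩ := hr w
      have h2 : ‖f 0 w‖ ^ q = r := by
        rw [← norm_pow, hr1, Complex.norm_real, Real.norm_eq_abs, abs_of_nonneg hr0]
      rw [div_pow, hr1, ← h2]
      push_cast
      refine div_self (pow_ne_zero q ?_)
      exact_mod_cast norm_ne_zero_iff.mpr h0
  have huf : ∀ l w, ‖u l w - f l w‖ = 1 - ‖f l w‖ := by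
    intro l w
    rw [hu]
    split_ifs with h0
    · rw [h0]
      simp
    · have h2 : ((‖f l w‖ : ℝ) : ℂ) ≠ 0 := by
        exact_mod_cast norm_ne_zero_iff.mpr h0
      have h3 : f l w / ‖f l w‖ - f l w = f l w / ‖f l w‖ * ((1 - ‖f l w‖ : ℝ) : ℂ) := by
        push_cast
        field_simp
      rw [h3, norm_mul, norm_div, Complex.norm_real, norm_norm,
        div_self (norm_ne_zero_iff.mpr h0), one_mul, Complex.norm_real, Real.norm_eq_abs,
        abs_of_nonneg (by linarith [hf l w])]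
  have hfb : ∀ l, BddC (f l) := fun l => ⟨1, hf l⟩
  have hub : ∀ l, BddC (u l) := fun l => ⟨1, fun w => (hun l w).le⟩
  have hb1 : ∀ l, Bdd (fun w => 1 - ‖f l w‖) := fun l => (Bdd.const 1).sub (hfb l).norm
  have hzero : ∀ l (b : ℤ), M.E (fun w => 1 - ‖f l (tr b w)‖) = 0 := by
    intro l b
    rw [← h1 l]
    exact E_tr M (hb1 l) b
  have hP : Pb M (fun w => u 0 (tr (K : ℤ) w) ≠ u 0 w) = 0 := by
    refine hper M u hun huq ?_
    intro ε hε m₁
    obtain ⟨m, hm, A, hA1, hA2, hA3⟩ := good M (k + 1) h f hf C hC ε hε m₁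
    refine ⟨m, hm, A, hA1, hA2, fun p hp => ?_⟩
    obtain ⟨a, ha, hE⟩ := hA3 p hp
    refine ⟨a, ha, le_trans ?_ hE⟩
    unfold Ed
    have hbF : BddC (fun w => ∏ l, f l (tr (p * h l) w)) :=
      BddC.prod _ fun l _ => (hfb l).tr _
    have hbU : BddC (fun w => ∏ l, u l (tr (p * h l) w)) :=
      BddC.prod _ fun l _ => (hub l).tr _
    have hbs : Bdd (fun w => ∑ l, (1 - ‖f l (tr (p * h l) w)‖)) :=
      Bdd.sum _ fun l _ => (hb1 l).tr _
    have h2 : M.E (fun w => ‖∏ l, u l (tr (p * h l) w) - a‖) ≤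
        M.E (fun w => ‖∏ l, f l (tr (p * h l) w) - a‖ + ∑ l, (1 - ‖f l (tr (p * h l) w)‖)) := by
      refine E_mono M (hbU.sub (BddC.const a)).norm ((hbF.sub (BddC.const a)).norm.add hbs) ?_
      intro w
      have h3 := str_prod_diff Finset.univ (fun l => u l (tr (p * h l) w))
        (fun l => f l (tr (p * h l) w)) (fun l => (hun l _).le) (fun l => hf l _)
      simp only [huf] at h3
      have h4 : ∏ l, u l (tr (p * h l) w) - a = (∏ l, f l (tr (p * h l) w) - a) +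
          (∏ l, u l (tr (p * h l) w) - ∏ l, f l (tr (p * h l) w)) := by ring
      rw [h4]
      refine (norm_add_le _ _).trans ?_
      linarith
    refine h2.trans (le_of_eq ?_)
    rw [M.add' _ _ (hbF.sub (BddC.const a)).norm hbs, E_sum M _ (fun l _ => (hb1 l).tr _),
      Finset.sum_eq_zero (fun l _ => hzero l _), add_zero]
  -- the conclusion
  have hind : Bdd (fun w => if u 0 (tr (K : ℤ) w) ≠ u 0 w then (1 : ℝ) else 0) :=
    Bdd.ite (Bdd.const 1) (Bdd.const 0)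
  have hi2 : Bdd (fun w => 2 * (if u 0 (tr (K : ℤ) w) ≠ u 0 w then (1 : ℝ) else 0)) :=
    (Bdd.const 2).mul hind
  have hP2 : M.E (fun w => if u 0 (tr (K : ℤ) w) ≠ u 0 w then (1 : ℝ) else 0) = 0 := by
    rw [← hP, Pb]
    congr 1
    funext w
    congr
  have hd : BddC (fun w => f 0 (tr (K : ℤ) w) - f 0 w) := ((hfb 0).tr _).sub (hfb 0)
  refine le_antisymm ?_ (M.nonneg' _ hd.norm (fun w => norm_nonneg _))
  have h5 : M.E (fun w => ‖f 0 (tr (K : ℤ) w) - f 0 w‖) ≤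
      M.E (fun w => (1 - ‖f 0 (tr (K : ℤ) w)‖) +
        (2 * (if u 0 (tr (K : ℤ) w) ≠ u 0 w then (1 : ℝ) else 0) + (1 - ‖f 0 w‖))) := by
    refine E_mono M hd.norm (((hb1 0).tr _).add (hi2.add (hb1 0))) ?_
    intro w
    rw [← huf, ← huf]
    have h6 : f 0 (tr (K : ℤ) w) - f 0 w = -(u 0 (tr (K : ℤ) w) - f 0 (tr (K : ℤ) w)) +
        ((u 0 (tr (K : ℤ) w) - u 0 w) + (u 0 w - f 0 w)) := by ring
    have h7 : ‖u 0 (tr (K : ℤ) w) - u 0 w‖ ≤
        2 * (if u 0 (tr (K : ℤ) w) ≠ u 0 w then (1 : ℝ) else 0) := by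
      split_ifs with h8
      · refine (norm_sub_le _ _).trans ?_
        rw [hun 0, hun 0]
        norm_num
      · push Not at h8
        rw [h8]
        simp
    calc ‖f 0 (tr (K : ℤ) w) - f 0 w‖ = ‖-(u 0 (tr (K : ℤ) w) - f 0 (tr (K : ℤ) w)) +
        ((u 0 (tr (K : ℤ) w) - u 0 w) + (u 0 w - f 0 w))‖ := by rw [← h6]
      _ ≤ ‖-(u 0 (tr (K : ℤ) w) - f 0 (tr (K : ℤ) w))‖ +
          ‖(u 0 (tr (K : ℤ) w) - u 0 w) + (u 0 w - f 0 w)‖ := norm_add_le _ _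
      _ ≤ ‖u 0 (tr (K : ℤ) w) - f 0 (tr (K : ℤ) w)‖ +
          (‖u 0 (tr (K : ℤ) w) - u 0 w‖ + ‖u 0 w - f 0 w‖) := by
          rw [norm_neg]
          have := norm_add_le (u 0 (tr (K : ℤ) w) - u 0 w) (u 0 w - f 0 w)
          linarith
      _ ≤ _ := by linarith
  refine h5.trans (le_of_eq ?_)
  rw [M.add' _ _ ((hb1 0).tr _) (hi2.add (hb1 0)), M.add' _ _ hi2 (hb1 0),
    M.smul' 2 _ hind, hP2, h1 0, hzero 0 _]
  ring

end Pool.H19.NN
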